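import Pool.Agent.TH746.Loc

/-!
Local parametrisation of the orbits near a given one by the initial point and direction, in
independent charts with Lipschitz left inverses.
-/

set_option autoImplicit false

open MeasureTheory Set Filter Topology
open scoped InnerProductSpace
open Pool.Agent.H721R2.Quart Pool.Agent.H721R2.Ivrii

namespace Pool.Agent.TH746.AL

open Pool.Agent.TH746

variable {E : Type*} [NormedAddCommGroup E] [InnerProductSpace ℝ E] [FiniteDimensional ℝ E]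

/-- a local parametrisation of `F = 0` over the tangent space with a linear left inverse -/
theorem chart_lin {F : E → ℝ} {q : E} (hF : ContDiffAt ℝ 3 F q) (h0 : F q = 0)
    (hg : gradient F q ≠ 0) :
    ∃ a : E, a ≠ 0 ∧ ∃ X : (ℝ ∙ a)ᗮ → E, ContDiffAt ℝ 2 X 0 ∧ X 0 = q ∧
      (∀ᶠ z in 𝓝 0, F (X z) = 0) ∧
      (∃ P : E →L[ℝ] (ℝ ∙ a)ᗮ, (∀ z, P (X z - q) = z) ∧
        ∀ᶠ y in 𝓝 q, F y = 0 → y = X (P (y - q))) := by
  obtain ⟨g, hgd⟩ : ∃ g, g = gradient F q := ⟨_, rfl⟩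
  rw [← hgd] at hg
  have hgg : ⟪g, g⟫_ℝ ≠ 0 := by
    rw [real_inner_self_eq_norm_sq]; exact pow_ne_zero 2 (norm_ne_zero_iff.2 hg)
  obtain ⟨T, hT, hT0, hT1, hT2⟩ := exists_hit (F := F) (x0 := q) (v0 := g) (t0 := 0)
    (by rw [zero_smul, add_zero]; exact hF) (by rw [zero_smul, add_zero]; exact h0)
    (by rw [zero_smul, add_zero, G4_fderiv_eq, ← hgd]; exact hgg)
  have hc : ContDiffAt ℝ 3 (fun z : (ℝ ∙ g)ᗮ => (q + (z : E), g)) 0 := by
    have h1 : ContDiff ℝ 3 (fun z : (ℝ ∙ g)ᗮ => (q + (z : E), g)) := by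
      have h2 : ContDiff ℝ 3 (fun z : (ℝ ∙ g)ᗮ => (z : E)) :=
        ((ℝ ∙ g)ᗮ).subtypeL.contDiff
      exact (contDiff_const.add h2).prodMk contDiff_const
    exact h1.contDiffAt
  have hcc : Tendsto (fun z : (ℝ ∙ g)ᗮ => (q + (z : E), g)) (𝓝 0) (𝓝 (q, g)) := by
    have := hc.continuousAt.tendsto
    simpa using this
  have hTc : ContDiffAt ℝ 3 (fun z : (ℝ ∙ g)ᗮ => T (q + (z : E), g)) 0 := by
    refine ContDiffAt.comp (g := T) (f := fun z : (ℝ ∙ g)ᗮ => (q + (z : E), g)) 0 ?_ hc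
    simpa using hT
  have hX : ContDiffAt ℝ 3 (fun z : (ℝ ∙ g)ᗮ => q + (z : E) + T (q + (z : E), g) • g) 0 := by
    have h2 : ContDiffAt ℝ 3 (fun z : (ℝ ∙ g)ᗮ => (z : E)) 0 :=
      ((ℝ ∙ g)ᗮ).subtypeL.contDiff.contDiffAt
    exact (contDiffAt_const.add h2).add (hTc.smul contDiffAt_const)
  have hzero : ∀ᶠ z : (ℝ ∙ g)ᗮ in 𝓝 0, F (q + (z : E) + T (q + (z : E), g) • g) = 0 :=
    hcc.eventually hT1
  refine ⟨g, hg, fun z => q + (z : E) + T (q + (z : E), g) • g, hX.of_le (by norm_num), ?_, hzero,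
    (ℝ ∙ g)ᗮ.orthogonalProjectionOnto, ?_, ?_⟩
  · simp [hT0]
  · intro z
    have h1 : q + (z : E) + T (q + (z : E), g) • g - q = (z : E) + T (q + (z : E), g) • g := by
      abel
    rw [h1, map_add, map_smul]
    have h2 : (ℝ ∙ g)ᗮ.orthogonalProjectionOnto g = 0 := by
      rw [Submodule.orthogonalProjectionOnto_eq_zero_iff]
      exact Submodule.le_orthogonal_orthogonal _ (Submodule.mem_span_singleton_self g)
    rw [h2, smul_zero, add_zero]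
    simp
  · -- uniqueness
    have hdec : ∀ y : E, ((ℝ ∙ g)ᗮ.orthogonalProjectionOnto (y - q) : E) +
        (⟪g, y - q⟫_ℝ / ⟪g, g⟫_ℝ) • g = y - q := by
      intro y
      have h1 := Submodule.starProjection_add_starProjection_orthogonal (K := (ℝ ∙ g)) (y - q)
      have h2 := Submodule.starProjection_singleton ℝ (v := g) (y - q)
      rw [h2] at h1
      have h3 : ((ℝ ∙ g)ᗮ.orthogonalProjectionOnto (y - q) : E) =
          (ℝ ∙ g)ᗮ.starProjection (y - q) := rfl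
      rw [h3]
      have h4 : ((⟪g, y - q⟫_ℝ / ((‖g‖ : ℝ) ^ 2 : ℝ) : ℝ)) = ⟪g, y - q⟫_ℝ / ⟪g, g⟫_ℝ := by
        rw [real_inner_self_eq_norm_sq]
      rw [← h4, add_comm]
      exact h1
    have htend : Tendsto (fun y : E => ((q + ((ℝ ∙ g)ᗮ.orthogonalProjectionOnto (y - q) : E), g),
        ⟪g, y - q⟫_ℝ / ⟪g, g⟫_ℝ)) (𝓝 q) (𝓝 ((q, g), 0)) := by
      have h1 : Continuous (fun y : E => ((q + ((ℝ ∙ g)ᗮ.orthogonalProjectionOnto (y - q) : E), g),
        ⟪g, y - q⟫_ℝ / ⟪g, g⟫_ℝ)) := by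
        fun_prop
      have h2 := h1.tendsto q
      simpa using h2
    filter_upwards [htend.eventually hT2] with y hy hFy
    have h1 : q + ((ℝ ∙ g)ᗮ.orthogonalProjectionOnto (y - q) : E) +
        (⟪g, y - q⟫_ℝ / ⟪g, g⟫_ℝ) • g = y := by
      rw [add_assoc, hdec]; abel
    have h2 := hy (by rw [h1]; exact hFy)
    rw [← h2, h1]

theorem exists_par {Ω : Set E} {g : E ≃ᵃⁱ[ℝ] E} (hg : g ⁻¹' Ω = Ω) {n : ℕ} {p u : ℕ → E}
    (h : OrbitMod Ω g n p u) :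
    ∃ (a b : E) (U : Set ((ℝ ∙ a)ᗮ × (ℝ ∙ b)ᗮ)) (X : (ℝ ∙ a)ᗮ → E) (Y : (ℝ ∙ b)ᗮ → E)
      (s : ℕ → ((ℝ ∙ a)ᗮ × (ℝ ∙ b)ᗮ) → E × E) (P : E → (ℝ ∙ a)ᗮ) (Q : E → (ℝ ∙ b)ᗮ),
      a ≠ 0 ∧ b ≠ 0 ∧ IsOpen U ∧ (s 0 = fun z => (X z.1, Y z.2)) ∧
      (∀ z ∈ U, ⟪Y z.2, Y z.2⟫_ℝ = 1) ∧
      (∃ K, LipschitzWith K P) ∧ (∃ K, LipschitzWith K Q) ∧
      (∀ z, P (X z) = z) ∧ (∀ z, Q (Y z) = z) ∧
      (∀ m ≤ n, ∃ K, LipschitzOnWith K (s m) U) ∧
      ∀ᶠ w : (ℕ → E) × (ℕ → E) in 𝓝 (p, u), OrbitMod Ω g n w.1 w.2 →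
        ∃ z ∈ U, ∀ k ≤ n, s k z = (w.1 k, w.2 k) := by
  obtain ⟨D⟩ := exists_mirrs hg h
  have hunit := unit_steps h.step h.unit
  have hst : ∀ k, u (k + 1) = rf (dir (gradient (D.F (k + 1)) (p (k + 1)))) (u k) ∧
      ⟪gradient (D.F (k + 1)) (p (k + 1)), u k⟫_ℝ ≠ 0 ∧
      ∃ t : ℝ, 0 < t ∧ p (k + 1) = p k + t • u k :=
    fun k => step_refl' (h.step k) (D.df (k + 1))
  have hst3 := fun k => (hst k).2.2
  choose t htp hpt using hst3
  have hT : ∀ k, ∃ T : E × E → ℝ, ContDiffAt ℝ 3 T (p k, u k) ∧ T (p k, u k) = t k ∧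
      (∀ᶠ y in 𝓝 (p k, u k), D.F (k + 1) (y.1 + T y • y.2) = 0) ∧
      (∀ᶠ y in 𝓝 ((p k, u k), t k), D.F (k + 1) (y.1.1 + y.2 • y.1.2) = 0 → y.2 = T y.1) := by
    intro k
    exact exists_hit (by rw [← hpt k]; exact (D.df (k + 1)).smooth)
      (by rw [← hpt k]; exact (D.df (k + 1)).zero)
      (by rw [← hpt k, G4_fderiv_eq]; exact (hst k).2.1)
  choose T hT1 hT2 hT3 hT4 using hT
  have hM := fun k => exists_mirror' (D.df k)
  choose ν σ hν hσ hm hzc using hM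
  -- the charts
  obtain ⟨Fs, hFs⟩ : ∃ Fs : E → ℝ, Fs = fun v : E => ⟪v, v⟫_ℝ - 1 := ⟨_, rfl⟩
  have Fsc : ContDiffAt ℝ 3 Fs (u 0) := by
    rw [hFs]
    exact ((contDiff_id.inner ℝ contDiff_id).sub contDiff_const).contDiffAt
  have Fs0 : Fs (u 0) = 0 := by rw [hFs]; simp only [hunit 0, sub_self]
  have Fsgr : ∀ v w, ⟪gradient Fs v, w⟫_ℝ = 2 * ⟪v, w⟫_ℝ := by
    rw [hFs]; exact gradient_sphere
  have Fsg : gradient Fs (u 0) ≠ 0 := by
    intro h0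
    have h1 := Fsgr (u 0) (u 0)
    rw [h0, inner_zero_left, hunit 0] at h1
    norm_num at h1
  obtain ⟨a, ha0, X, cX, X0, Xz, P, Pl, Pu⟩ :=
    chart_lin (D.df 0).smooth (D.df 0).zero (D.df 0).grad
  obtain ⟨b, hb0, Y, cY, Y0, Yz, Q, Ql, Qu⟩ := chart_lin Fsc Fs0 Fsg
  -- the family
  obtain ⟨s, hs0, hs1⟩ : ∃ s : ℕ → ((ℝ ∙ a)ᗮ × (ℝ ∙ b)ᗮ) → E × E,
      (s 0 = fun z => (X z.1, Y z.2)) ∧
      ∀ k, s (k + 1) = fun z => ((s k z).1 + T k (s k z) • (s k z).2,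
        rf (ν (k + 1) ((s k z).1 + T k (s k z) • (s k z).2)) (s k z).2) :=
    ⟨fun k => Nat.rec (fun z => (X z.1, Y z.2)) (fun k s z => ((s z).1 + T k (s z) • (s z).2,
        rf (ν (k + 1) ((s z).1 + T k (s z) • (s z).2)) (s z).2)) k, rfl, fun k => rfl⟩
  have cs : ∀ k, ContDiffAt ℝ 2 (s k) 0 ∧ s k 0 = (p k, u k) := by
    intro k
    induction k with
    | zero =>
      rw [hs0]
      refine ⟨?_, by simp only [Prod.fst_zero, Prod.snd_zero, X0, Y0]⟩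
      exact (ContDiffAt.comp (g := X) (f := fun z : (ℝ ∙ a)ᗮ × (ℝ ∙ b)ᗮ => z.1) 0 cX
        contDiffAt_fst).prodMk (ContDiffAt.comp (g := Y)
          (f := fun z : (ℝ ∙ a)ᗮ × (ℝ ∙ b)ᗮ => z.2) 0 cY contDiffAt_snd)
    | succ k ih =>
      obtain ⟨ih1, ih2⟩ := ih
      have hc1 : ContDiffAt ℝ 2 (fun z => (s k z).1) 0 := ih1.fst
      have hc2 : ContDiffAt ℝ 2 (fun z => (s k z).2) 0 := ih1.snd
      have hcT : ContDiffAt ℝ 2 (fun z => T k (s k z)) 0 := by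
        refine ContDiffAt.comp (g := T k) (f := s k) 0 ?_ ih1
        rw [ih2]
        exact (hT1 k).of_le (by norm_num)
      have hcx : ContDiffAt ℝ 2 (fun z => (s k z).1 + T k (s k z) • (s k z).2) 0 :=
        hc1.add (hcT.smul hc2)
      have hx0 : (s k 0).1 + T k (s k 0) • (s k 0).2 = p (k + 1) := by
        rw [ih2, hT2, hpt]
      have hcn : ContDiffAt ℝ 2 (fun z => ν (k + 1) ((s k z).1 + T k (s k z) • (s k z).2)) 0 := by
        refine ContDiffAt.comp (g := ν (k + 1))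
          (f := fun z => (s k z).1 + T k (s k z) • (s k z).2) 0 ?_ hcx
        simp only [hx0]
        exact hν (k + 1)
      rw [hs1]
      refine ⟨hcx.prodMk (G4_rf_cd hcn hc2), ?_⟩
      simp only [hx0]
      rw [(hm (k + 1)).self_of_nhds.2.1, ih2, ← (hst k).1]
  have hLip := fun k => ((cs k).1.of_le (show (1 : WithTop ℕ∞) ≤ 2 by norm_num)).exists_lipschitzOnWith
  choose K tK htK hK using hLip
  have hall : ∀ᶠ z in 𝓝 0, (∀ k ∈ Set.Iic n, z ∈ tK k) ∧ ⟪Y z.2, Y z.2⟫_ℝ = 1 := by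
    refine Filter.Eventually.and ?_ ?_
    · rw [Filter.eventually_all_finite (Set.finite_Iic n)]
      intro k _
      exact show ∀ᶠ z in 𝓝 0, z ∈ tK k from htK k
    · have h1 := (continuous_snd.tendsto (0 : (ℝ ∙ a)ᗮ × (ℝ ∙ b)ᗮ)).eventually Yz
      filter_upwards [h1] with z hz
      rw [hFs] at hz
      exact sub_eq_zero.1 hz
  obtain ⟨U, hU, hUo, hU0⟩ := eventually_nhds_iff.1 hall
  refine ⟨a, b, U, X, Y, s, fun y => P (y - p 0), fun y => Q (y - u 0), ha0, hb0, hUo, hs0,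
    fun z hz => (hU z hz).2, ?_, ?_, Pl, Ql, ?_, ?_⟩
  · refine ⟨_, P.lipschitz.comp (LipschitzWith.id.sub (LipschitzWith.const (p 0)))⟩
  · refine ⟨_, Q.lipschitz.comp (LipschitzWith.id.sub (LipschitzWith.const (u 0)))⟩
  · intro m hm'
    exact ⟨K m, (hK m).mono fun z hz => (hU z hz).1 m hm'⟩
  -- nearby trajectories
  have T1 : ∀ k, Tendsto (fun w : (ℕ → E) × (ℕ → E) => w.1 k) (𝓝 (p, u)) (𝓝 (p k)) := by
    intro k
    have : Continuous (fun w : (ℕ → E) × (ℕ → E) => w.1 k) :=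
      (continuous_apply k).comp continuous_fst
    exact this.tendsto (p, u)
  have T2 : ∀ k, Tendsto (fun w : (ℕ → E) × (ℕ → E) => w.2 k) (𝓝 (p, u)) (𝓝 (u k)) := by
    intro k
    have : Continuous (fun w : (ℕ → E) × (ℕ → E) => w.2 k) :=
      (continuous_apply k).comp continuous_snd
    exact this.tendsto (p, u)
  have T3 : ∀ k, Tendsto (fun w : (ℕ → E) × (ℕ → E) => ((w.1 k, w.2 k), ‖w.1 (k + 1) - w.1 k‖))
      (𝓝 (p, u)) (𝓝 ((p k, u k), t k)) := by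
    intro k
    have h1 : Continuous (fun w : (ℕ → E) × (ℕ → E) =>
        ((w.1 k, w.2 k), ‖w.1 (k + 1) - w.1 k‖)) := by
      have c1 : ∀ k, Continuous (fun w : (ℕ → E) × (ℕ → E) => w.1 k) := fun k =>
        (continuous_apply k).comp continuous_fst
      have c2 : ∀ k, Continuous (fun w : (ℕ → E) × (ℕ → E) => w.2 k) := fun k =>
        (continuous_apply k).comp continuous_snd
      exact ((c1 k).prodMk (c2 k)).prodMk ((c1 (k + 1)).sub (c1 k)).norm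
    have h2 := h1.tendsto (p, u)
    have h3 : ‖p (k + 1) - p k‖ = t k := by
      have h4 : ‖u k‖ = 1 := by
        have h5 := hunit k
        rw [real_inner_self_eq_norm_sq] at h5
        nlinarith [norm_nonneg (u k)]
      rw [hpt k, add_sub_cancel_left, norm_smul, h4, mul_one, Real.norm_eq_abs,
        abs_of_pos (htp k)]
    simp only [h3] at h2
    exact h2
  obtain ⟨ζ, hζ⟩ : ∃ ζ : (ℕ → E) × (ℕ → E) → (ℝ ∙ a)ᗮ × (ℝ ∙ b)ᗮ, ζ = fun w =>
    (P (w.1 0 - p 0), Q (w.2 0 - u 0)) := ⟨_, rfl⟩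
  have Tζ : Tendsto ζ (𝓝 (p, u)) (𝓝 0) := by
    have h1 : Tendsto (fun w : (ℕ → E) × (ℕ → E) => P (w.1 0 - p 0)) (𝓝 (p, u)) (𝓝 0) := by
      have h2 := (P.continuous.tendsto (p 0 - p 0)).comp ((T1 0).sub_const (p 0))
      rwa [sub_self, map_zero] at h2
    have h2 : Tendsto (fun w : (ℕ → E) × (ℕ → E) => Q (w.2 0 - u 0)) (𝓝 (p, u)) (𝓝 0) := by
      have h2 := (Q.continuous.tendsto (u 0 - u 0)).comp ((T2 0).sub_const (u 0))
      rwa [sub_self, map_zero] at h2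
    rw [hζ]
    exact h1.prodMk_nhds h2
  have hev : ∀ᶠ w : (ℕ → E) × (ℕ → E) in 𝓝 (p, u), ∀ k ∈ Set.Iic n,
      (D.F (k + 1) (w.1 k + ‖w.1 (k + 1) - w.1 k‖ • w.2 k) = 0 →
        ‖w.1 (k + 1) - w.1 k‖ = T k (w.1 k, w.2 k)) ∧
      (∀ F' : E → ℝ, LocalDef Ω (w.1 k) F' → LocalDef Ω (w.1 k) (D.F k)) ∧
      ν k (w.1 k) = dir (gradient (D.F k) (w.1 k)) := by
    rw [Filter.eventually_all_finite (Set.finite_Iic n)]
    intro k _
    exact ((T3 k).eventually (hT4 k)).and (((T1 k).eventually (localDef_near (D.df k))).and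
      ((T1 k).eventually ((hm k).mono fun x hx => hx.2.1)))
  filter_upwards [hev, Tζ.eventually (hUo.mem_nhds hU0), (T1 0).eventually Pu,
    (T2 0).eventually Qu] with w hw wU wP wQ hor
  obtain ⟨D'⟩ := exists_mirrs hg hor
  have hunit' := unit_steps hor.step hor.unit
  have hdf : ∀ k ≤ n, LocalDef Ω (w.1 k) (D.F k) := fun k hk => (hw k hk).2.1 _ (D'.df k)
  have hs : ∀ k ≤ n, s k (ζ w) = (w.1 k, w.2 k) := by
    intro k
    induction k with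
    | zero =>
      intro _
      rw [hs0, hζ]
      simp only
      rw [← wP (hdf 0 (Nat.zero_le _)).zero, ← wQ (by rw [hFs]; simp only [hunit' 0, sub_self])]
    | succ k ih =>
      intro hk
      rw [hs1]
      simp only
      rw [ih (by omega)]
      simp only
      obtain ⟨e1, e2, τ, hτ, e3⟩ := step_refl' (hor.step k) (hdf (k + 1) hk)
      have e4 : ‖w.1 (k + 1) - w.1 k‖ = τ := by
        have h4 : ‖w.2 k‖ = 1 := by
          have h5 := hunit' k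
          rw [real_inner_self_eq_norm_sq] at h5
          nlinarith [norm_nonneg (w.2 k)]
        rw [e3, add_sub_cancel_left, norm_smul, h4, mul_one, Real.norm_eq_abs, abs_of_pos hτ]
      have e5 := (hw k (by simp only [Set.mem_Iic]; omega)).1 (by
        rw [e4, ← e3]; exact (hdf (k + 1) hk).zero)
      rw [e4] at e5
      rw [← e5, ← e3, (hw (k + 1) hk).2.2, ← e1]
  exact ⟨ζ w, wU, hs⟩

end Pool.Agent.TH746.AL
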