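import Pool.Agent.TH746.AL.Traj

/-!
The exceptional pairs (point, direction) have Hausdorff dimension at most `2 d - 3`.
-/

set_option autoImplicit false

open MeasureTheory Filter Topology
open scoped NNReal ENNReal

namespace Pool.Agent.TH746.AL

open MvPolynomial Set H450Al

section rank
variable {k : Type*} [Field k] [Algebra k ℝ] {m : ℕ}

theorem rk_tower_le (k : Type*) [Field k] [Algebra k ℝ] (X S : Set ℝ) :
    rk k (X ∪ S) ≤ rk k X + rk (IntermediateField.adjoin k X) S := by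
  obtain ⟨J, hJ⟩ := (AlgebraicIndependent.matroid (IntermediateField.adjoin k X) ℝ).exists_isBasis S
  have h1 : rk (IntermediateField.adjoin k X) S = J.encard := by
    unfold rk
    exact hJ.eRk_eq_encard
  have h2 : S ⊆ cl (IntermediateField.adjoin k X) J := by
    unfold cl
    rw [hJ.closure_eq_closure]
    exact subset_cl (IntermediateField.adjoin k X) S
  have h3 : X ∪ S ⊆ cl k (X ∪ J) := by
    refine union_subset (subset_union_left.trans (subset_cl k _)) ?_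
    rw [cl_union]
    exact h2
  rw [h1]
  refine (rk_mono k h3).trans ((rk_union k X J).trans ?_)
  gcongr
  exact rk_le_encard k J

/-- all the coordinates of the point and the coordinates in `J` of the direction -/
def Jp (J : Set (Fin (m + 2))) : Set (Fin (m + 2) ⊕ Fin (m + 2)) :=
  {i | ∀ l, i = Sum.inr l → l ∈ J}

theorem indep_of_rk (x : Fin (m + 2) → ℝ) (h : ((m + 2 : ℕ) : ℕ∞) ≤ rk k (range x)) :
    AlgebraicIndependent k x := by
  rw [algebraicIndependent_iff]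
  intro P hP
  by_contra hP0
  have h1 := h.trans (rk_lt_of_relation k x P hP0 hP)
  have := Nat.cast_le.1 h1
  omega

theorem exists_zset (x v : Fin (m + 2) → ℝ) (hv : ∑ j, v j ^ 2 = 1)
    (hbig : ¬ rk k (range x ∪ range v) ≤ ((2 * m + 1 : ℕ) : ℕ∞))
    (hlow : rk k (range x) ≤ (m : ℕ∞) ∨
      rk (IntermediateField.adjoin k (range x)) (range v) ≤ (m : ℕ∞)) :
    ∃ (J : Set (Fin (m + 2))) (G : Fin (m + 2) ⊕ Fin (m + 2) →
        MvPolynomial (Fin (m + 2) ⊕ Fin (m + 2)) k), J.encard ≤ (m : ℕ∞) ∧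
      (∀ i, i ∉ Jp J → ∀ l, l ∉ Jp J → l ≠ i → pderiv l (G i) = 0) ∧
      Sum.elim x v ∈ Zset (Jp J) G := by
  classical
  have hrv : rk k (range v) ≤ ((m + 1 : ℕ) : ℕ∞) := by
    refine rk_lt_of_relation k v (∑ i, X i ^ 2 - 1) ?_ ?_
    · intro h
      have := congrArg (aeval (fun _ => (0 : ℝ))) h
      simp at this
    · simp [hv]
  have h1 : ¬ rk k (range x) ≤ (m : ℕ∞) := by
    intro h
    apply hbig
    refine (rk_union k _ _).trans ((add_le_add h hrv).trans ?_)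
    norm_cast
    omega
  have h2 := hlow.resolve_left h1
  have h3 : ((m + 2 : ℕ) : ℕ∞) ≤ rk k (range x) := by
    by_contra hcon
    rw [not_le] at hcon
    have h4 : rk k (range x) ≤ ((m + 1 : ℕ) : ℕ∞) := by
      have : ((m + 2 : ℕ) : ℕ∞) = ((m + 1 : ℕ) : ℕ∞) + 1 := by norm_cast
      rw [this] at hcon
      exact Order.le_of_lt_add_one hcon
    apply hbig
    refine (rk_tower_le k _ _).trans ((add_le_add h4 h2).trans ?_)
    norm_cast
    omega
  have hxi := indep_of_rk x h3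
  obtain ⟨J, hJ, hJc, hJr⟩ := exists_basis_index (IntermediateField.adjoin k (range x)) v
  have hJ' : AlgebraicIndependent (Algebra.adjoin k (range x)) (fun j : J => v j) :=
    IntermediateField.algebraicIndependent_adjoin_iff.1 hJ
  have hsum := hxi.sumElim hJ'
  have hind : AlgebraicIndependent k (fun j : Jp J => Sum.elim x v (j : Fin (m + 2) ⊕ Fin (m + 2))) := by
    let f : Jp J → J ⊕ Fin (m + 2) := fun j => match j with
      | ⟨Sum.inl i, _⟩ => Sum.inr i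
      | ⟨Sum.inr l, h⟩ => Sum.inl ⟨l, h l rfl⟩
    have hf : Function.Injective f := by
      rintro ⟨a | a, ha⟩ ⟨b | b, hb⟩ hab
      · have : a = b := Sum.inr.inj hab
        subst this; rfl
      · cases hab
      · cases hab
      · have : a = b := congrArg Subtype.val (Sum.inl.inj hab)
        subst this; rfl
    have h5 := hsum.comp f hf
    have h6 : (Sum.elim (fun j : J => v j) x) ∘ f =
        fun j : Jp J => Sum.elim x v (j : Fin (m + 2) ⊕ Fin (m + 2)) := by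
      funext j
      rcases j with ⟨a | a, ha⟩
      · rfl
      · rfl
    rw [h6] at h5
    exact h5
  have hex : ∀ i, ∃ G : MvPolynomial (Fin (m + 2) ⊕ Fin (m + 2)) k, i ∉ Jp J →
      (aeval (Sum.elim x v) G = 0 ∧ aeval (Sum.elim x v) (pderiv i G) ≠ 0 ∧
        ∀ l, l ∉ Jp J → l ≠ i → pderiv l G = 0) := by
    intro i
    by_cases hi : i ∈ Jp J
    · exact ⟨0, fun h => absurd hi h⟩
    · have hi' : ∃ l, i = Sum.inr l := by
        by_contra hcon
        push Not at hcon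
        exact hi fun l hl => absurd hl (hcon l)
      obtain ⟨l, rfl⟩ := hi'
      have hcl : Sum.elim x v (Sum.inr l) ∈ cl k (Sum.elim x v '' Jp J) := by
        have h7 := hJc l
        rw [← cl_union] at h7
        refine cl_mono k ?_ h7
        rintro _ (⟨a, rfl⟩ | ⟨a, ha, rfl⟩)
        · exact ⟨Sum.inl a, fun l hl => absurd hl (by simp), rfl⟩
        · refine ⟨Sum.inr a, fun l hl => ?_, rfl⟩
          have : a = l := Sum.inr.inj hl
          rw [← this]; exact ha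
      obtain ⟨G, hG⟩ := exists_eq_of_mem_cl (Sum.elim x v) (Jp J) hind (Sum.inr l) hi hcl
      exact ⟨G, fun _ => hG⟩
  choose G hG using hex
  refine ⟨J, G, ?_, fun i hi => (hG i hi).2.2, fun i hi => ⟨(hG i hi).1, (hG i hi).2.1⟩⟩
  rw [← hJr]
  exact h2

end rank

section piece
variable {k : Type*} [Field k] [Algebra k ℝ] {m : ℕ}
variable {V W : Type*} [NormedAddCommGroup V] [NormedSpace ℝ V] [FiniteDimensional ℝ V]
  [NormedAddCommGroup W] [NormedSpace ℝ W] [FiniteDimensional ℝ W]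

theorem dim_piece (hV : Module.finrank ℝ V = m + 1)
    (U : Set (V × W)) (hU : IsOpen U) (X : V → EuclideanSpace ℝ (Fin (m + 2)))
    (Y : W → EuclideanSpace ℝ (Fin (m + 2)))
    (hc : ∃ K, LipschitzOnWith K (fun z : V × W => (X z.1, Y z.2)) U)
    (P : EuclideanSpace ℝ (Fin (m + 2)) → V) (hP : ∃ K, LipschitzWith K P)
    (Q : EuclideanSpace ℝ (Fin (m + 2)) → W) (hQ : ∃ K, LipschitzWith K Q)
    (hPX : ∀ z, P (X z) = z) (hQY : ∀ z, Q (Y z) = z)
    (J : Set (Fin (m + 2))) (hJ : J.encard ≤ (m : ℕ∞))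
    (G : Fin (m + 2) ⊕ Fin (m + 2) → MvPolynomial (Fin (m + 2) ⊕ Fin (m + 2)) k)
    (hG : ∀ i, i ∉ Jp J → ∀ l, l ∉ Jp J → l ≠ i → pderiv l (G i) = 0) :
    dimH {z : V × W | z ∈ U ∧ Sum.elim (X z.1).ofLp (Y z.2).ofLp ∈ Zset (Jp J) G} ≤
      ((2 * m + 1 : ℕ) : ℝ≥0∞) := by
  classical
  obtain ⟨K0, hK0⟩ := hc
  obtain ⟨Kp, hKp⟩ := hP
  obtain ⟨Kq, hKq⟩ := hQ
  by_contra hcon
  rw [not_le] at hcon
  obtain ⟨z0, ⟨hz0U, hz0⟩, hxx⟩ := exists_mem_nhdsWithin_lt_dimH_of_lt_dimH hcon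
  obtain ⟨C, hC, O, hO, hOC⟩ := antilip_local (Jp J) G hG _ hz0
  obtain ⟨e, he⟩ : ∃ e : V × W → (Fin (m + 2) ⊕ Fin (m + 2) → ℝ),
    e = fun z : V × W => Sum.elim (X z.1).ofLp (Y z.2).ofLp := ⟨_, rfl⟩
  have hcof : Continuous (fun y : EuclideanSpace ℝ (Fin (m + 2)) => y.ofLp) :=
    (EuclideanSpace.equiv (Fin (m + 2)) ℝ).continuous
  have hcX : ContinuousOn (fun z : V × W => (X z.1).ofLp) U :=
    hcof.comp_continuousOn hK0.continuousOn.fst
  have hcY : ContinuousOn (fun z : V × W => (Y z.2).ofLp) U :=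
    hcof.comp_continuousOn hK0.continuousOn.snd
  have hce : ContinuousAt e z0 := by
    rw [he, continuousAt_pi]
    rintro (i | i)
    · exact (continuous_apply i).continuousAt.comp (hcX.continuousAt (hU.mem_nhds hz0U))
    · exact (continuous_apply i).continuousAt.comp (hcY.continuousAt (hU.mem_nhds hz0U))
  have hez : e z0 = Sum.elim (X z0.1).ofLp (Y z0.2).ofLp := by rw [he]
  have hO' : O ∈ 𝓝 (e z0) := by rw [hez]; exact hO
  obtain ⟨r, hr, hball⟩ := Metric.isOpen_iff.1 hU z0 hz0U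
  -- the piece
  obtain ⟨T, hT⟩ : ∃ T : Set (V × W), T = {z | z ∈ Metric.ball z0 r ∧ e z ∈ O ∧
    e z ∈ Zset (Jp J) G} := ⟨_, rfl⟩
  have h1 : ((2 * m + 1 : ℕ) : ℝ≥0∞) < dimH T := by
    apply hxx
    have h2 : Metric.ball z0 r ∩ e ⁻¹' O ∈ 𝓝 z0 :=
      Filter.inter_mem (Metric.ball_mem_nhds z0 hr) (hce hO')
    refine mem_nhdsWithin_iff_eventually.2 ?_
    filter_upwards [h2] with z hz hzZ
    rw [hT]
    exact ⟨hz.1, hz.2, by rw [he]; exact hzZ.2⟩
  -- constants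
  obtain ⟨Ke, hKe⟩ : ∃ Ke : ℝ, 0 ≤ Ke ∧ ∀ a b : EuclideanSpace ℝ (Fin (m + 2)),
      dist a b ≤ Ke * dist a.ofLp b.ofLp := by
    have h := (EuclideanSpace.equiv (Fin (m + 2)) ℝ).antilipschitz
    exact ⟨_, NNReal.coe_nonneg _, fun a b => h.le_mul_dist a b⟩
  obtain ⟨Kf, hKf⟩ : ∃ Kf : ℝ, 0 ≤ Kf ∧ ∀ a b : EuclideanSpace ℝ (Fin (m + 2)),
      dist a.ofLp b.ofLp ≤ Kf * dist a b := by
    have h := (EuclideanSpace.equiv (Fin (m + 2)) ℝ).lipschitz
    exact ⟨_, NNReal.coe_nonneg _, fun a b => h.dist_le_mul a b⟩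
  obtain ⟨f, hf⟩ : ∃ f : T → V × (J → ℝ),
    f = fun z : T => (z.1.1, fun j : J => (Y z.1.2).ofLp j) := ⟨_, rfl⟩
  have hmain : ∀ z z' : T, dist z z' ≤
      (Ke * (Kp + Kq) * (C * (Kf * K0 + 1))) * dist (f z) (f z') := by
    rintro ⟨z, hz⟩ ⟨z', hz'⟩
    have hzT := hz
    have hzT' := hz'
    rw [hT] at hzT hzT'
    obtain ⟨b1, o1, q1⟩ := hzT
    obtain ⟨b2, o2, q2⟩ := hzT'
    have hX1 : dist (X z.1) (X z'.1) ≤ K0 * dist z.1 z'.1 := by
      have m1 : (z.1, z'.2) ∈ U := hball (by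
        rw [Metric.mem_ball, Prod.dist_eq] at b1 b2 ⊢
        exact max_lt (lt_of_le_of_lt (le_max_left _ _) b1) (lt_of_le_of_lt (le_max_right _ _) b2))
      have m2 : z' ∈ U := hball b2
      have h2 := hK0.dist_le_mul _ m1 _ m2
      refine (le_max_left _ _).trans (h2.trans (le_of_eq ?_))
      rw [Prod.dist_eq]
      simp
    have h3 : dist (⟨z, hz⟩ : T) ⟨z', hz'⟩ ≤ Ke * (Kp + Kq) * ‖e z - e z'‖ := by
      rw [Subtype.dist_eq, Prod.dist_eq]
      have g1 : dist (X z.1).ofLp (X z'.1).ofLp ≤ ‖e z - e z'‖ := by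
        rw [dist_pi_le_iff (norm_nonneg _)]
        intro i
        have := norm_le_pi_norm (e z - e z') (Sum.inl i)
        rw [he] at this ⊢
        exact this
      have g2 : dist (Y z.2).ofLp (Y z'.2).ofLp ≤ ‖e z - e z'‖ := by
        rw [dist_pi_le_iff (norm_nonneg _)]
        intro i
        have := norm_le_pi_norm (e z - e z') (Sum.inr i)
        rw [he] at this ⊢
        exact this
      have g3 : dist z.1 z'.1 ≤ Kp * (Ke * ‖e z - e z'‖) := by
        have := hKp.dist_le_mul (X z.1) (X z'.1)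
        rw [hPX, hPX] at this
        refine this.trans (mul_le_mul_of_nonneg_left ?_ (NNReal.coe_nonneg _))
        exact (hKe.2 _ _).trans (mul_le_mul_of_nonneg_left g1 hKe.1)
      have g4 : dist z.2 z'.2 ≤ Kq * (Ke * ‖e z - e z'‖) := by
        have := hKq.dist_le_mul (Y z.2) (Y z'.2)
        rw [hQY, hQY] at this
        refine this.trans (mul_le_mul_of_nonneg_left ?_ (NNReal.coe_nonneg _))
        exact (hKe.2 _ _).trans (mul_le_mul_of_nonneg_left g2 hKe.1)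
      have p1 : 0 ≤ Ke * ‖e z - e z'‖ := mul_nonneg hKe.1 (norm_nonneg _)
      have p2 : 0 ≤ (Kp : ℝ) * (Ke * ‖e z - e z'‖) := mul_nonneg (NNReal.coe_nonneg _) p1
      have p3 : 0 ≤ (Kq : ℝ) * (Ke * ‖e z - e z'‖) := mul_nonneg (NNReal.coe_nonneg _) p1
      refine max_le ?_ ?_
      · nlinarith
      · nlinarith
    have h4 : ‖e z - e z'‖ ≤ C * ‖projJ (Jp J) (e z) - projJ (Jp J) (e z')‖ :=
      hOC (e z) ⟨o1, q1⟩ (e z') ⟨o2, q2⟩
    have h5 : ‖projJ (Jp J) (e z) - projJ (Jp J) (e z')‖ ≤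
        (Kf * K0 + 1) * dist (f ⟨z, hz⟩) (f ⟨z', hz'⟩) := by
      have p0 : 0 ≤ Kf * K0 := mul_nonneg hKf.1 (NNReal.coe_nonneg _)
      have pd : 0 ≤ dist (f ⟨z, hz⟩) (f ⟨z', hz'⟩) := dist_nonneg
      rw [pi_norm_le_iff_of_nonneg (by positivity)]
      rintro ⟨i | l, hi⟩
      · have a1 : ‖(projJ (Jp J) (e z) - projJ (Jp J) (e z')) ⟨Sum.inl i, hi⟩‖ ≤
            dist (X z.1).ofLp (X z'.1).ofLp := by
          have := dist_le_pi_dist (X z.1).ofLp (X z'.1).ofLp i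
          rw [he]
          exact this
        have a2 : dist z.1 z'.1 ≤ dist (f ⟨z, hz⟩) (f ⟨z', hz'⟩) := by
          rw [hf, Prod.dist_eq]
          exact le_max_left _ _
        have a3 : dist (X z.1).ofLp (X z'.1).ofLp ≤ Kf * (K0 * dist z.1 z'.1) :=
          (hKf.2 _ _).trans (mul_le_mul_of_nonneg_left hX1 hKf.1)
        have a4 : Kf * (K0 * dist z.1 z'.1) ≤ Kf * (K0 * dist (f ⟨z, hz⟩) (f ⟨z', hz'⟩)) :=
          mul_le_mul_of_nonneg_left (mul_le_mul_of_nonneg_left a2 (NNReal.coe_nonneg _)) hKf.1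
        linarith
      · have hl : l ∈ J := hi l rfl
        have a1 : ‖(projJ (Jp J) (e z) - projJ (Jp J) (e z')) ⟨Sum.inr l, hi⟩‖ ≤
            dist (f ⟨z, hz⟩).2 (f ⟨z', hz'⟩).2 := by
          have := dist_le_pi_dist (f ⟨z, hz⟩).2 (f ⟨z', hz'⟩).2 ⟨l, hl⟩
          rw [he]
          rw [hf] at this ⊢
          exact this
        have a2 : dist (f ⟨z, hz⟩).2 (f ⟨z', hz'⟩).2 ≤ dist (f ⟨z, hz⟩) (f ⟨z', hz'⟩) := by
          rw [Prod.dist_eq]
          exact le_max_right _ _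
        have a5 : 0 ≤ Kf * K0 * dist (f ⟨z, hz⟩) (f ⟨z', hz'⟩) := mul_nonneg p0 pd
        linarith
    have p6 : 0 ≤ Ke * ((Kp : ℝ) + Kq) :=
      mul_nonneg hKe.1 (add_nonneg (NNReal.coe_nonneg _) (NNReal.coe_nonneg _))
    calc dist (⟨z, hz⟩ : T) ⟨z', hz'⟩ ≤ Ke * (Kp + Kq) * ‖e z - e z'‖ := h3
      _ ≤ Ke * (Kp + Kq) * (C * ((Kf * K0 + 1) * dist (f ⟨z, hz⟩) (f ⟨z', hz'⟩))) :=
          mul_le_mul_of_nonneg_left (h4.trans (mul_le_mul_of_nonneg_left h5 hC)) p6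
      _ = _ := by ring
  have hM0 : 0 ≤ Ke * (Kp + Kq) * (C * (Kf * K0 + 1)) := by
    have p0 : 0 ≤ Kf * K0 := mul_nonneg hKf.1 (NNReal.coe_nonneg _)
    exact mul_nonneg (mul_nonneg hKe.1 (add_nonneg (NNReal.coe_nonneg _) (NNReal.coe_nonneg _)))
      (mul_nonneg hC (by linarith))
  have hanti : AntilipschitzWith ⟨_, hM0⟩ f := AntilipschitzWith.of_le_mul_dist hmain
  have h2 := hanti.le_dimH_image univ
  have h3 : dimH (f '' univ) ≤ dimH (univ : Set (V × (J → ℝ))) := dimH_mono (subset_univ _)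
  rw [Real.dimH_univ_eq_finrank] at h3
  have h4 : dimH T = dimH (univ : Set T) := by
    have h5 : Isometry ((↑) : T → V × W) := isometry_subtype_coe
    have := h5.dimH_image (univ : Set T)
    rw [image_univ, Subtype.range_coe] at this
    exact this
  have h6 : Module.finrank ℝ (V × (J → ℝ)) ≤ 2 * m + 1 := by
    rw [Module.finrank_prod, hV, Module.finrank_pi]
    have h7 : (Fintype.card J : ℕ∞) ≤ m := by
      rw [← Set.toFinset_card, ← Set.encard_eq_coe_toFinset_card]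
      exact hJ
    have := Nat.cast_le.1 h7
    omega
  rw [h4] at h1
  have h8 : (Module.finrank ℝ (V × (J → ℝ)) : ℝ≥0∞) ≤ ((2 * m + 1 : ℕ) : ℝ≥0∞) := by
    exact_mod_cast h6
  exact absurd (h1.trans_le (h2.trans (h3.trans h8))) (lt_irrefl _)

end piece

end Pool.Agent.TH746.AL
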