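import Pool.Agent.TH746.AL.Traj

/-!
Rays of invisibility with at most one reflection at a point which is not a noncircular algebraic
boundary point of the body.
-/

set_option autoImplicit false

open MeasureTheory Set Filter Topology
open scoped InnerProductSpace
open Pool.Agent.H721R2.Quart Pool.Agent.H721R2.Ivrii

namespace Pool.Agent.TH746.AL

open Pool.Agent.TH746 Pool.Agent.TH746.UM

section D
variable {E : Type*} [NormedAddCommGroup E] [InnerProductSpace ℝ E] [CompleteSpace E]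

/-- The direction `v` meets the boundary of `Ω` transversally at the regular point `q` and is
reflected there into `v'`. -/
def Mirror (Ω : Set E) (q v v' : E) : Prop :=
  ∃ F : E → ℝ, LocalDef Ω q F ∧ ⟪v, gradient F q⟫_ℝ ≠ 0 ∧
    v' = v - (2 * ⟪v, gradient F q⟫_ℝ / ‖gradient F q‖ ^ 2) • gradient F q

/-- The oriented line through `y` with direction `v` (`|v| = 1`, `y` orthogonal to `v`) is a ray of
invisibility of the body `B` with the `n` reflection points `A 0, ..., A (n - 1)`, the direction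
after the reflection at `A i` being `u i`. -/
structure InvRay (B : Set E) (n : ℕ) (y v : E) (A u : ℕ → E) : Prop where
  pos : 1 ≤ n
  perp : ⟪y, v⟫_ℝ = 0
  unit : ‖v‖ = 1
  first : ∃ s : ℝ, A 0 = y + s • v ∧ ∀ r < s, y + r • v ∉ B
  mirror : Mirror Bᶜ (A 0) v (u 0)
  step : ∀ i, i + 1 < n → Step Bᶜ (A i) (u i) (A (i + 1)) (u (i + 1))
  out : u (n - 1) = v
  last : ∃ s : ℝ, A (n - 1) = y + s • v ∧ ∀ r > s, y + r • v ∉ B

theorem Mirror.ne {Ω : Set E} {q v v' : E} (h : Mirror Ω q v v') : v' ≠ v := by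
  obtain ⟨F, hF, h1, h2⟩ := h
  intro h3
  rw [h2] at h3
  have h4 : (2 * ⟪v, gradient F q⟫_ℝ / ‖gradient F q‖ ^ 2) • gradient F q = 0 := by
    have := sub_eq_self.1 h3
    exact this
  rcases smul_eq_zero.1 h4 with h5 | h5
  · have h6 : ‖gradient F q‖ ^ 2 ≠ 0 := pow_ne_zero 2 (norm_ne_zero_iff.2 hF.grad)
    rcases div_eq_zero_iff.1 h5 with h7 | h7
    · exact h1 (by linarith)
    · exact h6 h7
  · exact hF.grad h5

theorem Mirror.unit {Ω : Set E} {q v v' : E} (h : Mirror Ω q v v') (hv : ⟪v, v⟫_ℝ = 1) :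
    ⟪v', v'⟫_ℝ = 1 := by
  obtain ⟨F, hF, h1, h2⟩ := h
  rw [h2, ← rf_dir, G3_rf_inner (dir_unit hF.grad), hv]

theorem Mirror.refl {Ω : Set E} {q v v' : E} (h : Mirror Ω q v v') {F : E → ℝ}
    (hF : LocalDef Ω q F) : v' = rf (dir (gradient F q)) v := by
  obtain ⟨F', hF', h1, h2⟩ := h
  obtain ⟨l, hl, hl2⟩ := grad_parallel hF' hF
  rw [hl2, rf_dir_smul _ hl, rf_dir]
  exact h2

theorem step_mirror {Ω : Set E} {q v q' v' : E} (h : Step Ω q v q' v') : Mirror Ω q' v v' := by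
  obtain ⟨t, ht, hq, -, F', hF', h1, h2⟩ := h
  exact ⟨F', hF', h1, h2⟩

theorem unit_inner_lt {u v : E} (hu : ⟪u, u⟫_ℝ = 1) (hv : ⟪v, v⟫_ℝ = 1) :
    ⟪u, v⟫_ℝ ≤ 1 ∧ (u ≠ v → ⟪u, v⟫_ℝ < 1) := by
  have h1 : ⟪u - v, u - v⟫_ℝ = 2 - 2 * ⟪u, v⟫_ℝ := by
    rw [inner_sub_left, inner_sub_right, inner_sub_right, hu, hv, real_inner_comm u v]
    ring
  constructor
  · have h2 : 0 ≤ ⟪u - v, u - v⟫_ℝ := real_inner_self_nonneg
    linarith
  · intro hne
    have h2 : 0 < ⟪u - v, u - v⟫_ℝ := real_inner_self_pos.2 (sub_ne_zero.2 hne)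
    linarith

end D

section C
open H450Al H450Sp MvPolynomial
variable {m : ℕ}

/-- closed chains of mirrors, all of them noncircular algebraic but one -/
theorem cyc_low {Ω : Set (EE m)} (k : Subfield ℝ) [Countable k]
    (h3 : ∀ q, AlgAt Ω q → ∃ (B : Set (EE m)) (P : MvPolynomial (Fin (m + 2)) k), IsOpen B ∧
      q ∈ B ∧ ¬ Dq k (m + 2) ∣ lead P ∧ ∀ y ∈ B, y ∈ frontier Ω → aeval y.ofLp P = 0)
    {n : ℕ} (hn : 1 ≤ n) (A u : ℕ → EE m) (F : ℕ → EE m → ℝ) (T : ℕ → ℝ)
    (hF : ∀ i < n, LocalDef Ω (A i) (F i)) (hunit : ∀ i < n, ⟪u i, u i⟫_ℝ = 1)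
    (hstep : ∀ i, i + 1 < n → A (i + 1) = A i + T i • u i ∧
      u (i + 1) = rf (dir (gradient (F (i + 1)) (A (i + 1)))) (u i))
    (hclose : A 0 = A (n - 1) + T (n - 1) • u (n - 1) ∧
      u 0 = rf (dir (gradient (F 0) (A 0))) (u (n - 1)))
    (hsum : ∑ i ∈ Finset.range n, T i ≠ 0) {j : ℕ} (hj : j < n)
    (ha : ∀ i < n, i ≠ j → AlgAt Ω (A i)) :
    rk k (range (A j).ofLp) ≤ (m : ℕ∞) ∨
      rk (IntermediateField.adjoin k (range (A j).ofLp)) (range (u j).ofLp) ≤ (m : ℕ∞) := by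
  classical
  by_cases hx : rk k (range (A j).ofLp) ≤ (m : ℕ∞)
  · exact Or.inl hx
  right
  have hx' : ((m + 1 : ℕ) : ℕ∞) ≤ rk k (range (A j).ofLp) := by
    rw [not_le] at hx
    push_cast
    exact Order.add_one_le_of_lt hx
  obtain ⟨c, hc⟩ : ∃ c : ℕ → ℕ, c = fun i => (i + j) % n := ⟨_, rfl⟩
  have hcn : ∀ i, c i < n := fun i => by rw [hc]; exact Nat.mod_lt _ (by omega)
  have c0 : c 0 = j := by rw [hc]; simp only [zero_add]; exact Nat.mod_eq_of_lt hj
  have cn : c n = j := by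
    rw [hc]
    simp only [Nat.add_mod_left]
    exact Nat.mod_eq_of_lt hj
  have cs : ∀ i, c (i + 1) = if c i + 1 = n then 0 else c i + 1 := by
    intro i
    have h1 : c (i + 1) = (c i + 1) % n := by
      rw [hc]
      simp only
      rw [Nat.mod_add_mod]
      congr 1
      omega
    rw [h1]
    split_ifs with h2
    · rw [h2, Nat.mod_self]
    · exact Nat.mod_eq_of_lt (by have := hcn i; omega)
  have cne : ∀ i, 1 ≤ i → i < n → c i ≠ j := by
    intro i h1 h2
    rw [hc]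
    simp only
    by_cases h3 : i + j < n
    · rw [Nat.mod_eq_of_lt h3]; omega
    · have h4 : (i + j) % n = i + j - n := by
        rw [Nat.mod_eq_sub_mod (by omega)]
        exact Nat.mod_eq_of_lt (by omega)
      rw [h4]; omega
  have key : ∀ i, A (c (i + 1)) = A (c i) + T (c i) • u (c i) ∧
      u (c (i + 1)) = rf (dir (gradient (F (c (i + 1))) (A (c (i + 1))))) (u (c i)) := by
    intro i
    rw [cs]
    by_cases h1 : c i + 1 = n
    · rw [if_pos h1]
      have h2 : c i = n - 1 := by omega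
      rw [h2]
      exact hclose
    · rw [if_neg h1]
      exact hstep (c i) (by have := hcn i; omega)
  have hsumc : ∑ i ∈ Finset.range n, T (c i) = ∑ i ∈ Finset.range n, T i := by
    have h1 : ∀ l : ℕ, ∑ i ∈ Finset.range n, T ((i + l) % n) = ∑ i ∈ Finset.range n, T i := by
      intro l
      induction l with
      | zero =>
        apply Finset.sum_congr rfl
        intro i hi
        rw [add_zero, Nat.mod_eq_of_lt (Finset.mem_range.1 hi)]
      | succ l ih =>
        rw [← ih]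
        have e1 := Finset.sum_range_succ' (fun i => T ((i + l) % n)) n
        have e2 := Finset.sum_range_succ (fun i => T ((i + l) % n)) n
        have e3 : T ((n + l) % n) = T ((0 + l) % n) := by
          rw [Nat.add_mod_left, zero_add]
        have e4 : ∑ i ∈ Finset.range n, T ((i + (l + 1)) % n) =
            ∑ i ∈ Finset.range n, T ((i + 1 + l) % n) := by
          apply Finset.sum_congr rfl
          intro i _
          congr 2
          omega
        rw [e4]
        linarith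
    rw [hc]
    exact h1 j
  have hbox : ∀ i, ∃ (B : Set (EE m)) (P : MvPolynomial (Fin (m + 2)) k), 1 ≤ i → i < n →
      IsOpen B ∧ A (c i) ∈ B ∧ ¬ Dq k (m + 2) ∣ lead P ∧
        ∀ y ∈ B, F (c i) y = 0 → aeval y.ofLp P = 0 := by
    intro i
    by_cases hi : 1 ≤ i ∧ i < n
    · obtain ⟨B, P, hB, hpB, hl, hv⟩ := h3 (A (c i)) (ha (c i) (hcn i) (cne i hi.1 hi.2))
      obtain ⟨O, hO, hOo, hpO⟩ := eventually_nhds_iff.1 (localDef_of_zero (hF (c i) (hcn i)))
      exact ⟨B ∩ O, P, fun _ _ => ⟨hB.inter hOo, ⟨hpB, hpO⟩, hl, fun y hy hFy =>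
        hv y hy.1 (ldef_frontier (hO y hy.2 hFy))⟩⟩
    · exact ⟨∅, 0, fun a b => absurd ⟨a, b⟩ hi⟩
  choose B P hBP using hbox
  have hmain := loop_rank (k := k) (m := m) (n := n) hn P (fun i => (A (c i)).ofLp)
    (fun i => (u (c i)).ofLp) (fun i => (gradient (F (c i)) (A (c i))).ofLp) (fun i => T (c i))
    ?_ ?_ ?_ ?_ ?_ ?_ ?_ ?_ ?_ ?_
  · have hmain' : rk (IntermediateField.adjoin k (range (A (c 0)).ofLp))
        (range (u (c 0)).ofLp) ≤ (m : ℕ∞) := hmain
    rw [c0] at hmain'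
    exact hmain'
  · intro l
    simp only [cn, c0]
    exact IntermediateField.subset_adjoin k _ (mem_range_self l)
  · rw [← hunit (c 0) (hcn 0), real_inner_self_eq_norm_sq, EuclideanSpace.norm_sq_eq]
    apply Finset.sum_congr rfl
    intro j _
    rw [Real.norm_eq_abs, sq_abs]
  · intro i hi1 hi
    exact (hBP i hi1 hi).2.2.2 (A (c i)) (hBP i hi1 hi).2.1 (hF (c i) (hcn i)).zero
  · intro i hi1 hi
    exact (hBP i hi1 hi).2.2.1
  · intro i hi1 hi h0
    apply (hF (c i) (hcn i)).grad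
    have : gradient (F (c i)) (A (c i)) = WithLp.toLp 2 (gradient (F (c i)) (A (c i))).ofLp := rfl
    rw [this, h0]
    rfl
  · intro i hi1 hi Φ _ hev
    exact par_normal (F (c i)) (B i) (hBP i hi1 hi).1 (P i) Φ (hBP i hi1 hi).2.2.2 (A (c i))
      (hBP i hi1 hi).2.1 (hF (c i) (hcn i)).zero ((hF (c i) (hcn i)).smooth.of_le (by norm_num))
      (hF (c i) (hcn i)).grad hev
  · intro i _
    simp only
    rw [(key i).1]
    funext j
    rfl
  · intro i _
    simp only
    rw [(key i).2, rf_dir]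
    funext j
    have e1 : ⟪u (c i), gradient (F (c (i + 1))) (A (c (i + 1)))⟫_ℝ =
        ∑ j, (u (c i)).ofLp j * (gradient (F (c (i + 1))) (A (c (i + 1)))).ofLp j := by
      rw [inner_dot]; rfl
    have e2 : ‖gradient (F (c (i + 1))) (A (c (i + 1)))‖ ^ 2 =
        ∑ j, (gradient (F (c (i + 1))) (A (c (i + 1)))).ofLp j ^ 2 := by
      rw [EuclideanSpace.norm_sq_eq]
      apply Finset.sum_congr rfl
      intro j _
      rw [Real.norm_eq_abs, sq_abs]
    unfold H450Al.refl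
    rw [← e1, ← e2]
    rfl
  · rw [hsumc]; exact hsum
  · simp only [c0]
    exact hx'

/-- the exceptional reflection of a ray of invisibility -/
theorem inv_low {B : Set (EE m)} (k : Subfield ℝ) [Countable k]
    (h3 : ∀ q, AlgAt Bᶜ q → ∃ (O : Set (EE m)) (P : MvPolynomial (Fin (m + 2)) k), IsOpen O ∧
      q ∈ O ∧ ¬ Dq k (m + 2) ∣ lead P ∧ ∀ y ∈ O, y ∈ frontier Bᶜ → aeval y.ofLp P = 0)
    {n : ℕ} {y v : EE m} {A u : ℕ → EE m} (h : InvRay B n y v A u) {j : ℕ} (hj : j < n)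
    (ha : ∀ i < n, i ≠ j → AlgAt Bᶜ (A i)) :
    Traj Bᶜ (n - 1 - j) (fun i => A (i + j)) (fun i => u (i + j)) ∧
    (rk k (range (A j).ofLp) ≤ (m : ℕ∞) ∨
      rk (IntermediateField.adjoin k (range (A j).ofLp)) (range (u j).ofLp) ≤ (m : ℕ∞)) := by
  obtain ⟨N, rfl⟩ : ∃ N, n = N + 1 := ⟨n - 1, by have := h.pos; omega⟩
  have hvv : ⟪v, v⟫_ℝ = 1 := by rw [real_inner_self_eq_norm_sq, h.unit]; norm_num
  have hout : u N = v := h.out
  have hunit : ∀ i < N + 1, ⟪u i, u i⟫_ℝ = 1 := by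
    intro i
    induction i with
    | zero => intro _; exact h.mirror.unit hvv
    | succ i ih =>
      intro hi
      exact (step_mirror (h.step i hi)).unit (ih (by omega))
  have hmir : ∀ i < N + 1, ∃ F, LocalDef Bᶜ (A i) F := by
    intro i hi
    rcases i with _ | i
    · obtain ⟨F, hF, -⟩ := h.mirror
      exact ⟨F, hF⟩
    · obtain ⟨F, hF, -⟩ := step_mirror (h.step i hi)
      exact ⟨F, hF⟩
  have hFex : ∀ i, ∃ F : EE m → ℝ, i < N + 1 → LocalDef Bᶜ (A i) F := by
    intro i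
    by_cases hi : i < N + 1
    · obtain ⟨F, hF⟩ := hmir i hi
      exact ⟨F, fun _ => hF⟩
    · exact ⟨0, fun h => absurd h hi⟩
  choose F hF using hFex
  refine ⟨⟨?_, ?_, ?_⟩, ?_⟩
  · simp only [zero_add]
    exact hmir j hj
  · simp only [zero_add]
    exact hunit j hj
  · intro i hi
    have := h.step (i + j) (by omega)
    rw [show i + 1 + j = i + j + 1 by omega]
    exact this
  obtain ⟨s0, hs0, -⟩ := h.first
  obtain ⟨s1, hs1, -⟩ := h.last
  simp only [Nat.add_sub_cancel] at hs1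
  have htex : ∀ i, ∃ t : ℝ, i < N → (0 < t ∧ A (i + 1) = A i + t • u i) := by
    intro i
    by_cases hi : i < N
    · obtain ⟨t, ht, hq, -⟩ := h.step i (by omega)
      exact ⟨t, fun _ => ⟨ht, hq⟩⟩
    · exact ⟨0, fun h => absurd h hi⟩
  choose t ht using htex
  obtain ⟨T, hT⟩ : ∃ T : ℕ → ℝ, T = fun i => if i < N then t i else s0 - s1 := ⟨_, rfl⟩
  have hTi : ∀ i < N, T i = t i := fun i hi => by rw [hT]; simp only [if_pos hi]
  have hTN : T N = s0 - s1 := by rw [hT]; simp only [lt_irrefl, if_false]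
  refine cyc_low k h3 h.pos A u F T hF hunit ?_ ?_ ?_ hj ha
  · intro i hi
    refine ⟨?_, ?_⟩
    · rw [hTi i (by omega)]
      exact (ht i (by omega)).2
    · exact (step_mirror (h.step i hi)).refl (hF (i + 1) hi)
  · simp only [Nat.add_sub_cancel]
    refine ⟨?_, ?_⟩
    · rw [hTN, hout, hs0, hs1]
      module
    · rw [hout]
      exact h.mirror.refl (hF 0 (by omega))
  · -- the optical length defect
    have hN : 1 ≤ N := by
      by_contra hcon
      have h0 : N = 0 := by omega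
      rw [h0] at hout
      exact h.mirror.ne hout
    have e1 : ∑ i ∈ Finset.range N, t i * ⟪u i, v⟫_ℝ = s1 - s0 := by
      have e2 : ∑ i ∈ Finset.range N, t i * ⟪u i, v⟫_ℝ =
          ∑ i ∈ Finset.range N, (⟪A (i + 1), v⟫_ℝ - ⟪A i, v⟫_ℝ) := by
        apply Finset.sum_congr rfl
        intro i hi
        rw [(ht i (Finset.mem_range.1 hi)).2, inner_add_left, real_inner_smul_left]
        ring
      rw [e2, Finset.sum_range_sub (fun i => ⟪A i, v⟫_ℝ), hs0, hs1, inner_add_left, inner_add_left,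
        real_inner_smul_left, real_inner_smul_left, hvv]
      ring
    have e3 : ∑ i ∈ Finset.range (N + 1), T i =
        ∑ i ∈ Finset.range N, t i * (1 - ⟪u i, v⟫_ℝ) := by
      rw [Finset.sum_range_succ, hTN]
      have e4 : ∑ i ∈ Finset.range N, T i = ∑ i ∈ Finset.range N, t i :=
        Finset.sum_congr rfl fun i hi => hTi i (Finset.mem_range.1 hi)
      rw [e4]
      have e5 : ∑ i ∈ Finset.range N, t i * (1 - ⟪u i, v⟫_ℝ) =
          ∑ i ∈ Finset.range N, t i - ∑ i ∈ Finset.range N, t i * ⟪u i, v⟫_ℝ := by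
        rw [← Finset.sum_sub_distrib]
        exact Finset.sum_congr rfl fun i _ => by ring
      rw [e5, e1]
      ring
    rw [e3]
    refine ne_of_gt (Finset.sum_pos' (fun i hi => ?_) ⟨0, Finset.mem_range.2 hN, ?_⟩)
    · have hi' := Finset.mem_range.1 hi
      exact mul_nonneg (ht i hi').1.le
        (sub_nonneg.2 (unit_inner_lt (hunit i (by omega)) hvv).1)
    · exact mul_pos (ht 0 hN).1
        (sub_pos.2 ((unit_inner_lt (hunit 0 (by omega)) hvv).2 h.mirror.ne))

end C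

/-- The oriented lines (given by their direction and by their point nearest to the origin) which
are rays of invisibility of the body `B`, with any number of reflections, at most one of them being
at a point which is not a noncircular algebraic boundary point of `B`. -/
def InvOne {d : ℕ} (B : Set (EuclideanSpace ℝ (Fin d))) :
    Set (EuclideanSpace ℝ (Fin d) × EuclideanSpace ℝ (Fin d)) :=
  {z | ∃ (n : ℕ) (A u : ℕ → EuclideanSpace ℝ (Fin d)), InvRay B n z.1 z.2 A u ∧
    ∃ j < n, ∀ i < n, i ≠ j → AlgAt B (A i)}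

/-- A smooth map carries negligible sets to negligible sets. -/
theorem img_null' {Z Y : Type*} [NormedAddCommGroup Z] [NormedSpace ℝ Z]
    [SecondCountableTopology Z] [MeasurableSpace Z] [BorelSpace Z] [NormedAddCommGroup Y]
    [NormedSpace ℝ Y] [MeasurableSpace Y] [BorelSpace Y] {f : Z → Y} {A : Set Z} {s : ℝ}
    (hs : 0 ≤ s) (hf : ∀ z ∈ A, ContDiffAt ℝ 1 f z) (h : μH[s] A = 0) : μH[s] (f '' A) = 0 := by
  refine null_of_locally_null (μH[s]) f A fun z hz => ?_
  obtain ⟨K, t, ht, hK⟩ := (hf z hz).exists_lipschitzOnWith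
  refine ⟨f '' (A ∩ t), ?_, ?_⟩
  · have h1 := (hK.mono (inter_subset_right (s := A))).hausdorffMeasure_image_le (d := s) hs
    have h2 : μH[s] (A ∩ t) = 0 := measure_mono_null inter_subset_left h
    rw [h2, mul_zero] at h1
    exact nonpos_iff_eq_zero.mp h1
  · filter_upwards [ht] with w hw hwA
    exact ⟨w, ⟨hwA, hw⟩, rfl⟩

theorem algAt_compl {d : ℕ} {B : Set (EuclideanSpace ℝ (Fin d))} {q : EuclideanSpace ℝ (Fin d)}
    (h : AlgAt B q) : AlgAt Bᶜ q := by
  unfold AlgAt at *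
  rw [frontier_compl]
  exact h

open H450Al H450Sp in
theorem invOne_null {d : ℕ} (hd : 2 ≤ d) (B : Set (EuclideanSpace ℝ (Fin d))) :
    μH[((2 * d - 2 : ℕ) : ℝ)] (InvOne B) = 0 := by
  obtain ⟨m, rfl⟩ : ∃ m, d = m + 2 := ⟨d - 2, by omega⟩
  obtain ⟨k, hkc, -, -, k3⟩ := exists_field Bᶜ (AffineIsometryEquiv.refl ℝ (EE m))
  obtain ⟨G, hG⟩ : ∃ G : EE m × EE m → EE m × EE m,
    G = fun z => (z.1 - ⟪z.1, z.2⟫_ℝ • z.2, z.2) := ⟨_, rfl⟩
  have hGc : ContDiff ℝ 1 G := by
    rw [hG]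
    exact (contDiff_fst.sub ((contDiff_fst.inner ℝ contDiff_snd).smul contDiff_snd)).prodMk
      contDiff_snd
  refine measure_mono_null (t := ⋃ N : ℕ, G ''
    ((fun w : (ℕ → EE m) × (ℕ → EE m) => (w.1 N, w.2 N)) ''
      {w | Traj Bᶜ N w.1 w.2 ∧ (rk k (range (w.1 0).ofLp) ≤ (m : ℕ∞) ∨
        rk (IntermediateField.adjoin k (range (w.1 0).ofLp)) (range (w.2 0).ofLp) ≤
          (m : ℕ∞))})) ?_ ?_
  · rintro ⟨y, v⟩ ⟨n, A, u, h, j, hj, ha⟩
    obtain ⟨h1, h2⟩ := inv_low k k3 h hj fun i hi hij => algAt_compl (ha i hi hij)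
    rw [mem_iUnion]
    refine ⟨n - 1 - j, _, ⟨(fun i => A (i + j), fun i => u (i + j)), ⟨h1, ?_⟩, rfl⟩, ?_⟩
    · change rk k (range (A (0 + j)).ofLp) ≤ (m : ℕ∞) ∨
        rk (IntermediateField.adjoin k (range (A (0 + j)).ofLp)) (range (u (0 + j)).ofLp) ≤
          (m : ℕ∞)
      rw [zero_add]
      exact h2
    · obtain ⟨s1, hs1, -⟩ := h.last
      have h3 : n - 1 - j + j = n - 1 := by omega
      have hvv : ⟪v, v⟫_ℝ = 1 := by
        rw [real_inner_self_eq_norm_sq, h.unit]; norm_num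
      have hout := h.out
      have hperp := h.perp
      simp only at hs1 hout hperp
      rw [hG]
      simp only [h3]
      rw [hs1, hout, inner_add_left, real_inner_smul_left, hvv, hperp]
      simp
  · refine measure_iUnion_null fun N => ?_
    exact img_null' (Nat.cast_nonneg _) (fun z _ => hGc.contDiffAt) (bad_null Bᶜ k N)

end Pool.Agent.TH746.AL
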