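import Pool.Agent.TH746.AL.Dim2
import Pool.Agent.TH746.AL.Invis

/-!
The dimension of the exceptional sets.
-/

set_option autoImplicit false

open MeasureTheory Filter Topology
open scoped NNReal ENNReal InnerProductSpace

namespace Pool.Agent.TH746.AL

open MvPolynomial Set H450Al

section gen

/-- A set all of whose points have a neighbourhood with low dimensional projection has a low
dimensional projection. -/
theorem dim_of_locally {X Y : Type*} [TopologicalSpace X] [SecondCountableTopology X]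
    [EMetricSpace Y] (r : ℝ≥0∞) (π : X → Y) (W : Set X)
    (h : ∀ w ∈ W, ∃ Z : Set Y, dimH Z ≤ r ∧ ∀ᶠ w' in 𝓝 w, w' ∈ W → π w' ∈ Z) :
    dimH (π '' W) ≤ r := by
  classical
  choose! Z hZ hZ' using h
  obtain ⟨t, htW, htc, hcov⟩ := TopologicalSpace.countable_cover_nhdsWithin
    (f := fun w => {w' | w' ∈ W → π w' ∈ Z w}) (s := W)
    (fun w hw => mem_nhdsWithin_of_mem_nhds (hZ' w hw))
  refine (dimH_mono (t := ⋃ w ∈ t, Z w) ?_).trans ?_
  · rintro _ ⟨w, hw, rfl⟩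
    obtain ⟨w0, hw0, h1⟩ := mem_iUnion₂.1 (hcov hw)
    exact mem_iUnion₂.2 ⟨w0, hw0, h1 hw⟩
  · rw [dimH_bUnion htc]
    exact iSup₂_le fun w hw => hZ w (htW hw)

end gen

section fub
set_option linter.unusedSectionVars false
variable {k : Type*} [Field k] [Algebra k ℝ] [Countable k] {m : ℕ}
variable {V W : Type*} [NormedAddCommGroup V] [NormedSpace ℝ V] [FiniteDimensional ℝ V]
  [NormedAddCommGroup W] [NormedSpace ℝ W] [FiniteDimensional ℝ W]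

theorem fub_dim (hV : Module.finrank ℝ V = m + 1)
    (U : Set (V × W)) (hU : IsOpen U) (X : V → EuclideanSpace ℝ (Fin (m + 2)))
    (Y : W → EuclideanSpace ℝ (Fin (m + 2)))
    (hc : ∃ K, LipschitzOnWith K (fun z : V × W => (X z.1, Y z.2)) U)
    (hY : ∀ z ∈ U, ∑ j, (Y z.2).ofLp j ^ 2 = 1)
    (P : EuclideanSpace ℝ (Fin (m + 2)) → V) (hP : ∃ K, LipschitzWith K P)
    (Q : EuclideanSpace ℝ (Fin (m + 2)) → W) (hQ : ∃ K, LipschitzWith K Q)
    (hPX : ∀ z, P (X z) = z) (hQY : ∀ z, Q (Y z) = z) :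
    dimH {z : V × W | z ∈ U ∧
      (rk k (range (X z.1).ofLp) ≤ (m : ℕ∞) ∨
        rk (IntermediateField.adjoin k (range (X z.1).ofLp)) (range (Y z.2).ofLp) ≤ (m : ℕ∞))} ≤
      ((2 * m + 1 : ℕ) : ℝ≥0∞) := by
  classical
  have hcM : Countable (MvPolynomial (Fin (m + 2) ⊕ Fin (m + 2)) k) :=
    (AddMonoidAlgebra.coeffEquiv (R := k) (M := Fin (m + 2) ⊕ Fin (m + 2) →₀ ℕ)).countable_iff.2
      inferInstance
  obtain ⟨f, hf⟩ : ∃ f : (Fin (m + 2) ⊕ Fin (m + 2) → ℝ) → V × W,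
    f = fun y : Fin (m + 2) ⊕ Fin (m + 2) → ℝ => (P (WithLp.toLp 2 fun i => y (Sum.inl i)),
      Q (WithLp.toLp 2 fun i => y (Sum.inr i))) := ⟨_, rfl⟩
  have hfL : ∃ K, LipschitzWith K f := by
    obtain ⟨Kp, hKp⟩ := hP
    obtain ⟨Kq, hKq⟩ := hQ
    let L1 : (Fin (m + 2) ⊕ Fin (m + 2) → ℝ) →L[ℝ] EuclideanSpace ℝ (Fin (m + 2)) :=
      ((EuclideanSpace.equiv (Fin (m + 2)) ℝ).symm : (Fin (m + 2) → ℝ) →L[ℝ] _).comp
        (ContinuousLinearMap.pi fun i => ContinuousLinearMap.proj (Sum.inl i))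
    let L2 : (Fin (m + 2) ⊕ Fin (m + 2) → ℝ) →L[ℝ] EuclideanSpace ℝ (Fin (m + 2)) :=
      ((EuclideanSpace.equiv (Fin (m + 2)) ℝ).symm : (Fin (m + 2) → ℝ) →L[ℝ] _).comp
        (ContinuousLinearMap.pi fun i => ContinuousLinearMap.proj (Sum.inr i))
    have h1 := (hKp.comp L1.lipschitz).prodMk (hKq.comp L2.lipschitz)
    refine ⟨max (Kp * ‖L1‖₊) (Kq * ‖L2‖₊), ?_⟩
    rw [hf]
    exact h1
  obtain ⟨Kf, hKf⟩ := hfL
  obtain ⟨B, hB⟩ : ∃ B : Set (Fin (m + 2)) →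
      (Fin (m + 2) ⊕ Fin (m + 2) → MvPolynomial (Fin (m + 2) ⊕ Fin (m + 2)) k) → Set (V × W),
      B = fun J G => {z : V × W | (J.encard ≤ (m : ℕ∞) ∧
        (∀ i, i ∉ Jp J → ∀ l, l ∉ Jp J → l ≠ i → pderiv l (G i) = 0)) ∧ z ∈ U ∧
        Sum.elim (X z.1).ofLp (Y z.2).ofLp ∈ Zset (Jp J) G} := ⟨_, rfl⟩
  refine (dimH_mono (t := (f '' {y | rk k (range y) ≤ ((2 * m + 1 : ℕ) : ℕ∞)}) ∪
    ⋃ (J : Set (Fin (m + 2))), ⋃ (G : Fin (m + 2) ⊕ Fin (m + 2) →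
      MvPolynomial (Fin (m + 2) ⊕ Fin (m + 2)) k), B J G) ?_).trans ?_
  · rintro z ⟨hzU, h⟩
    by_cases h1 : rk k (range (X z.1).ofLp ∪ range (Y z.2).ofLp) ≤ ((2 * m + 1 : ℕ) : ℕ∞)
    · left
      refine ⟨Sum.elim (X z.1).ofLp (Y z.2).ofLp, ?_, ?_⟩
      · rw [Set.mem_ofPred_eq, Sum.elim_range]
        exact h1
      · rw [hf]
        exact Prod.ext (hPX z.1) (hQY z.2)
    · right
      obtain ⟨J, G, e1, e2, e3⟩ := exists_zset (X z.1).ofLp (Y z.2).ofLp (hY z hzU) h1 h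
      rw [mem_iUnion₂]
      refine ⟨J, G, ?_⟩
      rw [hB]
      exact ⟨⟨e1, e2⟩, hzU, e3⟩
  · rw [dimH_union, dimH_iUnion]
    refine max_le ?_ (iSup_le fun J => ?_)
    · exact (hKf.dimH_image_le _).trans (dimH_low (k := k) (ι := Fin (m + 2) ⊕ Fin (m + 2)) _)
    · rw [dimH_iUnion]
      refine iSup_le fun G => ?_
      by_cases hcond : J.encard ≤ (m : ℕ∞) ∧
        (∀ i, i ∉ Jp J → ∀ l, l ∉ Jp J → l ≠ i → pderiv l (G i) = 0)
      · refine (dimH_mono ?_).trans (dim_piece hV U hU X Y hc P hP Q hQ hPX hQY J hcond.1 G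
          hcond.2)
        intro z hz
        rw [hB] at hz
        exact hz.2
      · have : B J G = ∅ := by
          rw [hB]
          exact eq_empty_of_forall_notMem fun z hz => hcond hz.1
        rw [this, dimH_empty]
        exact bot_le

end fub

section B
open H450Al H450Sp
open Pool.Agent.H721R2.Quart Pool.Agent.H721R2.Ivrii Pool.Agent.TH746
variable {m : ℕ}

/-- The end points and directions of the trajectories the initial data of which are exceptional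
form a set of dimension at most `2 d - 3`. -/
theorem bad_dim (Ω : Set (EE m)) (k : Subfield ℝ) [Countable k] (N : ℕ) :
    dimH ((fun w : (ℕ → EE m) × (ℕ → EE m) => (w.1 N, w.2 N)) ''
      {w | Traj Ω N w.1 w.2 ∧ (rk k (range (w.1 0).ofLp) ≤ (m : ℕ∞) ∨
        rk (IntermediateField.adjoin k (range (w.1 0).ofLp)) (range (w.2 0).ofLp) ≤
          (m : ℕ∞))}) ≤ ((2 * m + 1 : ℕ) : ℝ≥0∞) := by
  apply dim_of_locally
  rintro ⟨p, u⟩ ⟨hor, -⟩
  obtain ⟨a, b, U, X, Y, s, P, Q, ha, hb, hU, hs0, hY1, hP, hQ, hPX, hQY, hL, hev⟩ :=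
    exists_parT hor
  have hfa : Module.finrank ℝ ((ℝ ∙ a)ᗮ : Submodule ℝ (EE m)) = m + 1 := by
    have h1 := Submodule.finrank_add_finrank_orthogonal (ℝ ∙ a)
    rw [finrank_span_singleton ha, finrank_euclideanSpace_fin] at h1
    omega
  have h0 := fub_dim (k := k) hfa U hU X Y (by rw [← hs0]; exact hL 0 (Nat.zero_le _))
    (fun z hz => by
      rw [← hY1 z hz, real_inner_self_eq_norm_sq, EuclideanSpace.norm_sq_eq]
      apply Finset.sum_congr rfl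
      intro j _
      rw [Real.norm_eq_abs, sq_abs]) P hP Q hQ hPX hQY
  obtain ⟨A, hA⟩ : ∃ A, A = {z : (ℝ ∙ a)ᗮ × (ℝ ∙ b)ᗮ | z ∈ U ∧
      (rk k (range (X z.1).ofLp) ≤ (m : ℕ∞) ∨
        rk (IntermediateField.adjoin k (range (X z.1).ofLp)) (range (Y z.2).ofLp) ≤
          (m : ℕ∞))} := ⟨_, rfl⟩
  rw [← hA] at h0
  obtain ⟨K, hK⟩ := hL N le_rfl
  refine ⟨s N '' A, ?_, ?_⟩
  · have hK' : LipschitzOnWith K (s N) A := hK.mono fun z hz => by rw [hA] at hz; exact hz.1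
    exact hK'.dimH_image_le.trans h0
  · filter_upwards [hev] with w hw hor'
    obtain ⟨z, hzU, hz⟩ := hw hor'.1
    refine ⟨z, ?_, hz N le_rfl⟩
    have hz0 := hz 0 (Nat.zero_le _)
    rw [hs0] at hz0
    have hx0 : X z.1 = w.1 0 := congrArg Prod.fst hz0
    have hy0 : Y z.2 = w.2 0 := congrArg Prod.snd hz0
    rw [hA]
    refine ⟨hzU, ?_⟩
    rw [hx0, hy0]
    exact hor'.2

theorem pa_dim {Ω : Set (EE m)} {g h : EE m ≃ᵃⁱ[ℝ] EE m} (hg : g ⁻¹' Ω = Ω) {n c l : ℕ}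
    (hl : l ≤ n) (hc : 1 ≤ c) : dimH (Pa Ω g h n c l) ≤ ((2 * m + 1 : ℕ) : ℝ≥0∞) := by
  obtain ⟨k, hkc, k1, k2, k3⟩ := exists_field Ω h
  apply dim_of_locally
  rintro ⟨p, u⟩ ⟨hor, -⟩
  obtain ⟨a, b, U, X, Y, s, P, Q, ha, hb, hU, hs0, hY1, hP, hQ, hPX, hQY, hL, hev⟩ :=
    exists_par hg hor
  have hfa : Module.finrank ℝ ((ℝ ∙ a)ᗮ : Submodule ℝ (EE m)) = m + 1 := by
    have h1 := Submodule.finrank_add_finrank_orthogonal (ℝ ∙ a)
    rw [finrank_span_singleton ha, finrank_euclideanSpace_fin] at h1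
    omega
  have h0 := fub_dim (k := k) hfa U hU X Y (by rw [← hs0]; exact hL 0 (Nat.zero_le _))
    (fun z hz => by
      rw [← hY1 z hz, real_inner_self_eq_norm_sq, EuclideanSpace.norm_sq_eq]
      apply Finset.sum_congr rfl
      intro j _
      rw [Real.norm_eq_abs, sq_abs]) P hP Q hQ hPX hQY
  obtain ⟨A, hA⟩ : ∃ A, A = {z : (ℝ ∙ a)ᗮ × (ℝ ∙ b)ᗮ | z ∈ U ∧
      (rk k (range (X z.1).ofLp) ≤ (m : ℕ∞) ∨
        rk (IntermediateField.adjoin k (range (X z.1).ofLp)) (range (Y z.2).ofLp) ≤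
          (m : ℕ∞))} := ⟨_, rfl⟩
  rw [← hA] at h0
  obtain ⟨K, hK⟩ := hL l hl
  refine ⟨s l '' A, ?_, ?_⟩
  · have hK' : LipschitzOnWith K (s l) A := hK.mono fun z hz => by rw [hA] at hz; exact hz.1
    exact hK'.dimH_image_le.trans h0
  · filter_upwards [hev] with w hw hor'
    obtain ⟨z, hzU, hz⟩ := hw hor'.1
    refine ⟨z, ?_, hz l hl⟩
    have hz0 := hz 0 (Nat.zero_le _)
    rw [hs0] at hz0
    have hx0 : X z.1 = w.1 0 := congrArg Prod.fst hz0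
    have hy0 : Y z.2 = w.2 0 := congrArg Prod.snd hz0
    rw [hA]
    refine ⟨hzU, ?_⟩
    rw [hx0, hy0]
    exact orbit_low hg k k1 k2 k3 hor'.1 hc hor'.2.1 hor'.2.2

/-- Pulling back by an isometry does not raise the dimension. -/
theorem pull_dim (g : EE m ≃ᵃⁱ[ℝ] EE m) (Z : Set (EE m × EE m)) :
    dimH {z : EE m × EE m | (g z.1, g.linearIsometryEquiv z.2) ∈ Z} ≤ dimH Z := by
  have hlip : LipschitzWith 1
      (fun z : EE m × EE m => (g.symm z.1, g.linearIsometryEquiv.symm z.2)) := by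
    refine LipschitzWith.of_dist_le_mul fun x y => ?_
    simp only [Prod.dist_eq, LinearIsometryEquiv.dist_map, AffineIsometryEquiv.dist_map,
      NNReal.coe_one, one_mul]
    exact le_rfl
  refine (dimH_mono ?_).trans (hlip.dimH_image_le Z)
  intro z hz
  exact ⟨_, hz, by simp⟩

theorem perLoop_dim {d : ℕ} (hd : 2 ≤ d) (Ω : Set (EuclideanSpace ℝ (Fin d)))
    (Γ : Set (EuclideanSpace ℝ (Fin d) ≃ᵃⁱ[ℝ] EuclideanSpace ℝ (Fin d)))
    (hΓ : Γ.Countable) (hinv : ∀ g ∈ Γ, g ⁻¹' Ω = Ω) :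
    dimH (PerLoop Γ Ω) ≤ ((2 * d - 3 : ℕ) : ℝ≥0∞) := by
  obtain ⟨m, rfl⟩ : ∃ m, d = m + 2 := ⟨d - 2, by omega⟩
  have he : 2 * (m + 2) - 3 = 2 * m + 1 := by omega
  rw [he]
  refine (dimH_mono (t := ⋃ g ∈ Γ, ⋃ h ∈ Γ, ⋃ n : ℕ, ⋃ c : ℕ, ⋃ l : ℕ, ⋃ (_ : 1 ≤ c),
    ⋃ (_ : l ≤ n),
    {z : EE m × EE m | (g z.1, g.linearIsometryEquiv z.2) ∈ Pa Ω g h n c l}) ?_).trans ?_
  · rintro z ⟨g, hgΓ, n, p, u, hor, rfl, a, b, han, hab, hbn, ⟨h, hhΓ, hpb⟩, ha⟩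
    refine mem_iUnion₂.2 ⟨g, hgΓ, mem_iUnion₂.2 ⟨h, hhΓ, mem_iUnion.2 ⟨n, mem_iUnion.2 ⟨b - a,
      mem_iUnion.2 ⟨n - a, mem_iUnion₂.2 ⟨by omega, Nat.sub_le _ _, ?_⟩⟩⟩⟩⟩⟩
    refine ⟨(fun k => p (k + a), fun k => u (k + a)), ⟨OrbitMod.shift' hor a, ?_, ?_⟩, ?_⟩
    · simp only
      rw [show b - a + a = b by omega, hpb, zero_add]
    · intro k hk1 hk
      exact ha (k + a) (by omega) (by omega)
    · simp only
      have h1 : n - a + a = 0 + n := by omega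
      rw [h1, hor.perp, hor.peru]
  · rw [dimH_bUnion hΓ]
    refine iSup₂_le fun g hg => ?_
    rw [dimH_bUnion hΓ]
    refine iSup₂_le fun h _ => ?_
    rw [dimH_iUnion]
    refine iSup_le fun n => ?_
    rw [dimH_iUnion]
    refine iSup_le fun c => ?_
    rw [dimH_iUnion]
    refine iSup_le fun l => ?_
    rw [dimH_iUnion]
    refine iSup_le fun hc => ?_
    rw [dimH_iUnion]
    refine iSup_le fun hl => ?_
    exact (pull_dim g _).trans (pa_dim (hinv g hg) hl hc)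

/-- A smooth map does not raise the dimension. -/
theorem img_dim {Z Y : Type*} [NormedAddCommGroup Z] [NormedSpace ℝ Z]
    [SecondCountableTopology Z] [NormedAddCommGroup Y] [NormedSpace ℝ Y] {f : Z → Y} {A : Set Z}
    (hf : ∀ z ∈ A, ContDiffAt ℝ 1 f z) : dimH (f '' A) ≤ dimH A := by
  refine dim_of_locally _ f A fun z hz => ?_
  obtain ⟨K, t, ht, hK⟩ := (hf z hz).exists_lipschitzOnWith
  refine ⟨f '' (A ∩ t), ?_, ?_⟩
  · exact (hK.mono (inter_subset_right (s := A))).dimH_image_le.trans (dimH_mono inter_subset_left)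
  · filter_upwards [ht] with w hw hwA
    exact ⟨w, ⟨hwA, hw⟩, rfl⟩

theorem invOne_dim {d : ℕ} (hd : 2 ≤ d) (B : Set (EuclideanSpace ℝ (Fin d))) :
    dimH (InvOne B) ≤ ((2 * d - 3 : ℕ) : ℝ≥0∞) := by
  obtain ⟨m, rfl⟩ : ∃ m, d = m + 2 := ⟨d - 2, by omega⟩
  have he : 2 * (m + 2) - 3 = 2 * m + 1 := by omega
  rw [he]
  obtain ⟨k, hkc, -, -, k3⟩ := exists_field Bᶜ (AffineIsometryEquiv.refl ℝ (EE m))
  obtain ⟨G, hG⟩ : ∃ G : EE m × EE m → EE m × EE m,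
    G = fun z => (z.1 - ⟪z.1, z.2⟫_ℝ • z.2, z.2) := ⟨_, rfl⟩
  have hGc : ContDiff ℝ 1 G := by
    rw [hG]
    exact (contDiff_fst.sub ((contDiff_fst.inner ℝ contDiff_snd).smul contDiff_snd)).prodMk
      contDiff_snd
  refine (dimH_mono (t := ⋃ N : ℕ, G ''
    ((fun w : (ℕ → EE m) × (ℕ → EE m) => (w.1 N, w.2 N)) ''
      {w | Traj Bᶜ N w.1 w.2 ∧ (rk k (range (w.1 0).ofLp) ≤ (m : ℕ∞) ∨
        rk (IntermediateField.adjoin k (range (w.1 0).ofLp)) (range (w.2 0).ofLp) ≤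
          (m : ℕ∞))})) ?_).trans ?_
  · rintro ⟨y, v⟩ ⟨n, A, u, h, j, hj, ha⟩
    obtain ⟨h1, h2⟩ := inv_low k k3 h hj fun i hi hij => algAt_compl (ha i hi hij)
    rw [mem_iUnion]
    refine ⟨n - 1 - j, _, ⟨(fun i => A (i + j), fun i => u (i + j)), ⟨h1, ?_⟩, rfl⟩, ?_⟩
    · change rk k (range (A (0 + j)).ofLp) ≤ (m : ℕ∞) ∨
        rk (IntermediateField.adjoin k (range (A (0 + j)).ofLp)) (range (u (0 + j)).ofLp) ≤
          (m : ℕ∞)
      rw [zero_add]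
      exact h2
    · obtain ⟨s1, hs1, -⟩ := h.last
      have h3 : n - 1 - j + j = n - 1 := by omega
      have hvv : ⟪v, v⟫_ℝ = 1 := by
        rw [real_inner_self_eq_norm_sq, h.unit]; norm_num
      have hout := h.out
      have hperp := h.perp
      simp only at hs1 hout hperp
      rw [hG]
      simp only [h3]
      rw [hs1, hout, inner_add_left, real_inner_smul_left, hvv, hperp]
      simp
  · rw [dimH_iUnion]
    exact iSup_le fun N => (img_dim fun z _ => hGc.contDiffAt).trans (bad_dim Bᶜ k N)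

/-- Sets of dimension at most `2 d - 3` are negligible for the measure of dimension `2 d - 2`. -/
theorem null_of_dim {Z : Type*} [EMetricSpace Z] [MeasurableSpace Z] [BorelSpace Z] {d : ℕ}
    (hd : 2 ≤ d) {A : Set Z} (h : dimH A ≤ ((2 * d - 3 : ℕ) : ℝ≥0∞)) :
    μH[((2 * d - 2 : ℕ) : ℝ)] A = 0 := by
  have h1 : dimH A < ((2 * d - 2 : ℕ) : ℝ≥0) := by
    refine h.trans_lt ?_
    have : ((2 * d - 3 : ℕ) : ℝ≥0∞) < ((2 * d - 2 : ℕ) : ℝ≥0∞) := by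
      exact_mod_cast (by omega : 2 * d - 3 < 2 * d - 2)
    simpa using this
  have h2 := hausdorffMeasure_of_dimH_lt h1
  exact_mod_cast h2

end B

end Pool.Agent.TH746.AL
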