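import Pool.Agent.TH746.AL.Tower

/-!
A billiard trajectory that leaves a boundary point of almost full rank, bounces only at noncircular
algebraic boundary points and comes back to a point rational over the starting point: the rank of
the initial direction over the starting point is at most `d - 2`.
-/

set_option autoImplicit false

namespace Pool.Agent.TH746.AL

open MvPolynomial Set H450Al

section res

theorem aeval_mem_F {κ : Type*} [Field κ] [Algebra κ ℝ] (F : Subfield ℝ)
    (hκ : ∀ a : κ, algebraMap κ ℝ a ∈ F) {ι : Type*} (x : ι → ℝ) (hx : ∀ i, x i ∈ F)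
    (Q : MvPolynomial ι κ) : aeval x Q ∈ F := by
  induction Q using MvPolynomial.induction_on with
  | C a => rw [algHom_C]; exact hκ a
  | add p q hp hq => rw [map_add]; exact add_mem hp hq
  | mul_X p i hp => rw [map_mul, aeval_X]; exact mul_mem hp (hx i)

theorem rk_le_res_F {κ : Type*} [Field κ] [Algebra κ ℝ] (B : ValuationSubring ℝ) [Algebra κ B]
    [IsScalarTower κ B ℝ] (F : Subfield ℝ) (hF : ∀ a ∈ F, a ∈ B)
    (hκ : ∀ a : κ, algebraMap κ ℝ a ∈ F) {ι : Type*} [Finite ι] (x : ι → B)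
    (hx : ∀ i, (x i : ℝ) ∈ F) :
    rk κ (range fun i => (x i : ℝ)) ≤ rk κ (range fun i => IsLocalRing.residue B (x i)) := by
  apply rk_le_res B x
  intro Q hQ
  by_contra hne
  rw [res_eq_zero_iff] at hQ
  have hval : ((aeval x Q : B) : ℝ) = aeval (fun i => ((x i : B) : ℝ)) Q :=
    (aeval_coe (k := κ) B x Q).symm
  have hmem : ((aeval x Q : B) : ℝ) ∈ F := by
    rw [hval]
    exact aeval_mem_F F hκ _ hx Q
  have hinv : ((aeval x Q : B) : ℝ)⁻¹ ∈ B := hF _ (F.inv_mem hmem)
  rw [ValuationSubring.mem_nonunits_iff_exists_mem_maximalIdeal] at hQ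
  obtain ⟨hB, hQ⟩ := hQ
  rw [IsLocalRing.mem_maximalIdeal, mem_nonunits_iff] at hQ
  apply hQ
  refine IsUnit.of_mul_eq_one ⟨_, hinv⟩ ?_
  apply Subtype.ext
  change ((aeval x Q : B) : ℝ) * ((aeval x Q : B) : ℝ)⁻¹ = 1
  apply mul_inv_cancel₀
  rw [hval]; exact hne

end res

section length

theorem length_alg {k : Type*} [Field k] [Algebra k ℝ] {d n : ℕ}
    (Φ : ℕ → MvPolynomial (Fin d) k) (q u : ℕ → Fin d → ℝ) (t : ℕ → ℝ) (hn : 1 ≤ n)
    (hqn : ∀ j, q n j ∈ IntermediateField.adjoin k (range (q 0)))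
    (hunit : ∀ i < n, ∑ j, u i j ^ 2 = 1)
    (hΦ : ∀ i, 1 ≤ i → i < n → aeval (q i) (Φ i) = 0)
    (hq : ∀ i < n, q (i + 1) = fun j => q i j + t i * u i j)
    (hu : ∀ i, i + 1 < n → u (i + 1) = refl (grad (Φ (i + 1)) (q (i + 1))) (u i)) :
    IsAlgebraic (IntermediateField.adjoin k (range (q 0))) (∑ i ∈ Finset.range n, t i) := by
  by_contra htr
  obtain ⟨D, hD⟩ := exists_derivation _ htr
  apply hD
  have hDK : ∀ a ∈ IntermediateField.adjoin k (range (q 0)), D a = 0 := by
    intro a ha
    exact D.map_algebraMap (⟨a, ha⟩ : IntermediateField.adjoin k (range (q 0)))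
  have hq0 : ∀ j, D (q 0 j) = 0 := fun j =>
    hDK _ (IntermediateField.subset_adjoin k _ (mem_range_self j))
  -- velocities are orthogonal to their derivatives
  have h1 : ∀ i < n, ∑ j, u i j * D (u i j) = 0 := by
    intro i hi
    have := congrArg D (hunit i hi)
    rw [map_sum, D.map_one_eq_zero] at this
    have h2 : ∀ j, D (u i j ^ 2) = 2 * (u i j * D (u i j)) := by
      intro j
      rw [D.leibniz_pow]
      simp
    simp_rw [h2] at this
    rw [← Finset.mul_sum] at this
    linarith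
  -- the normal is orthogonal to the motion of the vertex
  have h2 : ∀ i, 1 ≤ i → i < n → ∑ j, grad (Φ i) (q i) j * D (q i j) = 0 := by
    intro i hi1 hi
    have := congrArg D (hΦ i hi1 hi)
    rw [map_zero] at this
    have h3 := der_aeval (D.restrictScalars k) (Φ i) (q i)
    exact h3.symm.trans this
  -- derivative of a flight time
  have h3 : ∀ i < n, D (t i) = ∑ j, u i j * D (q (i + 1) j) - ∑ j, u i j * D (q i j) := by
    intro i hi
    have h4 : ∀ j, D (q (i + 1) j) = D (q i j) + (t i * D (u i j) + u i j * D (t i)) := by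
      intro j
      rw [hq i hi, map_add, D.leibniz, smul_eq_mul, smul_eq_mul]
    simp_rw [h4, mul_add, Finset.sum_add_distrib]
    have h5 : ∑ j, u i j * (t i * D (u i j)) = 0 := by
      have : ∀ j, u i j * (t i * D (u i j)) = t i * (u i j * D (u i j)) := fun j => by ring
      simp_rw [this]
      rw [← Finset.mul_sum, h1 i hi, mul_zero]
    have h6 : ∑ j, u i j * (u i j * D (t i)) = D (t i) := by
      have : ∀ j, u i j * (u i j * D (t i)) = u i j ^ 2 * D (t i) := fun j => by ring
      simp_rw [this]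
      rw [← Finset.sum_mul, hunit i hi, one_mul]
    rw [h5, h6]; ring
  have h4 : ∀ i, i + 1 < n →
      ∑ j, u i j * D (q (i + 1) j) = ∑ j, u (i + 1) j * D (q (i + 1) j) := by
    intro i hi
    rw [hu i hi]
    unfold H450Al.refl
    simp_rw [sub_mul, Finset.sum_sub_distrib]
    have : ∑ x, 2 * (∑ j, u i j * grad (Φ (i + 1)) (q (i + 1)) j) /
        (∑ j, grad (Φ (i + 1)) (q (i + 1)) j ^ 2) * grad (Φ (i + 1)) (q (i + 1)) x *
        D (q (i + 1) x) = 0 := by
      simp_rw [mul_assoc]
      rw [← Finset.mul_sum, h2 (i + 1) (by omega) hi, mul_zero]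
    rw [this, sub_zero]
  obtain ⟨W, hW⟩ : ∃ W : ℕ → ℝ, W = fun i => if i < n then ∑ j, u i j * D (q i j) else 0 :=
    ⟨_, rfl⟩
  rw [map_sum]
  have h5 : ∀ i ∈ Finset.range n, D (t i) = W (i + 1) - W i := by
    intro i hi
    have hi' := Finset.mem_range.1 hi
    rw [h3 i hi', hW]
    simp only [if_pos hi']
    by_cases h6 : i + 1 < n
    · rw [if_pos h6, h4 i h6]
    · rw [if_neg h6]
      have h7 : i + 1 = n := by omega
      have h8 : ∑ j, u i j * D (q (i + 1) j) = 0 := by
        apply Finset.sum_eq_zero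
        intro j _
        rw [h7, hDK _ (hqn j), mul_zero]
      rw [h8]
  rw [Finset.sum_congr rfl h5, Finset.sum_range_sub W, hW]
  simp only [lt_irrefl, if_false]
  rw [if_pos (by omega), zero_sub, neg_eq_zero]
  apply Finset.sum_eq_zero
  intro j _
  rw [hq0, mul_zero]

end length

section core
variable {k : Type*} [Field k] [Algebra k ℝ] {m N : ℕ}

theorem core_loop (P Φ : ℕ → MvPolynomial (Fin (m + 2)) k) (x : Fin (m + 2) → ℝ) (c : ℝ)
    (q e : ℕ → Fin (m + 2) → ℝ) (s : ℕ → ℝ)
    (hx : ((m + 1 : ℕ) : ℕ∞) ≤ rk k (range x))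
    (he0 : ((m + 2 : ℕ) : ℕ∞) ≤ rk (IntermediateField.adjoin k (range x)) (range (e 0)))
    (hq0 : q 0 = fun j => x j + c * e 0 j) (hc : c * e 0 0 = - x 0)
    (hP : ∀ i ≤ N, aeval (q i) (P i) = 0)
    (hnc : ∀ i ≤ N, ¬ Dq k (m + 2) ∣ lead (P i))
    (hν : ∀ i < N, grad (Φ (i + 1)) (q (i + 1)) ≠ 0)
    (hq : ∀ i ≤ N, q (i + 1) = fun j => q i j + s i * e i j)
    (he : ∀ i < N, e (i + 1) = refl (grad (Φ (i + 1)) (q (i + 1))) (e i))
    (hqn : ∀ j, q (N + 1) j ∈ IntermediateField.adjoin k (range x))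
    (hL : IsAlgebraic (IntermediateField.adjoin k (range x))
      ((∑ i, e 0 i ^ 2) * (c + ∑ i ∈ Finset.range (N + 1), s i) ^ 2)) :
    (∑ i, e 0 i ^ 2) * (c + ∑ i ∈ Finset.range (N + 1), s i) ^ 2 = 0 := by
  classical
  set K := IntermediateField.adjoin k (range x) with hK
  set tl : Fin (m + 1) → ℝ := fun j => e 0 j.succ with htl
  set S : Set ℝ := range x ∪ range tl with hS
  have hclS : cl k S = cl K (range tl) := cl_union k _ _
  have hsub : range (e 0) ⊆ insert (e 0 0) (range tl) := by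
    rintro _ ⟨j, rfl⟩
    refine Fin.cases (Or.inl rfl) (fun i => ?_) j
    exact Or.inr ⟨i, rfl⟩
  have hrt_le : rk K (range tl) ≤ ((m + 1 : ℕ) : ℕ∞) := by
    have := rk_range_le K tl
    simpa using this
  have h0 : e 0 0 ∉ cl k S := by
    rw [hclS]
    intro h
    have h1 : rk K (range (e 0)) ≤ rk K (range tl) := by
      apply rk_mono
      refine hsub.trans ?_
      rw [insert_subset_iff]
      exact ⟨h, subset_cl K _⟩
    have h2 := he0.trans (h1.trans hrt_le)
    have := Nat.cast_le.1 h2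
    omega
  have hrt : ((m + 1 : ℕ) : ℕ∞) ≤ rk K (range tl) := by
    by_contra hcon
    rw [not_le] at hcon
    have h1 := he0.trans ((rk_mono' K hsub).trans (rk_insert K _ (e 0 0)))
    have h2 : rk K (range tl) ≤ ((m : ℕ) : ℕ∞) := by
      push_cast at hcon
      exact Order.le_of_lt_add_one hcon
    have h3 : ((m + 2 : ℕ) : ℕ∞) ≤ ((m + 1 : ℕ) : ℕ∞) := by
      refine h1.trans ?_
      push_cast
      gcongr
    have := Nat.cast_le.1 h3
    omega
  obtain ⟨B, hFB, h0B, hnu⟩ := exists_place k S (e 0) (fun i => Or.inr ⟨i, rfl⟩) h0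
  have hKF : ∀ a ∈ K, a ∈ IntermediateField.adjoin k S := fun a ha =>
    IntermediateField.adjoin.mono k _ _ subset_union_left ha
  have hkB : ∀ a : k, algebraMap k ℝ a ∈ B := fun a =>
    hFB _ ((IntermediateField.adjoin k S).algebraMap_mem a)
  have hKB : ∀ a : K, algebraMap K ℝ a ∈ B := fun a => hFB _ (hKF _ a.2)
  let _ : Algebra k B := constAlgebra k B hkB
  have _ : IsScalarTower k B ℝ := constTower k B hkB
  let _ : Algebra K B := constAlgebra K B hKB
  have _ : IsScalarTower K B ℝ := constTower K B hKB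
  have hSB : ∀ a ∈ S, a ∈ B := fun a ha => hFB a (IntermediateField.subset_adjoin k S ha)
  have hxB : ∀ j, x j ∈ B := fun j => hSB _ (Or.inl ⟨j, rfl⟩)
  have heB : ∀ j, e 0 j ∈ B := by
    intro j
    refine Fin.cases h0B (fun i => ?_) j
    exact hSB _ (Or.inr ⟨i, rfl⟩)
  set x' : Fin (m + 2) → B := fun j => ⟨x j, hxB j⟩ with hx'
  set e' : Fin (m + 2) → B := fun j => ⟨e 0 j, heB j⟩ with he'
  have hDres : IsLocalRing.residue B (∑ j, e' j ^ 2) = 0 := by
    rw [res_eq_zero_iff, AddSubmonoidClass.coe_finsetSum]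
    exact hnu
  set xb := fun j => IsLocalRing.residue B (x' j) with hxb
  set eb := fun j => IsLocalRing.residue B (e' j) with heb
  have hiso : ∑ j, eb j ^ 2 = 0 := by
    rw [map_sum] at hDres
    simp only [map_pow] at hDres
    exact hDres
  -- ranks of residues
  have hebK : ((m + 1 : ℕ) : ℕ∞) ≤ rk K (range eb) := by
    have h1 := rk_le_res_F (κ := K) B (IntermediateField.adjoin k S).toSubfield (fun a ha => hFB a ha)
      (fun a => hKF _ a.2) (fun j : Fin (m + 1) => e' j.succ)
      (fun j => IntermediateField.subset_adjoin k S (Or.inr ⟨j, rfl⟩))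
    refine hrt.trans (h1.trans (rk_mono' K ?_))
    rintro _ ⟨i, rfl⟩
    exact ⟨i.succ, rfl⟩
  have hrk : rk k (range x) + ((m + 1 : ℕ) : ℕ∞) ≤ rk k (range xb ∪ range eb) := by
    set z : Fin (m + 2) ⊕ Fin (m + 1) → B := Sum.elim x' (fun j => e' j.succ) with hz
    have hzr : range (fun i => ((z i : B) : ℝ)) = S := by
      ext a
      constructor
      · rintro ⟨i, rfl⟩
        cases i with
        | inl j => exact Or.inl ⟨j, rfl⟩
        | inr j => exact Or.inr ⟨j, rfl⟩
      · rintro (⟨j, rfl⟩ | ⟨j, rfl⟩)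
        · exact ⟨Sum.inl j, rfl⟩
        · exact ⟨Sum.inr j, rfl⟩
    have h1 := rk_le_res_F (κ := k) B (IntermediateField.adjoin k S).toSubfield
      (fun a ha => hFB a ha) (fun a => (IntermediateField.adjoin k S).algebraMap_mem a) z
      (fun i => IntermediateField.subset_adjoin k S (by rw [← hzr]; exact ⟨i, rfl⟩))
    rw [hzr] at h1
    have h2 := rk_tower k (range x) (range tl) (finite_range tl)
    refine le_trans ?_ (h2.trans (h1.trans (rk_mono' k ?_)))
    · gcongr
    · rintro _ ⟨i, rfl⟩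
      cases i with
      | inl j => exact Or.inl ⟨j, rfl⟩
      | inr j => exact Or.inr ⟨j.succ, rfl⟩
  -- the first coordinate of the direction is a unit
  have heb0 : eb 0 ≠ 0 := by
    intro h
    have h1 := iso_lemma K eb hiso (X 0) (by rw [aeval_X]; exact h)
      (not_dvd_low (Dq_ne_zero K m) (X 0) (X_ne_zero 0) (by rw [totalDegree_X]))
    have h2 := hebK.trans h1
    have := Nat.cast_le.1 h2
    omega
  have hu0 : IsUnit (e' 0) := by
    by_contra hnu
    exact heb0 ((IsLocalRing.residue_eq_zero_iff _).2 ((IsLocalRing.mem_maximalIdeal _).2 hnu))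
  obtain ⟨v, hv⟩ := hu0.exists_right_inv
  have hvr : e 0 0 * (v : ℝ) = 1 := congrArg (fun z : B => (z : ℝ)) hv
  obtain ⟨c', hc'⟩ : ∃ c' : B, (c' : ℝ) = c := by
    refine ⟨-(x' 0) * v, ?_⟩
    change -(x 0) * (v : ℝ) = c
    rw [← hc, mul_assoc, hvr, mul_one]
  set y' : Fin (m + 2) → B := fun j => x' j + c' * e' j with hy'
  have hy'q : ∀ j, (y' j : ℝ) = q 0 j := by
    intro j
    rw [hq0, ← hc']
    rfl
  have hst : St (k := k) B (q 0) (e 0) y' e' := by
    refine ⟨hy'q, fun j => rfl, hiso, ?_⟩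
    refine shift_rank (k := k) (2 * m + 2) xb (fun j => IsLocalRing.residue B (y' j)) eb
      (IsLocalRing.residue B c') ?_ ?_
    · funext j
      rw [hy']
      simp only [map_add, map_mul]
      rw [hxb, heb]
      ring
    · by_cases hfull : ((m + 2 : ℕ) : ℕ∞) ≤ rk k (range x)
      · left
        refine le_trans ?_ hrk
        have : ((2 * m + 2 + 1 : ℕ) : ℕ∞) = ((m + 2 : ℕ) : ℕ∞) + ((m + 1 : ℕ) : ℕ∞) := by
          norm_cast
          omega
        rw [this]
        gcongr
      · right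
        constructor
        · refine le_trans ?_ hrk
          have : ((2 * m + 2 : ℕ) : ℕ∞) = ((m + 1 : ℕ) : ℕ∞) + ((m + 1 : ℕ) : ℕ∞) := by
            norm_cast
            omega
          rw [this]
          gcongr
        · obtain ⟨Ψ, hΨ, j0, hj0⟩ := exists_rel x hx hfull
          refine ⟨Ψ, ?_, ?_⟩
          · rw [aeval_res (k := k) B x' Ψ]
            have h1 : (aeval x' Ψ : B) = 0 := by
              apply Subtype.ext
              rw [← aeval_coe (k := k) B]; exact hΨ
            rw [h1, map_zero]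
          · have hmem : ∀ j, aeval x (pderiv j Ψ) ∈ K := fun j =>
              aeval_mem_F K.toSubfield (fun a => K.algebraMap_mem a) x
                (fun i => IntermediateField.subset_adjoin k _ (mem_range_self i)) _
            have h2 := lin_ne (k := K) eb hiso hebK (fun j => ⟨aeval x (pderiv j Ψ), hmem j⟩)
              (fun h => hj0 (congrArg Subtype.val (congrFun h j0)))
            have h3 : ∀ j, algebraMap K (IsLocalRing.ResidueField B)
                ⟨aeval x (pderiv j Ψ), hmem j⟩ = aeval xb (pderiv j Ψ) := by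
              intro j
              rw [hxb, aeval_res (k := k) B x' _]
              change IsLocalRing.residue B (algebraMap K B ⟨aeval x (pderiv j Ψ), hmem j⟩) = _
              congr 1
              apply Subtype.ext
              rw [← aeval_coe (k := k) B]
              rfl
            simp_rw [h3] at h2
            exact h2
  have hind : ∀ i ≤ N, (∀ j < i, s j ∈ B) ∧ ∃ q' e' : Fin (m + 2) → B,
      St (k := k) B (q i) (e i) q' e' := by
    intro i
    induction i with
    | zero => exact fun _ => ⟨fun j hj => absurd hj (Nat.not_lt_zero j), y', e', hst⟩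
    | succ i ih =>
      intro hi
      obtain ⟨h1, h2⟩ := ih (by omega)
      obtain ⟨h3, h4⟩ := step_lemma B (q i) (e i) (q (i + 1)) (e (i + 1)) (s i) (P i) (P (i + 1))
        (Φ (i + 1)) (hnc i (by omega)) (hP i (by omega)) (hnc (i + 1) hi) (hP (i + 1) hi)
        (hν i (by omega)) (hq i (by omega)) (he i (by omega)) h2
      refine ⟨fun j hj => ?_, h4⟩
      rcases Nat.lt_succ_iff_lt_or_eq.1 hj with h5 | h5
      · exact h1 j h5
      · rw [h5]; exact h3
  obtain ⟨hsB, qN, eN, hstN⟩ := hind N le_rfl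
  -- the last flight parameter is integral as well
  have hsN : s N ∈ B := by
    have h1 : ∃ j, IsLocalRing.residue B (eN j) ≠ 0 := by
      by_contra hall
      push Not at hall
      have h2 : rk k (range (fun j => IsLocalRing.residue B (eN j))) ≤ 0 := by
        have h3 : range (fun j => IsLocalRing.residue B (eN j)) ⊆ cl k ∅ := by
          rintro _ ⟨j, rfl⟩
          simp only [hall j]
          exact (clAlg k ∅).zero_mem
        refine (rk_mono k h3).trans ?_
        refine (rk_le_encard k _).trans ?_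
        simp
      have hP' : aeval (fun j => (qN j : ℝ)) (P N) = 0 := by
        have : (fun j => (qN j : ℝ)) = q N := funext hstN.hq
        rw [this]; exact hP N le_rfl
      have h3 := rk_pos_le (k := k) B qN (P N) (lead_zero_of _ (hnc N le_rfl)) hP'
      have h4 := hstN.gen.trans ((rk_union k _ _).trans (add_le_add h3 h2))
      rw [add_zero] at h4
      have := Nat.cast_le.1 h4
      omega
    obtain ⟨j, hj⟩ := h1
    have huj : IsUnit (eN j) := by
      by_contra hnu
      exact hj ((IsLocalRing.residue_eq_zero_iff _).2 ((IsLocalRing.mem_maximalIdeal _).2 hnu))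
    obtain ⟨w, hw⟩ := huj.exists_right_inv
    have hwr : e N j * (w : ℝ) = 1 := by
      rw [← hstN.he j]
      exact congrArg (fun z : B => (z : ℝ)) hw
    have hqB : q (N + 1) j ∈ B := hKB ⟨_, hqn j⟩
    have h5 : s N = (q (N + 1) j - q N j) * (w : ℝ) := by
      have h6 := congrFun (hq N le_rfl) j
      rw [h6]
      linear_combination (-(s N)) * hwr
    rw [h5, ← hstN.hq j]
    exact mul_mem (sub_mem hqB (qN j).2) w.2
  have hsum : (c + ∑ i ∈ Finset.range (N + 1), s i) ∈ B := by
    refine add_mem (by rw [← hc']; exact c'.2) (sum_mem fun i hi => ?_)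
    rcases Nat.lt_succ_iff_lt_or_eq.1 (Finset.mem_range.1 hi) with h5 | h5
    · exact hsB i h5
    · rw [h5]; exact hsN
  by_contra hne
  set y : B := (∑ j, e' j ^ 2) * ⟨_, hsum⟩ ^ 2 with hy
  have hyc : (y : ℝ) = (∑ i, e 0 i ^ 2) * (c + ∑ i ∈ Finset.range (N + 1), s i) ^ 2 := by
    rw [hy]
    change ((∑ j, e' j ^ 2 : B) : ℝ) * _ = _
    rw [AddSubmonoidClass.coe_finsetSum]
    rfl
  have hyres : IsLocalRing.residue B y = 0 := by
    rw [hy, map_mul, hDres, zero_mul]
  refine res_ne_zero_of_algebraic (k := K) B y ?_ ?_ hyres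
  · rw [hyc]; exact hL
  · rw [hyc]; exact hne

end core

section rank
variable {k : Type*} [Field k] [Algebra k ℝ] {m : ℕ}

/-- **The algebraic theorem for loops.** -/
theorem loop_rank [Countable k] {n : ℕ} (hn : 1 ≤ n)
    (P : ℕ → MvPolynomial (Fin (m + 2)) k) (q u ν : ℕ → Fin (m + 2) → ℝ) (t : ℕ → ℝ)
    (hqn : ∀ j, q n j ∈ IntermediateField.adjoin k (range (q 0)))
    (hunit : ∑ j, u 0 j ^ 2 = 1)
    (hP : ∀ i, 1 ≤ i → i < n → aeval (q i) (P i) = 0)
    (hnc : ∀ i, 1 ≤ i → i < n → ¬ Dq k (m + 2) ∣ lead (P i))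
    (hν : ∀ i, 1 ≤ i → i < n → ν i ≠ 0)
    (hpar : ∀ i, 1 ≤ i → i < n → ∀ Φ : MvPolynomial (Fin (m + 2)) k, aeval (q i) Φ = 0 →
      (∀ᶠ y in nhds (q i), aeval y (P i) = 0 → aeval y Φ = 0) → ∃ c : ℝ, grad Φ (q i) = c • ν i)
    (hq : ∀ i < n, q (i + 1) = fun j => q i j + t i * u i j)
    (hu : ∀ i, i + 1 < n → u (i + 1) = refl (ν (i + 1)) (u i))
    (ht : ∑ i ∈ Finset.range n, t i ≠ 0)
    (hx : ((m + 1 : ℕ) : ℕ∞) ≤ rk k (range (q 0))) :
    rk (IntermediateField.adjoin k (range (q 0))) (range (u 0)) ≤ (m : ℕ∞) := by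
  classical
  set K := IntermediateField.adjoin k (range (q 0)) with hK
  by_contra hcon
  rw [not_le] at hcon
  have hgenu : ((m + 1 : ℕ) : ℕ∞) ≤ rk K (range (u 0)) := by
    push_cast
    exact Order.add_one_le_of_lt hcon
  -- a transcendental scale
  obtain ⟨lam, hlam⟩ : ∃ lam : ℝ, lam ∉ cl K (range (u 0)) := by
    have h1 : (cl k (range (q 0) ∪ range (u 0))).Countable := by
      have h2 : range (q 0) ∪ range (u 0) = range (Sum.elim (q 0) (u 0)) := by
        rw [Set.Sum.elim_range]
      rw [h2]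
      exact countable_cl _
    rw [cl_union] at h1
    by_contra hall
    push Not at hall
    have h3 : cl K (range (u 0)) = univ := eq_univ_of_forall hall
    rw [h3] at h1
    exact Set.not_countable_univ h1
  have hlam0 : lam ≠ 0 := by
    rintro rfl
    exact hlam (clAlg K _).zero_mem
  set e : ℕ → Fin (m + 2) → ℝ := fun i j => lam * u i j with he
  set s : ℕ → ℝ := fun i => t i / lam with hs
  have hse : ∀ i < n, q (i + 1) = fun j => q i j + s i * e i j := by
    intro i hi
    rw [hq i hi]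
    funext j
    simp only [hs, he]
    field_simp
  have hee : ∀ i, i + 1 < n → e (i + 1) = refl (ν (i + 1)) (e i) := by
    intro i hi
    simp only [he]
    rw [refl_smul_vec, hu i hi]
  have hunits : ∀ i < n, ∑ j, u i j ^ 2 = 1 := by
    intro i
    induction i with
    | zero => intro _; exact hunit
    | succ i ih =>
      intro hi
      rw [hu i (by omega), refl_sq _ _ (sq_sum_ne _ (hν (i + 1) (by omega) hi))]
      exact ih (by omega)
  -- full rank of the scaled direction
  have hgene : ((m + 2 : ℕ) : ℕ∞) ≤ rk K (range (e 0)) := by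
    have h1 := rk_insert_eq K _ _ hlam
    have h2 : ((m + 2 : ℕ) : ℕ∞) ≤ rk K (insert lam (range (u 0))) := by
      rw [h1]
      have : ((m + 2 : ℕ) : ℕ∞) = ((m + 1 : ℕ) : ℕ∞) + 1 := by norm_cast
      rw [this]
      gcongr
    refine h2.trans (rk_mono K ?_)
    have hecl : ∀ j, e 0 j ∈ clAlg K (range (e 0)) := fun j =>
      subset_cl K _ (mem_range_self j)
    have hlamcl : lam ∈ cl K (range (e 0)) := by
      have h3 : lam ^ 2 ∈ cl K (range (e 0)) := by
        have h4 : lam ^ 2 = ∑ j, e 0 j ^ 2 := by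
          simp only [he, mul_pow]
          rw [← Finset.mul_sum, hunit, mul_one]
        rw [h4]
        exact (clAlg K _).sum_mem fun j _ => pow_mem (hecl j) 2
      rw [mem_cl] at h3 ⊢
      exact h3.of_pow (by norm_num)
    rw [insert_subset_iff]
    refine ⟨hlamcl, ?_⟩
    rintro _ ⟨j, rfl⟩
    have h5 : u 0 j = e 0 j * lam⁻¹ := by
      simp only [he]
      field_simp
    rw [h5]
    exact (clAlg K _).mul_mem (hecl j) (inv_mem_cl K hlamcl)
  -- the shifted starting point
  have he00 : e 0 0 ≠ 0 := by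
    intro h
    have h1 := lin_ne' (k := K) (e 0) hgene (Pi.single 0 1) (by
      intro h; have := congrFun h 0; simp at this)
    apply h1
    rw [Finset.sum_eq_single 0]
    · rw [h, mul_zero]
    · intro j _ hj
      rw [Pi.single_eq_of_ne hj, map_zero, zero_mul]
    · intro h; exact absurd (Finset.mem_univ _) h
  obtain ⟨c, hc⟩ : ∃ c : ℝ, c = -(q 0 0) / e 0 0 := ⟨_, rfl⟩
  have hce : c * e 0 0 = -(q 0 0) := by rw [hc]; field_simp
  obtain ⟨Q, hQ⟩ : ∃ Q : ℕ → Fin (m + 2) → ℝ, Q = fun i =>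
    if i = 0 then (fun j => q 0 j + c * e 0 j) else q i := ⟨_, rfl⟩
  obtain ⟨S, hS⟩ : ∃ S : ℕ → ℝ, S = fun i => if i = 0 then s 0 - c else s i := ⟨_, rfl⟩
  obtain ⟨PP, hPP⟩ : ∃ PP : ℕ → MvPolynomial (Fin (m + 2)) k, PP = fun i =>
    if i = 0 then X 0 else P i := ⟨_, rfl⟩
  obtain ⟨N, rfl⟩ : ∃ N, n = N + 1 := ⟨n - 1, by omega⟩
  have hQ0 : Q 0 = fun j => q 0 j + c * e 0 j := by rw [hQ]; simp
  have hQs : ∀ i, Q (i + 1) = q (i + 1) := by intro i; rw [hQ]; simp
  have hPQ : ∀ i ≤ N, aeval (Q i) (PP i) = 0 := by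
    intro i hi
    rcases i with _ | i
    · rw [hQ0, hPP]
      simp only [if_true, aeval_X]
      rw [hce]; ring
    · rw [hQs, hPP]
      simp only [Nat.succ_ne_zero, if_false]
      exact hP (i + 1) (by omega) (by omega)
  have hncQ : ∀ i ≤ N, ¬ Dq k (m + 2) ∣ lead (PP i) := by
    intro i hi
    rcases i with _ | i
    · rw [hPP]
      simp only [if_true]
      exact lead_X (Dq_ne_zero k m)
    · rw [hPP]
      simp only [Nat.succ_ne_zero, if_false]
      exact hnc (i + 1) (by omega) (by omega)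
  have hQstep : ∀ i ≤ N, Q (i + 1) = fun j => Q i j + S i * e i j := by
    intro i hi
    rw [hQs, hse i (by omega)]
    funext j
    rcases i with _ | i
    · rw [hQ0, hS]
      simp only [if_true]
      ring
    · rw [hQs, hS]
      simp only [Nat.succ_ne_zero, if_false]
  -- real genericity
  have hG0 : ((2 * m + 3 : ℕ) : ℕ∞) ≤ rk k (range (Q 0) ∪ range (e 0)) := by
    have hrk : rk k (range (q 0)) + ((m + 2 : ℕ) : ℕ∞) ≤ rk k (range (q 0) ∪ range (e 0)) := by
      refine le_trans ?_ (rk_tower k (range (q 0)) (range (e 0)) (finite_range _))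
      gcongr
    refine shift_rank (k := k) (2 * m + 3) (q 0) (Q 0) (e 0) c ?_ ?_
    · rw [hQ0]
      funext j
      ring
    · by_cases hfull : ((m + 2 : ℕ) : ℕ∞) ≤ rk k (range (q 0))
      · left
        refine le_trans ?_ hrk
        have : ((2 * m + 3 + 1 : ℕ) : ℕ∞) = ((m + 2 : ℕ) : ℕ∞) + ((m + 2 : ℕ) : ℕ∞) := by
          norm_cast
          omega
        rw [this]
        gcongr
      · right
        constructor
        · refine le_trans ?_ hrk
          have : ((2 * m + 3 : ℕ) : ℕ∞) = ((m + 1 : ℕ) : ℕ∞) + ((m + 2 : ℕ) : ℕ∞) := by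
            norm_cast
            omega
          rw [this]
          gcongr
        · obtain ⟨Ψ, hΨ, j0, hj0⟩ := exists_rel (q 0) hx hfull
          refine ⟨Ψ, hΨ, ?_⟩
          have hmem : ∀ j, aeval (q 0) (pderiv j Ψ) ∈ K := fun j =>
            aeval_mem_F K.toSubfield (fun a => K.algebraMap_mem a) (q 0)
              (fun i => IntermediateField.subset_adjoin k _ (mem_range_self i)) _
          exact lin_ne' (k := K) (e 0) hgene (fun j => ⟨aeval (q 0) (pderiv j Ψ), hmem j⟩)
            (fun h => hj0 (congrArg Subtype.val (congrFun h j0)))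
  have hRG : ∀ i ≤ N, ((2 * m + 3 : ℕ) : ℕ∞) ≤ rk k (range (Q i) ∪ range (e i)) := by
    intro i
    induction i with
    | zero => intro _; exact hG0
    | succ i ih =>
      intro hi
      exact real_step (PP i) (PP (i + 1)) (hncQ i (by omega)) (hncQ (i + 1) hi) (Q i) (e i)
        (Q (i + 1)) (e (i + 1)) (ν (i + 1)) (S i) (hPQ i (by omega)) (hPQ (i + 1) hi)
        (ih (by omega)) (hQstep i (by omega)) (hee i (by omega)) (by
          rw [hQs, hPP]
          simp only [Nat.succ_ne_zero, if_false]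
          exact hpar (i + 1) (by omega) (by omega))
  have hΦex : ∀ i, ∃ Φ : MvPolynomial (Fin (m + 2)) k, 1 ≤ i → i ≤ N → (aeval (q i) Φ = 0 ∧
      grad Φ (q i) ≠ 0 ∧ ∀ e, refl (ν i) e = refl (grad Φ (q i)) e) := by
    intro i
    by_cases hi : 1 ≤ i ∧ i ≤ N
    · obtain ⟨i, rfl⟩ : ∃ l, i = l + 1 := ⟨i - 1, by omega⟩
      have hr := rk_pos_ge (Q (i + 1)) (e (i + 1)) (hRG (i + 1) hi.2)
      rw [hQs] at hr
      obtain ⟨Φ, h1⟩ := real_normal (P (i + 1)) (hnc (i + 1) hi.1 (by omega)) (q (i + 1))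
        (ν (i + 1)) (hP (i + 1) hi.1 (by omega)) hr (hpar (i + 1) hi.1 (by omega))
      exact ⟨Φ, fun _ _ => h1⟩
    · exact ⟨0, fun h h' => absurd ⟨h, h'⟩ hi⟩
  choose Φ hΦ using hΦex
  have halg : IsAlgebraic K (∑ i ∈ Finset.range (N + 1), t i) := by
    apply length_alg Φ q u t hn hqn hunits (fun i h1 hi => (hΦ i h1 (by omega)).1) hq
    intro i hi
    rw [hu i hi]
    exact (hΦ (i + 1) (by omega) (by omega)).2.2 _
  have hsS : c + ∑ i ∈ Finset.range (N + 1), S i = ∑ i ∈ Finset.range (N + 1), s i := by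
    rw [Finset.sum_range_succ', Finset.sum_range_succ' s, hS]
    simp only [Nat.succ_ne_zero, if_false, if_true]
    ring
  have hsum : (∑ i, e 0 i ^ 2) * (c + ∑ i ∈ Finset.range (N + 1), S i) ^ 2 =
      (∑ i ∈ Finset.range (N + 1), t i) ^ 2 := by
    have h1 : ∑ i, e 0 i ^ 2 = lam ^ 2 := by
      simp only [he, mul_pow]
      rw [← Finset.mul_sum, hunit, mul_one]
    have h2 : ∑ i ∈ Finset.range (N + 1), s i = (∑ i ∈ Finset.range (N + 1), t i) / lam := by
      rw [Finset.sum_div]
    rw [hsS, h1, h2]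
    field_simp
  have hcore := core_loop (N := N) PP Φ (q 0) c Q e S hx hgene hQ0 hce hPQ hncQ
    (fun i hi => by rw [hQs]; exact (hΦ (i + 1) (by omega) (by omega)).2.1) hQstep
    (fun i hi => by
      rw [hQs, hee i (by omega)]
      exact (hΦ (i + 1) (by omega) (by omega)).2.2 _)
    (fun j => by rw [hQs]; exact hqn j) (by
      rw [hsum]; exact halg.pow 2)
  rw [hsum] at hcore
  exact ht (pow_eq_zero_iff two_ne_zero |>.1 hcore)

end rank

end Pool.Agent.TH746.AL
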