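import Pool.Agent.TH746.AL.Null
import Pool.Agent.TH746.AL.Chart
import Pool.Agent.TH746.Final
import Pool.Agent.TH746.UM.SChn
import Pool.Agent.H450R2.Al.Table

/-!
Orbits with one arbitrary bounce, all the others being at noncircular algebraic boundary points.
-/

set_option autoImplicit false

open MeasureTheory Set Filter Topology
open scoped InnerProductSpace
open Pool.Agent.H721R2.Quart Pool.Agent.H721R2.Ivrii

namespace Pool.Agent.TH746.AL

open Pool.Agent.TH746 Pool.Agent.TH746.UM MvPolynomial H450Al H450Sp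

/-- `q` is a noncircular algebraic boundary point: near `q` the boundary is contained in the zero
set of a real polynomial the leading form of which is not divisible by `X₁² + ... + X_d²`. -/
def AlgAt {d : ℕ} (Ω : Set (EuclideanSpace ℝ (Fin d))) (q : EuclideanSpace ℝ (Fin d)) : Prop :=
  ∃ P : MvPolynomial (Fin d) ℝ, ¬ (∑ i, X i ^ 2) ∣ homogeneousComponent P.totalDegree P ∧
    ∀ᶠ y in 𝓝 q, y ∈ frontier Ω → eval y.ofLp P = 0

variable {m : ℕ}

/-- `P` is noncircular and vanishes on the boundary points in `B` -/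
def Fit (Ω : Set (EE m)) (P : MvPolynomial (Fin (m + 2)) ℝ) (B : Set (EE m)) : Prop :=
  ¬ (∑ i, X i ^ 2) ∣ homogeneousComponent P.totalDegree P ∧
    ∀ y ∈ B, y ∈ frontier Ω → eval y.ofLp P = 0

/-- a countable field over which the algebraic pieces of the boundary and the symmetry are
defined -/
theorem exists_field (Ω : Set (EE m)) (g : EE m ≃ᵃⁱ[ℝ] EE m) :
    ∃ k : Subfield ℝ, Countable k ∧ (∀ j, (g 0).ofLp j ∈ k) ∧
      (∀ i j, (g.linearIsometryEquiv (EuclideanSpace.single i 1)).ofLp j ∈ k) ∧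
      ∀ q, AlgAt Ω q → ∃ (B : Set (EE m)) (P : MvPolynomial (Fin (m + 2)) k), IsOpen B ∧ q ∈ B ∧
        ¬ Dq k (m + 2) ∣ lead P ∧ ∀ y ∈ B, y ∈ frontier Ω → aeval y.ofLp P = 0 := by
  classical
  set 𝓑 := TopologicalSpace.countableBasis (EE m) with h𝓑
  have hcount : Countable {B : Set (EE m) // B ∈ 𝓑 ∧ ∃ P, Fit Ω P B} := by
    have h1 : Countable 𝓑 := (TopologicalSpace.countable_countableBasis (EE m)).to_subtype
    exact Function.Injective.countable (f := fun B : {B : Set (EE m) // B ∈ 𝓑 ∧ ∃ P, Fit Ω P B} =>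
      (⟨B.1, B.2.1⟩ : 𝓑)) (fun a b hab => Subtype.ext (congrArg (fun z : 𝓑 => z.1) hab))
  set ι := {B : Set (EE m) // B ∈ 𝓑 ∧ ∃ P, Fit Ω P B} with hι
  set PR : ι → MvPolynomial (Fin (m + 2)) ℝ := fun B => B.2.2.choose with hPR
  have hPf : ∀ B : ι, Fit Ω (PR B) B.1 := fun B => B.2.2.choose_spec
  have hopen : ∀ B : ι, IsOpen B.1 := fun B =>
    (TopologicalSpace.isBasis_countableBasis (EE m)).isOpen B.2.1
  -- the field of constants
  set C : Set ℝ := (⋃ B : ι, ((PR B).coeffs : Set ℝ)) ∪ (range (fun j => (g 0).ofLp j) ∪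
    range (fun z : Fin (m + 2) × Fin (m + 2) =>
      (g.linearIsometryEquiv (EuclideanSpace.single z.1 1)).ofLp z.2)) with hC
  have hCc : C.Countable := (countable_iUnion fun B => (PR B).coeffs.countable_toSet).union
    ((countable_range _).union (countable_range _))
  set k : Subfield ℝ := Subfield.closure C with hk
  have hkc : Countable k := by
    have h1 := Subfield.cardinalMk_closure_le_max C
    rw [← Cardinal.mk_le_aleph0_iff]
    refine h1.trans ?_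
    rw [max_eq_right]
    exact Cardinal.mk_le_aleph0_iff.2 hCc.to_subtype
  have hdesc : ∀ B : ι, ∃ P : MvPolynomial (Fin (m + 2)) k, map (algebraMap k ℝ) P = PR B := by
    intro B
    have h1 : PR B ∈ Set.range (map (algebraMap k ℝ) :
        MvPolynomial (Fin (m + 2)) k →+* MvPolynomial (Fin (m + 2)) ℝ) := by
      have h2 := (MvPolynomial.mem_range_map_iff_coeffs_subset (f := algebraMap k ℝ)
        (x := PR B)).2 (by
          intro a ha
          have h3 : a ∈ k := Subfield.subset_closure (Or.inl (mem_iUnion.2 ⟨B, ha⟩))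
          exact ⟨⟨a, h3⟩, rfl⟩)
      exact h2
    exact h1
  choose P hPmap using hdesc
  refine ⟨k, hkc, fun j => Subfield.subset_closure (Or.inr (Or.inl ⟨j, rfl⟩)),
    fun i j => Subfield.subset_closure (Or.inr (Or.inr ⟨(i, j), rfl⟩)), ?_⟩
  rintro q ⟨Q, hQ1, hQ2⟩
  obtain ⟨B, hB, hxB, hsub⟩ :=
    (TopologicalSpace.isBasis_countableBasis (EE m)).mem_nhds_iff.1 hQ2
  obtain ⟨B', hB'⟩ : ∃ B' : ι, B'.1 = B := ⟨⟨B, hB, Q, hQ1, fun y hy => hsub hy⟩, rfl⟩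
  refine ⟨B'.1, P B', hopen B', by rw [hB']; exact hxB, ?_, ?_⟩
  · apply descend_lead
    rw [hPmap]
    exact (hPf B').1
  · intro y hy hfy
    rw [← eval_map_aeval, hPmap]
    exact (hPf B').2 y hy hfy

/-- the image of a point under the symmetry is rational over the point -/
theorem g_mem (g : EE m ≃ᵃⁱ[ℝ] EE m) (k : Subfield ℝ) (h1 : ∀ j, (g 0).ofLp j ∈ k)
    (h2 : ∀ i j, (g.linearIsometryEquiv (EuclideanSpace.single i 1)).ofLp j ∈ k) (x : EE m)
    (j : Fin (m + 2)) : (g x).ofLp j ∈ IntermediateField.adjoin k (range x.ofLp) := by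
  have hx : x = ∑ i, x.ofLp i • (EuclideanSpace.single i (1 : ℝ) : EE m) := by
    ext j
    simp [Pi.single_apply]
  have e1 := g.map_vsub x 0
  simp only [vsub_eq_sub, sub_zero] at e1
  have e2 : g x = g.linearIsometryEquiv x + g 0 := by rw [e1]; abel
  have e3 : g.linearIsometryEquiv x = ∑ i, x.ofLp i •
      g.linearIsometryEquiv (EuclideanSpace.single i (1 : ℝ)) := by
    conv_lhs => rw [hx]
    rw [map_sum]
    simp only [map_smul]
  have e4 : (g x).ofLp j = (∑ i, x.ofLp i *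
      (g.linearIsometryEquiv (EuclideanSpace.single i (1 : ℝ))).ofLp j) + (g 0).ofLp j := by
    rw [e2, e3]
    simp
  rw [e4]
  refine add_mem (sum_mem fun i _ => mul_mem (IntermediateField.subset_adjoin k _
    (mem_range_self i)) ?_) ?_
  · exact (IntermediateField.adjoin k (range x.ofLp)).algebraMap_mem ⟨_, h2 i j⟩
  · exact (IntermediateField.adjoin k (range x.ofLp)).algebraMap_mem ⟨_, h1 j⟩

theorem orbit_low {Ω : Set (EE m)} {g h : EE m ≃ᵃⁱ[ℝ] EE m} (hg : g ⁻¹' Ω = Ω) (k : Subfield ℝ)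
    [Countable k] (h1 : ∀ j, (h 0).ofLp j ∈ k)
    (h2 : ∀ i j, (h.linearIsometryEquiv (EuclideanSpace.single i 1)).ofLp j ∈ k)
    (h3 : ∀ q, AlgAt Ω q → ∃ (B : Set (EE m)) (P : MvPolynomial (Fin (m + 2)) k), IsOpen B ∧
      q ∈ B ∧ ¬ Dq k (m + 2) ∣ lead P ∧ ∀ y ∈ B, y ∈ frontier Ω → aeval y.ofLp P = 0)
    {n c : ℕ} {p u : ℕ → EE m} (hor : OrbitMod Ω g n p u) (hc : 1 ≤ c) (hpc : p c = h (p 0))
    (ha : ∀ i, 1 ≤ i → i < c → AlgAt Ω (p i)) :
    rk k (range (p 0).ofLp) ≤ (m : ℕ∞) ∨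
      rk (IntermediateField.adjoin k (range (p 0).ofLp)) (range (u 0).ofLp) ≤ (m : ℕ∞) := by
  classical
  by_cases hx : rk k (range (p 0).ofLp) ≤ (m : ℕ∞)
  · exact Or.inl hx
  right
  have hx' : ((m + 1 : ℕ) : ℕ∞) ≤ rk k (range (p 0).ofLp) := by
    rw [not_le] at hx
    push_cast
    exact Order.add_one_le_of_lt hx
  obtain ⟨D⟩ := exists_mirrs hg hor
  have hst : ∀ k, u (k + 1) = rf (dir (gradient (D.F (k + 1)) (p (k + 1)))) (u k) ∧
      ⟪gradient (D.F (k + 1)) (p (k + 1)), u k⟫_ℝ ≠ 0 ∧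
      ∃ t : ℝ, 0 < t ∧ p (k + 1) = p k + t • u k :=
    fun k => step_refl' (hor.step k) (D.df (k + 1))
  have hst3 := fun k => (hst k).2.2
  choose t htp hpt using hst3
  have hbox : ∀ i, ∃ (B : Set (EE m)) (P : MvPolynomial (Fin (m + 2)) k), 1 ≤ i → i < c →
      IsOpen B ∧ p i ∈ B ∧ ¬ Dq k (m + 2) ∣ lead P ∧
        ∀ y ∈ B, D.F i y = 0 → aeval y.ofLp P = 0 := by
    intro i
    by_cases hi : 1 ≤ i ∧ i < c
    · obtain ⟨B, P, hB, hpB, hl, hv⟩ := h3 (p i) (ha i hi.1 hi.2)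
      obtain ⟨O, hO, hOo, hpO⟩ := eventually_nhds_iff.1 (localDef_of_zero (D.df i))
      exact ⟨B ∩ O, P, fun _ _ => ⟨hB.inter hOo, ⟨hpB, hpO⟩, hl, fun y hy hFy =>
        hv y hy.1 (ldef_frontier (hO y hy.2 hFy))⟩⟩
    · exact ⟨∅, 0, fun a b => absurd ⟨a, b⟩ hi⟩
  choose B P hBP using hbox
  have hunit := unit_steps hor.step hor.unit 0
  refine loop_rank (k := k) (m := m) (n := c) hc P (fun i => (p i).ofLp)
    (fun i => (u i).ofLp) (fun i => (gradient (D.F i) (p i)).ofLp) t ?_ ?_ ?_ ?_ ?_ ?_ ?_ ?_ ?_ hx'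
  · intro j
    simp only [hpc]
    exact g_mem h k h1 h2 (p 0) j
  · rw [← hunit, real_inner_self_eq_norm_sq, EuclideanSpace.norm_sq_eq]
    apply Finset.sum_congr rfl
    intro j _
    rw [Real.norm_eq_abs, sq_abs]
  · intro i hi1 hi
    exact (hBP i hi1 hi).2.2.2 (p i) (hBP i hi1 hi).2.1 (D.df i).zero
  · intro i hi1 hi
    exact (hBP i hi1 hi).2.2.1
  · intro i hi1 hi h0
    apply (D.df i).grad
    have : gradient (D.F i) (p i) = WithLp.toLp 2 (gradient (D.F i) (p i)).ofLp := rfl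
    rw [this, h0]
    rfl
  · intro i hi1 hi Φ _ hev
    exact par_normal (D.F i) (B i) (hBP i hi1 hi).1 (P i) Φ (hBP i hi1 hi).2.2.2 (p i)
      (hBP i hi1 hi).2.1 (D.df i).zero ((D.df i).smooth.of_le (by norm_num)) (D.df i).grad hev
  · intro i _
    simp only
    rw [hpt i]
    funext j
    rfl
  · intro i _
    simp only
    rw [(hst i).1, rf_dir]
    funext j
    have e1 : ⟪u i, gradient (D.F (i + 1)) (p (i + 1))⟫_ℝ =
        ∑ j, (u i).ofLp j * (gradient (D.F (i + 1)) (p (i + 1))).ofLp j := by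
      rw [inner_dot]; rfl
    have e2 : ‖gradient (D.F (i + 1)) (p (i + 1))‖ ^ 2 =
        ∑ j, (gradient (D.F (i + 1)) (p (i + 1))).ofLp j ^ 2 := by
      rw [EuclideanSpace.norm_sq_eq]
      apply Finset.sum_congr rfl
      intro j _
      rw [Real.norm_eq_abs, sq_abs]
    unfold H450Al.refl
    rw [← e1, ← e2]
    rfl
  · refine ne_of_gt (Finset.sum_pos (fun i _ => htp i) ⟨0, Finset.mem_range.2 (by omega)⟩)

/-- The phase points after `l` bounces of the periodic orbits (modulo `g`) which come back to the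
initial boundary point (modulo `h`) after `c` bounces, with all bounces in between at noncircular
algebraic points. -/
def Pa {d : ℕ} (Ω : Set (EuclideanSpace ℝ (Fin d)))
    (g h : EuclideanSpace ℝ (Fin d) ≃ᵃⁱ[ℝ] EuclideanSpace ℝ (Fin d)) (n c l : ℕ) :
    Set (EuclideanSpace ℝ (Fin d) × EuclideanSpace ℝ (Fin d)) :=
  (fun w : (ℕ → EuclideanSpace ℝ (Fin d)) × (ℕ → EuclideanSpace ℝ (Fin d)) => (w.1 l, w.2 l)) ''
    {w | OrbitMod Ω g n w.1 w.2 ∧ w.1 c = h (w.1 0) ∧ ∀ k, 1 ≤ k → k < c → AlgAt Ω (w.1 k)}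

theorem pa_null {Ω : Set (EE m)} {g h : EE m ≃ᵃⁱ[ℝ] EE m} (hg : g ⁻¹' Ω = Ω) {n c l : ℕ}
    (hl : l ≤ n) (hc : 1 ≤ c) : μH[((2 * (m + 2) - 2 : ℕ) : ℝ)] (Pa Ω g h n c l) = 0 := by
  obtain ⟨k, hkc, k1, k2, k3⟩ := exists_field Ω h
  apply null_of_locally_null
  rintro ⟨p, u⟩ ⟨hor, -⟩
  obtain ⟨a, b, U, X, Y, s, P, Q, ha, hb, hU, hs0, hY1, hP, hQ, hPX, hQY, hL, hev⟩ :=
    exists_par hg hor
  have hfa : Module.finrank ℝ ((ℝ ∙ a)ᗮ : Submodule ℝ (EE m)) = m + 1 := by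
    have h1 := Submodule.finrank_add_finrank_orthogonal (ℝ ∙ a)
    rw [finrank_span_singleton ha, finrank_euclideanSpace_fin] at h1
    omega
  have hfb : Module.finrank ℝ ((ℝ ∙ b)ᗮ : Submodule ℝ (EE m)) = m + 1 := by
    have h1 := Submodule.finrank_add_finrank_orthogonal (ℝ ∙ b)
    rw [finrank_span_singleton hb, finrank_euclideanSpace_fin] at h1
    omega
  obtain ⟨K0, hK0⟩ := hL 0 (Nat.zero_le _)
  have h0 := fub_null (k := k) hfa hfb U hU X Y (by rw [← hs0]; exact hK0.continuousOn)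
    (fun z hz => by
      rw [← hY1 z hz, real_inner_self_eq_norm_sq, EuclideanSpace.norm_sq_eq]
      apply Finset.sum_congr rfl
      intro j _
      rw [Real.norm_eq_abs, sq_abs]) P hP Q hQ hPX hQY
  obtain ⟨A, hA⟩ : ∃ A, A = {z : (ℝ ∙ a)ᗮ × (ℝ ∙ b)ᗮ | z ∈ U ∧
      (rk k (range (X z.1).ofLp) ≤ (m : ℕ∞) ∨
        rk (IntermediateField.adjoin k (range (X z.1).ofLp)) (range (Y z.2).ofLp) ≤
          (m : ℕ∞))} := ⟨_, rfl⟩
  have hfr : Module.finrank ℝ ((ℝ ∙ a)ᗮ × (ℝ ∙ b)ᗮ) = 2 * (m + 2) - 2 := by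
    rw [Module.finrank_prod, hfa, hfb]
    omega
  rw [← hA, hfr] at h0
  obtain ⟨K, hK⟩ := hL l hl
  refine ⟨s l '' A, ?_, ?_⟩
  · have hK' : LipschitzOnWith K (s l) A := hK.mono fun z hz => by rw [hA] at hz; exact hz.1
    have h1 := hK'.hausdorffMeasure_image_le
      (d := ((2 * (m + 2) - 2 : ℕ) : ℝ)) (Nat.cast_nonneg _)
    rw [h0, mul_zero] at h1
    exact nonpos_iff_eq_zero.mp h1
  · filter_upwards [hev] with w hw hor'
    obtain ⟨z, hzU, hz⟩ := hw hor'.1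
    refine ⟨z, ?_, hz l hl⟩
    have hz0 := hz 0 (Nat.zero_le _)
    rw [hs0] at hz0
    have hx0 : X z.1 = w.1 0 := congrArg Prod.fst hz0
    have hy0 : Y z.2 = w.2 0 := congrArg Prod.snd hz0
    rw [hA]
    refine ⟨hzU, ?_⟩
    rw [hx0, hy0]
    exact orbit_low hg k k1 k2 k3 hor'.1 hc hor'.2.1 hor'.2.2

/-- The phase points of the periodic orbits (modulo `Γ`) which come back to one of their bounce
points (modulo `Γ`) within a period with all bounces in between at noncircular algebraic boundary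
points. -/
def PerLoop {d : ℕ} (Γ : Set (EuclideanSpace ℝ (Fin d) ≃ᵃⁱ[ℝ] EuclideanSpace ℝ (Fin d)))
    (Ω : Set (EuclideanSpace ℝ (Fin d))) :
    Set (EuclideanSpace ℝ (Fin d) × EuclideanSpace ℝ (Fin d)) :=
  {z | ∃ g ∈ Γ, ∃ (n : ℕ) (p u : ℕ → EuclideanSpace ℝ (Fin d)), OrbitMod Ω g n p u ∧
    (p 0, u 0) = z ∧ ∃ a b : ℕ, a < n ∧ a < b ∧ b ≤ a + n ∧ (∃ h ∈ Γ, p b = h (p a)) ∧
      ∀ k, a < k → k < b → AlgAt Ω (p k)}

/-- In particular (`b = a + n`, `h = g`): the periodic orbits with at most one bounce in a period at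
a point which is not a noncircular algebraic boundary point. -/
theorem one_sub_perLoop {d : ℕ}
    (Γ : Set (EuclideanSpace ℝ (Fin d) ≃ᵃⁱ[ℝ] EuclideanSpace ℝ (Fin d)))
    (Ω : Set (EuclideanSpace ℝ (Fin d))) :
    {z | ∃ g ∈ Γ, ∃ (n : ℕ) (p u : ℕ → EuclideanSpace ℝ (Fin d)), OrbitMod Ω g n p u ∧
      (p 0, u 0) = z ∧ ∃ a < n, ∀ k, a < k → k < a + n → AlgAt Ω (p k)} ⊆ PerLoop Γ Ω := by
  rintro z ⟨g, hg, n, p, u, h, hz, a, ha, hk⟩
  have hn := h.pos
  exact ⟨g, hg, n, p, u, h, hz, a, a + n, ha, by omega, le_rfl, ⟨g, hg, h.perp a⟩, hk⟩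

theorem perLoop_null {d : ℕ} (hd : 2 ≤ d) (Ω : Set (EuclideanSpace ℝ (Fin d)))
    (Γ : Set (EuclideanSpace ℝ (Fin d) ≃ᵃⁱ[ℝ] EuclideanSpace ℝ (Fin d)))
    (hΓ : Γ.Countable) (hinv : ∀ g ∈ Γ, g ⁻¹' Ω = Ω) :
    μH[((2 * d - 2 : ℕ) : ℝ)] (PerLoop Γ Ω) = 0 := by
  obtain ⟨m, rfl⟩ : ∃ m, d = m + 2 := ⟨d - 2, by omega⟩
  refine measure_mono_null (t := ⋃ g ∈ Γ, ⋃ h ∈ Γ, ⋃ n : ℕ, ⋃ c : ℕ, ⋃ l : ℕ, ⋃ (_ : 1 ≤ c),
    ⋃ (_ : l ≤ n),
    {z : EE m × EE m | (g z.1, g.linearIsometryEquiv z.2) ∈ Pa Ω g h n c l}) ?_ ?_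
  · rintro z ⟨g, hgΓ, n, p, u, hor, rfl, a, b, han, hab, hbn, ⟨h, hhΓ, hpb⟩, ha⟩
    refine mem_iUnion₂.2 ⟨g, hgΓ, mem_iUnion₂.2 ⟨h, hhΓ, mem_iUnion.2 ⟨n, mem_iUnion.2 ⟨b - a,
      mem_iUnion.2 ⟨n - a, mem_iUnion₂.2 ⟨by omega, Nat.sub_le _ _, ?_⟩⟩⟩⟩⟩⟩
    refine ⟨(fun k => p (k + a), fun k => u (k + a)), ⟨OrbitMod.shift' hor a, ?_, ?_⟩, ?_⟩
    · simp only
      rw [show b - a + a = b by omega, hpb, zero_add]
    · intro k hk1 hk
      exact ha (k + a) (by omega) (by omega)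
    · simp only
      have h1 : n - a + a = 0 + n := by omega
      rw [h1, hor.perp, hor.peru]
  · refine (measure_biUnion_null_iff hΓ).2 fun g hg => (measure_biUnion_null_iff hΓ).2 fun h _ =>
      measure_iUnion_null fun n => measure_iUnion_null fun c => measure_iUnion_null fun l =>
      measure_iUnion_null fun hc => measure_iUnion_null fun hl => ?_
    exact pull g (2 * (m + 2) - 2) (Pa Ω g h n c l) (pa_null (hinv g hg) hl hc)

end Pool.Agent.TH746.AL
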