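import Pool.Agent.TH746.AL.Loop

/-!
Fubini: the pairs (point, direction) for which the point has rank at most `d - 2` over `k`, or the
direction has rank at most `d - 2` over the field generated by the point, are negligible.
-/

set_option autoImplicit false

open MeasureTheory
open scoped NNReal ENNReal

namespace Pool.Agent.TH746.AL

open MvPolynomial Set H450Al

section dep
variable {k : Type*} [Field k] [Algebra k ℝ] {m : ℕ}

/-- evaluation of the coefficients -/
noncomputable def ev (k : Type*) [Field k] [Algebra k ℝ] (x : Fin (m + 2) → ℝ) :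
    MvPolynomial (Fin (m + 2)) k →+* ℝ :=
  (aeval x : MvPolynomial (Fin (m + 2)) k →ₐ[k] ℝ).toRingHom

theorem exists_dep (x : Fin (m + 2) → ℝ) (w : Fin (m + 1) → ℝ)
    (h : rk (IntermediateField.adjoin k (range x)) (range w) ≤ (m : ℕ∞)) :
    ∃ P : MvPolynomial (Fin (m + 1)) (MvPolynomial (Fin (m + 2)) k),
      map (ev k x) P ≠ 0 ∧ eval w (map (ev k x) P) = 0 := by
  by_contra hcon
  push Not at hcon
  have hφ : ∀ p : MvPolynomial (Fin (m + 2)) k, aeval x p ∈ Algebra.adjoin k (range x) := by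
    intro p
    rw [Algebra.adjoin_range_eq_range_aeval]
    exact ⟨p, rfl⟩
  set ψ : MvPolynomial (Fin (m + 2)) k →+* Algebra.adjoin k (range x) :=
    ((aeval x : MvPolynomial (Fin (m + 2)) k →ₐ[k] ℝ).codRestrict _ hφ).toRingHom with hψ
  have hsurj : Function.Surjective ψ := by
    rintro ⟨a, ha⟩
    have ha' := ha
    rw [Algebra.adjoin_range_eq_range_aeval] at ha'
    obtain ⟨p, hp⟩ := ha'
    exact ⟨p, Subtype.ext hp⟩
  have hcomp : (algebraMap (Algebra.adjoin k (range x)) ℝ).comp ψ = ev k x :=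
    RingHom.ext fun p => rfl
  have hind : AlgebraicIndependent (Algebra.adjoin k (range x)) w := by
    rw [algebraicIndependent_iff]
    intro p hp
    obtain ⟨P, rfl⟩ := map_surjective ψ hsurj p
    have h1 : map (algebraMap (Algebra.adjoin k (range x)) ℝ) (map ψ P) = map (ev k x) P := by
      rw [map_map, hcomp]
    have h2 : eval w (map (ev k x) P) = 0 := by
      rw [← h1, eval_map, ← aeval_def]
      exact hp
    have h4 : map (ev k x) P = 0 := by
      by_contra hne
      exact hcon P hne h2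
    rw [← h1] at h4
    exact (map_injective (algebraMap (Algebra.adjoin k (range x)) ℝ) Subtype.val_injective)
      (by rw [h4, map_zero])
  have hindK := IntermediateField.algebraicIndependent_adjoin_iff.2 hind
  have h5 := rk_of_indep (IntermediateField.adjoin k (range x)) w univ
    (hindK.comp (fun j : (univ : Set (Fin (m + 1))) => j.1) Subtype.val_injective)
  rw [encard_univ] at h5
  have h6 : ((m + 1 : ℕ) : ℕ∞) ≤ (m : ℕ∞) := by
    refine le_trans ?_ (h5.trans h)
    simp
  have := Nat.cast_le.1 h6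
  omega

theorem dep_low (x : Fin (m + 2) → ℝ) (v : Fin (m + 2) → ℝ) (hv : ∑ j, v j ^ 2 = 1)
    (P : MvPolynomial (Fin (m + 1)) (MvPolynomial (Fin (m + 2)) k))
    (h1 : map (ev k x) P ≠ 0) (h2 : eval (fun j => v j.succ) (map (ev k x) P) = 0) :
    rk (IntermediateField.adjoin k (range x)) (range v) ≤ (m : ℕ∞) := by
  set K := IntermediateField.adjoin k (range x) with hK
  set ψ : MvPolynomial (Fin (m + 2)) k →+* K :=
    (aeval (fun j => (⟨x j, IntermediateField.subset_adjoin k _ (mem_range_self j)⟩ : K)) :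
      MvPolynomial (Fin (m + 2)) k →ₐ[k] K).toRingHom with hψ
  have hcomp : (algebraMap K ℝ).comp ψ = ev k x := by
    apply MvPolynomial.ringHom_ext
    · intro a
      change algebraMap K ℝ (aeval _ (C a)) = aeval x (C a)
      rw [algHom_C, algHom_C]
      exact (IsScalarTower.algebraMap_apply k K ℝ a).symm
    · intro i
      change algebraMap K ℝ (aeval _ (X i)) = aeval x (X i)
      rw [aeval_X, aeval_X]
      rfl
  have h3 : map (algebraMap K ℝ) (map ψ P) = map (ev k x) P := by
    rw [map_map, hcomp]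
  have h4 : map ψ P ≠ 0 := by
    intro h
    rw [h, map_zero] at h3
    exact h1 h3.symm
  have h5 : aeval (fun j => v j.succ) (map ψ P) = 0 := by
    rw [← h2, ← h3, eval_map, aeval_def]
  have h6 := rk_lt_of_relation K (fun j : Fin (m + 1) => v j.succ) (map ψ P) h4 h5
  refine le_trans (rk_mono K ?_) h6
  rintro _ ⟨j, rfl⟩
  refine Fin.cases ?_ (fun i => subset_cl K _ (mem_range_self i)) j
  have h7 : v 0 ^ 2 ∈ cl K (range fun j : Fin (m + 1) => v j.succ) := by
    have h8 : v 0 ^ 2 = 1 - ∑ i : Fin (m + 1), v i.succ ^ 2 := by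
      rw [← hv, Fin.sum_univ_succ]; ring
    rw [h8]
    exact (clAlg K _).sub_mem (one_mem _)
      ((clAlg K _).sum_mem fun i _ => pow_mem (subset_cl K _ (mem_range_self i)) 2)
  rw [mem_cl] at h7 ⊢
  exact h7.of_pow (by norm_num)

theorem rk_tail_le (K : Type*) [Field K] [Algebra K ℝ] (v : Fin (m + 2) → ℝ) :
    rk K (range fun j : Fin (m + 1) => v j.succ) ≤ rk K (range v) := by
  apply rk_mono'
  rintro _ ⟨j, rfl⟩
  exact ⟨j.succ, rfl⟩

theorem countable_adjoin [Countable k] (x : Fin (m + 2) → ℝ) :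
    Countable (IntermediateField.adjoin k (range x)) := by
  have h1 : ((IntermediateField.adjoin k (range x) : IntermediateField k ℝ) : Set ℝ) ⊆
      cl k (range x) := by
    intro a ha
    have h2 := cl_union k (range x) ∅
    rw [union_empty] at h2
    rw [h2]
    exact (clAlg (IntermediateField.adjoin k (range x)) ∅).algebraMap_mem ⟨a, ha⟩
  exact ((countable_cl x).mono h1).to_subtype

theorem continuous_ev (P : MvPolynomial (Fin (m + 1)) (MvPolynomial (Fin (m + 2)) k)) :
    Continuous (fun z : (Fin (m + 2) → ℝ) × (Fin (m + 1) → ℝ) => eval z.2 (map (ev k z.1) P)) := by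
  induction P using MvPolynomial.induction_on with
  | C a =>
    have : (fun z : (Fin (m + 2) → ℝ) × (Fin (m + 1) → ℝ) =>
        eval z.2 (map (ev k z.1) (C a))) = fun z => aeval z.1 a := by
      funext z
      rw [map_C, eval_C]
      rfl
    rw [this]
    exact (continuous_aeval' a).comp continuous_fst
  | add p q hp hq =>
    simp only [map_add]
    exact hp.add hq
  | mul_X p i hp =>
    simp only [map_mul, map_X, eval_X]
    exact hp.mul ((continuous_apply i).comp continuous_snd)

end dep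

section low
variable {m : ℕ}

theorem dimH_lowE (κ : Type*) [Field κ] [Algebra κ ℝ] [Countable κ] :
    dimH {y : EuclideanSpace ℝ (Fin (m + 2)) | rk κ (range y.ofLp) ≤ (m : ℕ∞)} ≤
      (m : ℝ≥0∞) := by
  have h1 := dimH_low (k := κ) (ι := Fin (m + 2)) m
  have h2 := (EuclideanSpace.equiv (Fin (m + 2)) ℝ).dimH_preimage
    {x : Fin (m + 2) → ℝ | rk κ (range x) ≤ (m : ℕ∞)}
  rw [← h2] at h1
  exact h1

theorem low_null (κ : Type*) [Field κ] [Algebra κ ℝ] [Countable κ] {V : Type*}
    [NormedAddCommGroup V] [NormedSpace ℝ V] [MeasurableSpace V] [BorelSpace V]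
    (hV : Module.finrank ℝ V = m + 1) (P : EuclideanSpace ℝ (Fin (m + 2)) → V)
    (hP : ∃ K, LipschitzWith K P) :
    μH[(Module.finrank ℝ V : ℝ)]
      (P '' {y : EuclideanSpace ℝ (Fin (m + 2)) | rk κ (range y.ofLp) ≤ (m : ℕ∞)}) = 0 := by
  obtain ⟨K, hK⟩ := hP
  have h1 : dimH (P '' {y : EuclideanSpace ℝ (Fin (m + 2)) | rk κ (range y.ofLp) ≤ (m : ℕ∞)}) <
      ((m + 1 : ℕ) : ℝ≥0) := by
    refine lt_of_le_of_lt ((hK.dimH_image_le _).trans (dimH_lowE κ)) ?_
    have : (m : ℝ≥0∞) < ((m + 1 : ℕ) : ℝ≥0∞) := by exact_mod_cast Nat.lt_succ_self m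
    simpa using this
  have h2 := hausdorffMeasure_of_dimH_lt h1
  rw [hV]
  exact_mod_cast h2

end low

section fub
variable {k : Type*} [Field k] [Algebra k ℝ] [Countable k] {m : ℕ}

theorem fub_null {V W : Type*} [NormedAddCommGroup V] [NormedSpace ℝ V] [FiniteDimensional ℝ V]
    [MeasurableSpace V] [BorelSpace V] [NormedAddCommGroup W] [NormedSpace ℝ W]
    [FiniteDimensional ℝ W] [MeasurableSpace W] [BorelSpace W]
    (hV : Module.finrank ℝ V = m + 1) (hW : Module.finrank ℝ W = m + 1)
    (U : Set (V × W)) (hU : IsOpen U) (X : V → EuclideanSpace ℝ (Fin (m + 2)))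
    (Y : W → EuclideanSpace ℝ (Fin (m + 2)))
    (hc : ContinuousOn (fun z : V × W => (X z.1, Y z.2)) U)
    (hY : ∀ z ∈ U, ∑ j, (Y z.2).ofLp j ^ 2 = 1)
    (P : EuclideanSpace ℝ (Fin (m + 2)) → V) (hP : ∃ K, LipschitzWith K P)
    (Q : EuclideanSpace ℝ (Fin (m + 2)) → W) (hQ : ∃ K, LipschitzWith K Q)
    (hPX : ∀ z, P (X z) = z) (hQY : ∀ z, Q (Y z) = z) :
    μH[(Module.finrank ℝ (V × W) : ℝ)] {z : V × W | z ∈ U ∧
      (rk k (range (X z.1).ofLp) ≤ (m : ℕ∞) ∨
        rk (IntermediateField.adjoin k (range (X z.1).ofLp)) (range (Y z.2).ofLp) ≤ (m : ℕ∞))} =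
      0 := by
  classical
  have hac : (μH[(Module.finrank ℝ (V × W) : ℝ)] : Measure (V × W)) ≪
      (μH[(Module.finrank ℝ V : ℝ)] : Measure V).prod (μH[(Module.finrank ℝ W : ℝ)] : Measure W) :=
    Measure.absolutelyContinuous_isAddHaarMeasure _ _
  apply hac
  have hcM : Countable (MvPolynomial (Fin (m + 2)) k) :=
    (AddMonoidAlgebra.coeffEquiv (R := k) (M := Fin (m + 2) →₀ ℕ)).countable_iff.2 inferInstance
  have hcMM : Countable (MvPolynomial (Fin (m + 1)) (MvPolynomial (Fin (m + 2)) k)) :=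
    (AddMonoidAlgebra.coeffEquiv (R := MvPolynomial (Fin (m + 2)) k)
      (M := Fin (m + 1) →₀ ℕ)).countable_iff.2 inferInstance
  have hcof : Continuous (fun y : EuclideanSpace ℝ (Fin (m + 2)) => y.ofLp) :=
    (EuclideanSpace.equiv (Fin (m + 2)) ℝ).continuous
  obtain ⟨S, hS⟩ : ∃ S : MvPolynomial (Fin (m + 1)) (MvPolynomial (Fin (m + 2)) k) → Set (V × W),
      S = fun R => {z | z ∈ U ∧ map (ev k (X z.1).ofLp) R ≠ 0 ∧
        eval (fun j : Fin (m + 1) => (Y z.2).ofLp j.succ) (map (ev k (X z.1).ofLp) R) = 0} :=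
    ⟨_, rfl⟩
  refine measure_mono_null (t := ((P '' {y | rk k (range y.ofLp) ≤ (m : ℕ∞)}) ×ˢ univ) ∪
    ⋃ R, S R) ?_ ?_
  · rintro z ⟨hzU, h⟩
    by_cases h1 : rk k (range (X z.1).ofLp) ≤ (m : ℕ∞)
    · left
      exact ⟨⟨X z.1, h1, hPX z.1⟩, mem_univ _⟩
    · right
      have h2 := h.resolve_left h1
      obtain ⟨R, h3, h4⟩ := exists_dep (X z.1).ofLp (fun j : Fin (m + 1) => (Y z.2).ofLp j.succ)
        ((rk_tail_le _ _).trans h2)
      rw [mem_iUnion]
      refine ⟨R, ?_⟩
      rw [hS]
      exact ⟨hzU, h3, h4⟩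
  · refine measure_union_null ?_ (measure_iUnion_null fun R => ?_)
    · rw [Measure.prod_prod, low_null k hV P hP, zero_mul]
    · have hmeas : MeasurableSet (S R) := by
        obtain ⟨F, hF⟩ : ∃ F : (Fin (m + 2) → ℝ) × (Fin (m + 1) → ℝ) → ℝ,
          F = fun z => eval z.2 (map (ev k z.1) R) := ⟨_, rfl⟩
        have hFc : Continuous F := by rw [hF]; exact continuous_ev R
        have hFe : ∀ x r, eval r (map (ev k x) R) = F (x, r) := by intro x r; rw [hF]
        obtain ⟨O1, hO1⟩ : ∃ O1 : Set (V × W), O1 = ⋃ r : Fin (m + 1) → ℝ,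
          U ∩ (fun z : V × W => F ((X z.1).ofLp, r)) ⁻¹' {0}ᶜ := ⟨_, rfl⟩
        obtain ⟨O2, hO2⟩ : ∃ O2 : Set (V × W), O2 =
          U ∩ (fun z : V × W => F ((X z.1).ofLp, fun j : Fin (m + 1) => (Y z.2).ofLp j.succ)) ⁻¹'
            {0}ᶜ := ⟨_, rfl⟩
        have hX' : ContinuousOn (fun z : V × W => (X z.1).ofLp) U :=
          hcof.comp_continuousOn hc.fst
        have hY' : ContinuousOn (fun z : V × W =>
            (fun j : Fin (m + 1) => (Y z.2).ofLp j.succ)) U :=
          continuousOn_pi.2 fun j => ((continuous_apply j.succ).comp hcof).comp_continuousOn hc.snd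
        have h1 : IsOpen O1 := by
          rw [hO1]
          refine isOpen_iUnion fun r => ?_
          refine ContinuousOn.isOpen_inter_preimage ?_ hU isOpen_compl_singleton
          exact hFc.comp_continuousOn (hX'.prodMk continuousOn_const)
        have h2 : IsOpen O2 := by
          rw [hO2]
          refine ContinuousOn.isOpen_inter_preimage ?_ hU isOpen_compl_singleton
          exact hFc.comp_continuousOn (hX'.prodMk hY')
        have h3 : S R = O1 \ O2 := by
          rw [hS, hO1, hO2]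
          ext z
          simp only [mem_setOf_eq, mem_diff, mem_iUnion, mem_inter_iff, mem_preimage,
            mem_compl_iff, mem_singleton_iff]
          rw [hFe]
          constructor
          · rintro ⟨hz, h4, h5⟩
            refine ⟨?_, fun h6 => h6.2 h5⟩
            by_contra hcon
            push Not at hcon
            apply h4
            apply MvPolynomial.funext
            intro r
            rw [hFe, hcon r hz, map_zero]
          · rintro ⟨⟨r, hz, h4⟩, h5⟩
            refine ⟨hz, fun h6 => h4 (by rw [← hFe, h6, map_zero]), ?_⟩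
            by_contra h6
            exact h5 ⟨hz, h6⟩
        rw [h3]
        exact h1.measurableSet.diff h2.measurableSet
      refine Measure.measure_prod_null_of_ae_null hmeas (Filter.Eventually.of_forall fun v => ?_)
      have := countable_adjoin (k := k) (X v).ofLp
      refine measure_mono_null ?_
        (low_null (IntermediateField.adjoin k (range (X v).ofLp)) hW Q hQ)
      intro w hw
      rw [hS] at hw
      obtain ⟨h1, h2, h3⟩ := hw
      exact ⟨Y w, dep_low (X v).ofLp (Y w).ofLp (hY (v, w) h1) R h2 h3, hQY w⟩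

end fub

end Pool.Agent.TH746.AL
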