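import Pool.Agent.H450R2.Al.Orbit
import Pool.Agent.H450R2.Al.Dim

/-!
Transcendence ranks over the field generated by a set; simple roots along a line; linear forms at
isotropic vectors of maximal rank.
-/

set_option autoImplicit false

namespace Pool.Agent.TH746.AL

open MvPolynomial Set H450Al

section tower
variable (k : Type*) [Field k] [Algebra k ℝ]

theorem cl_union (X S : Set ℝ) :
    cl k (X ∪ S) = cl (IntermediateField.adjoin k X) S := by
  ext a
  rw [mem_cl, mem_cl, ← IntermediateField.isAlgebraic_adjoin_iff,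
    ← IntermediateField.isAlgebraic_adjoin_iff, ← IntermediateField.adjoin_adjoin_left]
  exact Iff.rfl

theorem rk_tower (X S : Set ℝ) (hS : S.Finite) :
    rk k X + rk (IntermediateField.adjoin k X) S ≤ rk k (X ∪ S) := by
  classical
  obtain ⟨J, hJ⟩ := (AlgebraicIndependent.matroid (IntermediateField.adjoin k X) ℝ).exists_isBasis S
  have hJS : J ⊆ S := hJ.subset
  have hJf : J.Finite := hS.subset hJS
  have h1 : rk (IntermediateField.adjoin k X) S = J.encard := by
    unfold rk
    exact hJ.eRk_eq_encard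
  rw [h1]
  have key : ∀ F : Finset ℝ, (F : Set ℝ) ⊆ J → rk k X + (F : Set ℝ).encard ≤ rk k (X ∪ F) := by
    intro F
    induction F using Finset.induction_on with
    | empty => intro _; simp
    | insert a F ha ih =>
      intro hF
      rw [Finset.coe_insert] at hF ⊢
      have hFJ : (F : Set ℝ) ⊆ J := (subset_insert _ _).trans hF
      have haJ : a ∈ J := hF (mem_insert _ _)
      have hna : a ∉ cl k (X ∪ (F : Set ℝ)) := by
        intro h
        have h2 := h
        rw [cl_union] at h2
        have h3 := hJ.indep.notMem_closure_sdiff_of_mem haJ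
        apply h3
        refine cl_mono (IntermediateField.adjoin k X) ?_ h2
        intro b hb
        exact ⟨hFJ hb, fun hba => ha (by rw [mem_singleton_iff] at hba; rw [← hba]; exact hb)⟩
      have h4 := rk_insert_eq k _ _ hna
      have h5 : X ∪ insert a (F : Set ℝ) = insert a (X ∪ (F : Set ℝ)) := by
        rw [union_insert]
      rw [h5, h4, encard_insert_of_notMem (by simpa using ha), ← add_assoc]
      gcongr
      exact ih hFJ
  have h2 := key hJf.toFinset (by simp)
  rw [hJf.coe_toFinset] at h2
  exact h2.trans (rk_mono' k (union_subset_union_right X hJS))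

end tower

section root

theorem der_aeval {k B : Type*} [CommRing k] [CommRing B] [Algebra k B] {d : ℕ}
    (D : Derivation k B B) (P : MvPolynomial (Fin d) k) (x : Fin d → B) :
    D (aeval x P) = ∑ j, aeval x (pderiv j P) * D (x j) := by
  induction P using MvPolynomial.induction_on with
  | C a => simp
  | add p q hp hq =>
    simp only [map_add, hp, hq, add_mul, Finset.sum_add_distrib]
  | mul_X p i hp =>
    rw [map_mul, Derivation.leibniz, hp, aeval_X, smul_eq_mul]
    have h1 : ∀ j, aeval x (pderiv j (p * X i)) * D (x j) =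
        x i * (aeval x (pderiv j p) * D (x j)) + aeval x p * (if i = j then D (x j) else 0) := by
      intro j
      rw [Derivation.leibniz, map_add, smul_eq_mul, smul_eq_mul, map_mul, map_mul, aeval_X,
        pderiv_X]
      by_cases hij : i = j
      · subst hij
        simp; ring
      · simp [hij]
        ring
    simp_rw [h1]
    rw [Finset.sum_add_distrib, ← Finset.mul_sum, ← Finset.mul_sum]
    simp
    ring

/-- a simple root along a line is algebraic over the data of the line -/
theorem root_simple (k : Type*) {Ω : Type*} [Field k] [Field Ω] [Algebra k Ω] {d : ℕ}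
    (P : MvPolynomial (Fin d) k) (q e : Fin d → Ω) (s : Ω)
    (h : aeval (fun i => q i - s * e i) P = 0)
    (h' : ∑ j, aeval (fun i => q i - s * e i) (pderiv j P) * e j ≠ 0) :
    s ∈ cl k (range q ∪ range e) := by
  classical
  set T := range q ∪ range e with hT
  have hqT : ∀ i, q i ∈ Algebra.adjoin k T := fun i => Algebra.subset_adjoin (Or.inl ⟨i, rfl⟩)
  have heT : ∀ i, e i ∈ Algebra.adjoin k T := fun i => Algebra.subset_adjoin (Or.inr ⟨i, rfl⟩)
  set q' : Fin d → Algebra.adjoin k T := fun i => ⟨q i, hqT i⟩ with hq'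
  set e' : Fin d → Algebra.adjoin k T := fun i => ⟨e i, heT i⟩ with he'
  set w : Fin d → Polynomial (Algebra.adjoin k T) := fun i =>
    Polynomial.C (q' i) - Polynomial.X * Polynomial.C (e' i) with hw
  have hev : ∀ Q : MvPolynomial (Fin d) k, Polynomial.aeval s (aeval w Q) =
      aeval (fun i => q i - s * e i) Q := by
    intro Q
    have := comp_aeval_apply w ((Polynomial.aeval s :
        Polynomial (Algebra.adjoin k T) →ₐ[Algebra.adjoin k T] Ω).restrictScalars k) Q
    have e2 : (fun i => ((Polynomial.aeval s :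
        Polynomial (Algebra.adjoin k T) →ₐ[Algebra.adjoin k T] Ω).restrictScalars k)
        (w i)) = fun i => q i - s * e i := by
      funext i
      rw [hw]
      simp [hq', he']
      ring
    rw [e2] at this
    exact this
  have hp0 : aeval w P ≠ 0 := by
    intro h0
    apply h'
    have h1 := der_aeval ((Polynomial.derivative' :
      Derivation (Algebra.adjoin k T) (Polynomial (Algebra.adjoin k T)) _).restrictScalars k) P w
    rw [h0, map_zero] at h1
    have h2 := congrArg (Polynomial.aeval s) h1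
    rw [map_zero, map_sum] at h2
    have h3 : ∀ j, Polynomial.aeval s (aeval w (pderiv j P) *
        ((Polynomial.derivative' : Derivation (Algebra.adjoin k T)
          (Polynomial (Algebra.adjoin k T)) _).restrictScalars k) (w j)) =
        -(aeval (fun i => q i - s * e i) (pderiv j P) * e j) := by
      intro j
      rw [map_mul, hev]
      have h4 : ((Polynomial.derivative' : Derivation (Algebra.adjoin k T)
          (Polynomial (Algebra.adjoin k T)) _).restrictScalars k) (w j) =
          - Polynomial.C (e' j) := by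
        change Polynomial.derivative (w j) = _
        rw [hw]
        simp
      rw [h4, map_neg, Polynomial.aeval_C]
      have h5 : (algebraMap (Algebra.adjoin k T) Ω) (e' j) = e j := rfl
      rw [h5]; ring
    simp_rw [h3] at h2
    rw [Finset.sum_neg_distrib] at h2
    exact neg_eq_zero.1 h2.symm
  rw [mem_cl]
  exact ⟨aeval w P, hp0, by rw [hev]; exact h⟩

end root

section lin

theorem not_dvd_low {k : Type*} [Field k] {m : ℕ} (hD : Dq k (m + 2) ≠ 0)
    (F : MvPolynomial (Fin (m + 2)) k)
    (h0 : F ≠ 0) (h1 : F.totalDegree ≤ 1) : ¬ Dq k (m + 2) ∣ F := by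
  rintro ⟨G, hG⟩
  have hG0 : G ≠ 0 := by rintro rfl; rw [mul_zero] at hG; exact h0 hG
  have hd : (Dq k (m + 2)).IsHomogeneous 2 := by
    unfold Dq
    apply IsHomogeneous.sum
    intro i _
    have := (isHomogeneous_X k i).pow 2
    simpa using this
  have h2 := totalDegree_mul_of_isDomain hD hG0
  rw [← hG, hd.totalDegree hD] at h2
  omega

theorem lead_X {k : Type*} [Field k] {m : ℕ} (hD : Dq k (m + 2) ≠ 0) :
    ¬ Dq k (m + 2) ∣ lead (X 0 : MvPolynomial (Fin (m + 2)) k) := by
  have h1 : lead (X 0 : MvPolynomial (Fin (m + 2)) k) = X 0 := by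
    unfold lead
    rw [totalDegree_X]
    exact (homogeneousComponent_of_mem (isHomogeneous_X k 0)).trans (if_pos rfl)
  rw [h1]
  apply not_dvd_low hD _ (X_ne_zero 0)
  rw [totalDegree_X]

theorem lin_poly {k : Type*} [Field k] {d : ℕ} (a : Fin d → k) (ha : a ≠ 0) :
    ∃ F : MvPolynomial (Fin d) k, F ≠ 0 ∧ F.totalDegree ≤ 1 ∧
      F = ∑ j, C (a j) * X j := by
  classical
  obtain ⟨F, hF⟩ : ∃ F : MvPolynomial (Fin d) k, F = ∑ j, C (a j) * X j := ⟨_, rfl⟩
  have hFa : ∀ j, F.coeff (Finsupp.single j 1) = a j := by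
    intro j
    rw [hF, coeff_sum, Finset.sum_eq_single j]
    · rw [coeff_C_mul, coeff_X, if_pos rfl, mul_one]
    · intro i _ hij
      rw [coeff_C_mul, coeff_X, if_neg, mul_zero]
      intro h
      exact hij ((Finsupp.single_left_inj one_ne_zero).1 h)
    · intro h; exact absurd (Finset.mem_univ j) h
  refine ⟨F, ?_, ?_, hF⟩
  · intro h
    apply ha
    funext j
    rw [← hFa j, h, coeff_zero]
    rfl
  · rw [hF]
    refine (totalDegree_finsetSum _ _).trans (Finset.sup_le fun j _ => ?_)
    refine (totalDegree_mul _ _).trans ?_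
    rw [totalDegree_C, totalDegree_X]

/-- linear forms do not vanish at isotropic vectors of maximal rank -/
theorem lin_ne {k Ω : Type*} [Field k] [Field Ω] [Algebra k Ω] [Algebra k ℝ] {m : ℕ}
    (x : Fin (m + 2) → Ω) (hx : ∑ i, x i ^ 2 = 0) (hr : ((m + 1 : ℕ) : ℕ∞) ≤ rk k (range x))
    (a : Fin (m + 2) → k) (ha : a ≠ 0) : ∑ j, algebraMap k Ω (a j) * x j ≠ 0 := by
  intro h0
  obtain ⟨F, hF0, hdeg, hF⟩ := lin_poly a ha
  have h1 := iso_lemma k x hx F (by rw [hF]; simpa using h0)
    (not_dvd_low (Dq_ne_zero k m) F hF0 hdeg)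
  have h2 := hr.trans h1
  have := Nat.cast_le.1 h2
  omega

/-- linear forms do not vanish at vectors of full rank -/
theorem lin_ne' {k Ω : Type*} [Field k] [Field Ω] [Algebra k Ω] {m : ℕ}
    (x : Fin (m + 2) → Ω) (hr : ((m + 2 : ℕ) : ℕ∞) ≤ rk k (range x))
    (a : Fin (m + 2) → k) (ha : a ≠ 0) : ∑ j, algebraMap k Ω (a j) * x j ≠ 0 := by
  intro h0
  obtain ⟨F, hF0, -, hF⟩ := lin_poly a ha
  have h1 := rk_lt_of_relation k x F hF0 (by rw [hF]; simpa using h0)
  have h2 := hr.trans h1
  have := Nat.cast_le.1 h2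
  omega

/-- a point of rank less than the dimension satisfies an equation with nonzero gradient -/
theorem exists_rel {k : Type*} [Field k] [Algebra k ℝ] {m : ℕ} (x : Fin (m + 2) → ℝ)
    (h1 : ((m + 1 : ℕ) : ℕ∞) ≤ rk k (range x)) (h2 : ¬ ((m + 2 : ℕ) : ℕ∞) ≤ rk k (range x)) :
    ∃ Φ : MvPolynomial (Fin (m + 2)) k, aeval x Φ = 0 ∧ ∃ j, aeval x (pderiv j Φ) ≠ 0 := by
  have h3 : ∃ P : MvPolynomial (Fin (m + 2)) k, P ≠ 0 ∧ aeval x P = 0 := by
    by_contra hcon
    push Not at hcon
    apply h2
    have h4 : AlgebraicIndependent k x := by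
      rw [algebraicIndependent_iff]
      intro P hP
      by_contra hP0
      exact hcon P hP0 hP
    have h5 := rk_of_indep k x univ (h4.comp (fun j : (univ : Set (Fin (m + 2))) => j.1)
      Subtype.val_injective)
    rw [encard_univ] at h5
    simpa using h5
  obtain ⟨P, hP0, hP⟩ := h3
  obtain ⟨Φ, h4, h5, -⟩ := exists_local_eq x h1 P hP0 hP
  exact ⟨Φ, h4, h5⟩

/-- moving a point along a line of which it is an isolated point, or losing one parameter -/
theorem shift_rank {k Ω : Type*} [Field k] [Field Ω] [Algebra k Ω] {d : ℕ} (r : ℕ)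
    (x y e : Fin d → Ω) (c : Ω) (hy : x = fun j => y j - c * e j)
    (h : ((r + 1 : ℕ) : ℕ∞) ≤ rk k (range x ∪ range e) ∨
      ((r : ℕ∞) ≤ rk k (range x ∪ range e) ∧ ∃ Φ : MvPolynomial (Fin d) k, aeval x Φ = 0 ∧
        ∑ j, aeval x (pderiv j Φ) * e j ≠ 0)) :
    (r : ℕ∞) ≤ rk k (range y ∪ range e) := by
  have hsub : range x ∪ range e ⊆ cl k (insert c (range y ∪ range e)) := by
    have hc : c ∈ clAlg k (insert c (range y ∪ range e)) := subset_cl k _ (mem_insert _ _)
    rintro _ (⟨j, rfl⟩ | ⟨j, rfl⟩)
    · rw [hy]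
      exact (clAlg k _).sub_mem (subset_cl k _ (Or.inr (Or.inl ⟨j, rfl⟩)))
        ((clAlg k _).mul_mem hc (subset_cl k _ (Or.inr (Or.inr ⟨j, rfl⟩))))
    · exact subset_cl k _ (Or.inr (Or.inr ⟨j, rfl⟩))
  rcases h with h | ⟨h, Φ, h1, h2⟩
  · have h3 := h.trans ((rk_mono k hsub).trans (rk_insert k _ c))
    by_contra hcon
    rw [not_le] at hcon
    have h4 : rk k (range y ∪ range e) + 1 ≤ (r : ℕ∞) := Order.add_one_le_of_lt hcon
    have h5 := h3.trans h4
    have := Nat.cast_le.1 h5
    omega
  · have hc : c ∈ cl k (range y ∪ range e) := by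
      rw [hy] at h1 h2
      exact root_simple k Φ y e c h1 h2
    have h3 : insert c (range y ∪ range e) ⊆ cl k (range y ∪ range e) := by
      rw [insert_subset_iff]
      exact ⟨hc, subset_cl k _⟩
    exact h.trans ((rk_mono k hsub).trans (rk_mono k h3))

end lin

end Pool.Agent.TH746.AL
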