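import Pool.Agent.TH746.AL.Main

/-!
Finite trajectories: local parametrisation, and the transport of the exceptional pairs
(point, direction) along them.
-/

set_option autoImplicit false

open MeasureTheory Set Filter Topology
open scoped InnerProductSpace
open Pool.Agent.H721R2.Quart Pool.Agent.H721R2.Ivrii

namespace Pool.Agent.TH746.AL

open Pool.Agent.TH746

section P
variable {E : Type*} [NormedAddCommGroup E] [InnerProductSpace ℝ E] [FiniteDimensional ℝ E]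

/-- A finite billiard trajectory starting at a regular boundary point. -/
structure Traj (Ω : Set E) (N : ℕ) (p u : ℕ → E) : Prop where
  reg : ∃ F, LocalDef Ω (p 0) F
  unit : ⟪u 0, u 0⟫_ℝ = 1
  step : ∀ k < N, Step Ω (p k) (u k) (p (k + 1)) (u (k + 1))

theorem Traj.units {Ω : Set E} {N : ℕ} {p u : ℕ → E} (h : Traj Ω N p u) :
    ∀ k ≤ N, ⟪u k, u k⟫_ℝ = 1 := by
  intro k
  induction k with
  | zero => intro _; exact h.unit
  | succ k ih =>
    intro hk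
    obtain ⟨t, ht, hq, -, F', hF', h1, h2⟩ := h.step k hk
    rw [h2, ← rf_dir, G3_rf_inner (dir_unit hF'.grad), ih (by omega)]

theorem Traj.defs {Ω : Set E} {N : ℕ} {p u : ℕ → E} (h : Traj Ω N p u) :
    ∀ k, ∃ F, k ≤ N → LocalDef Ω (p k) F := by
  intro k
  by_cases hk : k ≤ N
  · rcases k with _ | k
    · obtain ⟨F, hF⟩ := h.reg
      exact ⟨F, fun _ => hF⟩
    · obtain ⟨t, -, -, -, F, hF, -, -⟩ := h.step k hk
      exact ⟨F, fun _ => hF⟩
  · exact ⟨0, fun h => absurd h hk⟩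

theorem exists_parT {Ω : Set E} {N : ℕ} {p u : ℕ → E} (h : Traj Ω N p u) :
    ∃ (a b : E) (U : Set ((ℝ ∙ a)ᗮ × (ℝ ∙ b)ᗮ)) (X : (ℝ ∙ a)ᗮ → E) (Y : (ℝ ∙ b)ᗮ → E)
      (s : ℕ → ((ℝ ∙ a)ᗮ × (ℝ ∙ b)ᗮ) → E × E) (P : E → (ℝ ∙ a)ᗮ) (Q : E → (ℝ ∙ b)ᗮ),
      a ≠ 0 ∧ b ≠ 0 ∧ IsOpen U ∧ (s 0 = fun z => (X z.1, Y z.2)) ∧
      (∀ z ∈ U, ⟪Y z.2, Y z.2⟫_ℝ = 1) ∧
      (∃ K, LipschitzWith K P) ∧ (∃ K, LipschitzWith K Q) ∧
      (∀ z, P (X z) = z) ∧ (∀ z, Q (Y z) = z) ∧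
      (∀ m ≤ N, ∃ K, LipschitzOnWith K (s m) U) ∧
      ∀ᶠ w : (ℕ → E) × (ℕ → E) in 𝓝 (p, u), Traj Ω N w.1 w.2 →
        ∃ z ∈ U, ∀ k ≤ N, s k z = (w.1 k, w.2 k) := by
  have hunit := h.units
  choose F dF using h.defs
  have hst : ∀ k < N, u (k + 1) = rf (dir (gradient (F (k + 1)) (p (k + 1)))) (u k) ∧
      ⟪gradient (F (k + 1)) (p (k + 1)), u k⟫_ℝ ≠ 0 ∧
      ∃ t : ℝ, 0 < t ∧ p (k + 1) = p k + t • u k :=
    fun k hk => step_refl' (h.step k hk) (dF (k + 1) hk)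
  have hst3 : ∀ k, ∃ t : ℝ, k < N → 0 < t ∧ p (k + 1) = p k + t • u k := by
    intro k
    by_cases hk : k < N
    · obtain ⟨t, ht⟩ := (hst k hk).2.2
      exact ⟨t, fun _ => ht⟩
    · exact ⟨0, fun h => absurd h hk⟩
  choose t hpt using hst3
  have hT : ∀ k, ∃ T : E × E → ℝ, k < N → (ContDiffAt ℝ 3 T (p k, u k) ∧ T (p k, u k) = t k ∧
      (∀ᶠ y in 𝓝 (p k, u k), F (k + 1) (y.1 + T y • y.2) = 0) ∧
      (∀ᶠ y in 𝓝 ((p k, u k), t k), F (k + 1) (y.1.1 + y.2 • y.1.2) = 0 → y.2 = T y.1)) := by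
    intro k
    by_cases hk : k < N
    · obtain ⟨T, hT⟩ := exists_hit (F := F (k + 1)) (x0 := p k) (v0 := u k) (t0 := t k)
        (by rw [← (hpt k hk).2]; exact (dF (k + 1) hk).smooth)
        (by rw [← (hpt k hk).2]; exact (dF (k + 1) hk).zero)
        (by rw [← (hpt k hk).2, G4_fderiv_eq]; exact (hst k hk).2.1)
      exact ⟨T, fun _ => hT⟩
    · exact ⟨0, fun h => absurd h hk⟩
  choose T hT using hT
  have hM : ∀ k, ∃ ν : E → E, k ≤ N → (ContDiffAt ℝ 2 ν (p k) ∧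
      ∀ᶠ x in 𝓝 (p k), ν x = dir (gradient (F k) x)) := by
    intro k
    by_cases hk : k ≤ N
    · obtain ⟨ν, σ, h1, -, h3, -⟩ := exists_mirror' (dF k hk)
      exact ⟨ν, fun _ => ⟨h1, h3.mono fun x hx => hx.2.1⟩⟩
    · exact ⟨0, fun h => absurd h hk⟩
  choose ν hν using hM
  -- the charts
  obtain ⟨Fs, hFs⟩ : ∃ Fs : E → ℝ, Fs = fun v : E => ⟪v, v⟫_ℝ - 1 := ⟨_, rfl⟩
  have Fsc : ContDiffAt ℝ 3 Fs (u 0) := by
    rw [hFs]
    exact ((contDiff_id.inner ℝ contDiff_id).sub contDiff_const).contDiffAt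
  have Fs0 : Fs (u 0) = 0 := by rw [hFs]; simp only [h.unit, sub_self]
  have Fsgr : ∀ v w, ⟪gradient Fs v, w⟫_ℝ = 2 * ⟪v, w⟫_ℝ := by
    rw [hFs]; exact gradient_sphere
  have Fsg : gradient Fs (u 0) ≠ 0 := by
    intro h0
    have h1 := Fsgr (u 0) (u 0)
    rw [h0, inner_zero_left, h.unit] at h1
    norm_num at h1
  obtain ⟨a, ha0, X, cX, X0, Xz, P, Pl, Pu⟩ :=
    chart_lin (dF 0 (Nat.zero_le _)).smooth (dF 0 (Nat.zero_le _)).zero (dF 0 (Nat.zero_le _)).grad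
  obtain ⟨b, hb0, Y, cY, Y0, Yz, Q, Ql, Qu⟩ := chart_lin Fsc Fs0 Fsg
  -- the family
  obtain ⟨s, hs0, hs1⟩ : ∃ s : ℕ → ((ℝ ∙ a)ᗮ × (ℝ ∙ b)ᗮ) → E × E,
      (s 0 = fun z => (X z.1, Y z.2)) ∧
      ∀ k, s (k + 1) = fun z => ((s k z).1 + T k (s k z) • (s k z).2,
        rf (ν (k + 1) ((s k z).1 + T k (s k z) • (s k z).2)) (s k z).2) :=
    ⟨fun k => Nat.rec (fun z => (X z.1, Y z.2)) (fun k s z => ((s z).1 + T k (s z) • (s z).2,
        rf (ν (k + 1) ((s z).1 + T k (s z) • (s z).2)) (s z).2)) k, rfl, fun k => rfl⟩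
  have cs : ∀ k ≤ N, ContDiffAt ℝ 2 (s k) 0 ∧ s k 0 = (p k, u k) := by
    intro k
    induction k with
    | zero =>
      intro _
      rw [hs0]
      refine ⟨?_, by simp only [Prod.fst_zero, Prod.snd_zero, X0, Y0]⟩
      exact (ContDiffAt.comp (g := X) (f := fun z : (ℝ ∙ a)ᗮ × (ℝ ∙ b)ᗮ => z.1) 0 cX
        contDiffAt_fst).prodMk (ContDiffAt.comp (g := Y)
          (f := fun z : (ℝ ∙ a)ᗮ × (ℝ ∙ b)ᗮ => z.2) 0 cY contDiffAt_snd)
    | succ k ih =>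
      intro hk
      obtain ⟨ih1, ih2⟩ := ih (by omega)
      have hc1 : ContDiffAt ℝ 2 (fun z => (s k z).1) 0 := ih1.fst
      have hc2 : ContDiffAt ℝ 2 (fun z => (s k z).2) 0 := ih1.snd
      have hcT : ContDiffAt ℝ 2 (fun z => T k (s k z)) 0 := by
        refine ContDiffAt.comp (g := T k) (f := s k) 0 ?_ ih1
        rw [ih2]
        exact (hT k hk).1.of_le (by norm_num)
      have hcx : ContDiffAt ℝ 2 (fun z => (s k z).1 + T k (s k z) • (s k z).2) 0 :=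
        hc1.add (hcT.smul hc2)
      have hx0 : (s k 0).1 + T k (s k 0) • (s k 0).2 = p (k + 1) := by
        rw [ih2, (hT k hk).2.1, (hpt k hk).2]
      have hcn : ContDiffAt ℝ 2 (fun z => ν (k + 1) ((s k z).1 + T k (s k z) • (s k z).2)) 0 := by
        refine ContDiffAt.comp (g := ν (k + 1))
          (f := fun z => (s k z).1 + T k (s k z) • (s k z).2) 0 ?_ hcx
        simp only [hx0]
        exact (hν (k + 1) hk).1
      rw [hs1]
      refine ⟨hcx.prodMk (G4_rf_cd hcn hc2), ?_⟩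
      simp only [hx0]
      rw [(hν (k + 1) hk).2.self_of_nhds, ih2, ← (hst k hk).1]
  have hLip : ∀ k, ∃ (K : NNReal) (tK : Set ((ℝ ∙ a)ᗮ × (ℝ ∙ b)ᗮ)), k ≤ N →
      (tK ∈ 𝓝 0 ∧ LipschitzOnWith K (s k) tK) := by
    intro k
    by_cases hk : k ≤ N
    · obtain ⟨K, tK, h1, h2⟩ := ((cs k hk).1.of_le
        (show (1 : WithTop ℕ∞) ≤ 2 by norm_num)).exists_lipschitzOnWith
      exact ⟨K, tK, fun _ => ⟨h1, h2⟩⟩
    · exact ⟨0, ∅, fun h => absurd h hk⟩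
  choose K tK hK using hLip
  have hall : ∀ᶠ z in 𝓝 0, (∀ k ∈ Set.Iic N, z ∈ tK k) ∧ ⟪Y z.2, Y z.2⟫_ℝ = 1 := by
    refine Filter.Eventually.and ?_ ?_
    · rw [Filter.eventually_all_finite (Set.finite_Iic N)]
      intro k hk
      exact show ∀ᶠ z in 𝓝 0, z ∈ tK k from (hK k hk).1
    · have h1 := (continuous_snd.tendsto (0 : (ℝ ∙ a)ᗮ × (ℝ ∙ b)ᗮ)).eventually Yz
      filter_upwards [h1] with z hz
      rw [hFs] at hz
      exact sub_eq_zero.1 hz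
  obtain ⟨U, hU, hUo, hU0⟩ := eventually_nhds_iff.1 hall
  refine ⟨a, b, U, X, Y, s, fun y => P (y - p 0), fun y => Q (y - u 0), ha0, hb0, hUo, hs0,
    fun z hz => (hU z hz).2, ?_, ?_, Pl, Ql, ?_, ?_⟩
  · refine ⟨_, P.lipschitz.comp (LipschitzWith.id.sub (LipschitzWith.const (p 0)))⟩
  · refine ⟨_, Q.lipschitz.comp (LipschitzWith.id.sub (LipschitzWith.const (u 0)))⟩
  · intro m hm'
    exact ⟨K m, (hK m hm').2.mono fun z hz => (hU z hz).1 m hm'⟩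
  -- nearby trajectories
  have T1 : ∀ k, Tendsto (fun w : (ℕ → E) × (ℕ → E) => w.1 k) (𝓝 (p, u)) (𝓝 (p k)) := by
    intro k
    have : Continuous (fun w : (ℕ → E) × (ℕ → E) => w.1 k) :=
      (continuous_apply k).comp continuous_fst
    exact this.tendsto (p, u)
  have T2 : ∀ k, Tendsto (fun w : (ℕ → E) × (ℕ → E) => w.2 k) (𝓝 (p, u)) (𝓝 (u k)) := by
    intro k
    have : Continuous (fun w : (ℕ → E) × (ℕ → E) => w.2 k) :=
      (continuous_apply k).comp continuous_snd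
    exact this.tendsto (p, u)
  have T3 : ∀ k < N, Tendsto (fun w : (ℕ → E) × (ℕ → E) =>
      ((w.1 k, w.2 k), ‖w.1 (k + 1) - w.1 k‖)) (𝓝 (p, u)) (𝓝 ((p k, u k), t k)) := by
    intro k hk
    have h1 : Continuous (fun w : (ℕ → E) × (ℕ → E) =>
        ((w.1 k, w.2 k), ‖w.1 (k + 1) - w.1 k‖)) := by
      have c1 : ∀ k, Continuous (fun w : (ℕ → E) × (ℕ → E) => w.1 k) := fun k =>
        (continuous_apply k).comp continuous_fst
      have c2 : ∀ k, Continuous (fun w : (ℕ → E) × (ℕ → E) => w.2 k) := fun k =>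
        (continuous_apply k).comp continuous_snd
      exact ((c1 k).prodMk (c2 k)).prodMk ((c1 (k + 1)).sub (c1 k)).norm
    have h2 := h1.tendsto (p, u)
    have h3 : ‖p (k + 1) - p k‖ = t k := by
      have h4 : ‖u k‖ = 1 := by
        have h5 := hunit k hk.le
        rw [real_inner_self_eq_norm_sq] at h5
        nlinarith [norm_nonneg (u k)]
      rw [(hpt k hk).2, add_sub_cancel_left, norm_smul, h4, mul_one, Real.norm_eq_abs,
        abs_of_pos (hpt k hk).1]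
    simp only [h3] at h2
    exact h2
  obtain ⟨ζ, hζ⟩ : ∃ ζ : (ℕ → E) × (ℕ → E) → (ℝ ∙ a)ᗮ × (ℝ ∙ b)ᗮ, ζ = fun w =>
    (P (w.1 0 - p 0), Q (w.2 0 - u 0)) := ⟨_, rfl⟩
  have Tζ : Tendsto ζ (𝓝 (p, u)) (𝓝 0) := by
    have h1 : Tendsto (fun w : (ℕ → E) × (ℕ → E) => P (w.1 0 - p 0)) (𝓝 (p, u)) (𝓝 0) := by
      have h2 := (P.continuous.tendsto (p 0 - p 0)).comp ((T1 0).sub_const (p 0))
      rwa [sub_self, map_zero] at h2
    have h2 : Tendsto (fun w : (ℕ → E) × (ℕ → E) => Q (w.2 0 - u 0)) (𝓝 (p, u)) (𝓝 0) := by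
      have h2 := (Q.continuous.tendsto (u 0 - u 0)).comp ((T2 0).sub_const (u 0))
      rwa [sub_self, map_zero] at h2
    rw [hζ]
    exact h1.prodMk_nhds h2
  have hev : ∀ᶠ w : (ℕ → E) × (ℕ → E) in 𝓝 (p, u), ∀ k ∈ Set.Iio N,
      F (k + 1) (w.1 k + ‖w.1 (k + 1) - w.1 k‖ • w.2 k) = 0 →
        ‖w.1 (k + 1) - w.1 k‖ = T k (w.1 k, w.2 k) := by
    rw [Filter.eventually_all_finite (Set.finite_Iio N)]
    intro k hk
    exact (T3 k hk).eventually (hT k hk).2.2.2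
  have hev2 : ∀ᶠ w : (ℕ → E) × (ℕ → E) in 𝓝 (p, u), ∀ k ∈ Set.Iic N,
      (∀ F' : E → ℝ, LocalDef Ω (w.1 k) F' → LocalDef Ω (w.1 k) (F k)) ∧
      ν k (w.1 k) = dir (gradient (F k) (w.1 k)) := by
    rw [Filter.eventually_all_finite (Set.finite_Iic N)]
    intro k hk
    exact ((T1 k).eventually (localDef_near (dF k hk))).and ((T1 k).eventually (hν k hk).2)
  filter_upwards [hev, hev2, Tζ.eventually (hUo.mem_nhds hU0), (T1 0).eventually Pu,
    (T2 0).eventually Qu] with w hw hw2 wU wP wQ hor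
  have hunit' := hor.units
  choose F' hF' using hor.defs
  have hdf : ∀ k ≤ N, LocalDef Ω (w.1 k) (F k) := fun k hk => (hw2 k hk).1 _ (hF' k hk)
  have hs : ∀ k ≤ N, s k (ζ w) = (w.1 k, w.2 k) := by
    intro k
    induction k with
    | zero =>
      intro _
      rw [hs0, hζ]
      simp only
      rw [← wP (hdf 0 (Nat.zero_le _)).zero, ← wQ (by rw [hFs]; simp only [hor.unit, sub_self])]
    | succ k ih =>
      intro hk
      rw [hs1]
      simp only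
      rw [ih (by omega)]
      simp only
      obtain ⟨e1, e2, τ, hτ, e3⟩ := step_refl' (hor.step k hk) (hdf (k + 1) hk)
      have e4 : ‖w.1 (k + 1) - w.1 k‖ = τ := by
        have h4 : ‖w.2 k‖ = 1 := by
          have h5 := hunit' k (by omega)
          rw [real_inner_self_eq_norm_sq] at h5
          nlinarith [norm_nonneg (w.2 k)]
        rw [e3, add_sub_cancel_left, norm_smul, h4, mul_one, Real.norm_eq_abs, abs_of_pos hτ]
      have e5 := hw k hk (by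
        rw [e4, ← e3]; exact (hdf (k + 1) hk).zero)
      rw [e4] at e5
      rw [← e5, ← e3, (hw2 (k + 1) hk).2, ← e1]
  exact ⟨ζ w, wU, hs⟩

end P

section B
open H450Al H450Sp
variable {m : ℕ}

/-- The end points and directions of the trajectories the initial data of which are exceptional
form a negligible set. -/
theorem bad_null (Ω : Set (EE m)) (k : Subfield ℝ) [Countable k] (N : ℕ) :
    μH[((2 * (m + 2) - 2 : ℕ) : ℝ)] ((fun w : (ℕ → EE m) × (ℕ → EE m) => (w.1 N, w.2 N)) ''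
      {w | Traj Ω N w.1 w.2 ∧ (rk k (range (w.1 0).ofLp) ≤ (m : ℕ∞) ∨
        rk (IntermediateField.adjoin k (range (w.1 0).ofLp)) (range (w.2 0).ofLp) ≤
          (m : ℕ∞))}) = 0 := by
  apply null_of_locally_null
  rintro ⟨p, u⟩ ⟨hor, -⟩
  obtain ⟨a, b, U, X, Y, s, P, Q, ha, hb, hU, hs0, hY1, hP, hQ, hPX, hQY, hL, hev⟩ :=
    exists_parT hor
  have hfa : Module.finrank ℝ ((ℝ ∙ a)ᗮ : Submodule ℝ (EE m)) = m + 1 := by
    have h1 := Submodule.finrank_add_finrank_orthogonal (ℝ ∙ a)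
    rw [finrank_span_singleton ha, finrank_euclideanSpace_fin] at h1
    omega
  have hfb : Module.finrank ℝ ((ℝ ∙ b)ᗮ : Submodule ℝ (EE m)) = m + 1 := by
    have h1 := Submodule.finrank_add_finrank_orthogonal (ℝ ∙ b)
    rw [finrank_span_singleton hb, finrank_euclideanSpace_fin] at h1
    omega
  obtain ⟨K0, hK0⟩ := hL 0 (Nat.zero_le _)
  have h0 := fub_null (k := k) hfa hfb U hU X Y (by rw [← hs0]; exact hK0.continuousOn)
    (fun z hz => by
      rw [← hY1 z hz, real_inner_self_eq_norm_sq, EuclideanSpace.norm_sq_eq]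
      apply Finset.sum_congr rfl
      intro j _
      rw [Real.norm_eq_abs, sq_abs]) P hP Q hQ hPX hQY
  obtain ⟨A, hA⟩ : ∃ A, A = {z : (ℝ ∙ a)ᗮ × (ℝ ∙ b)ᗮ | z ∈ U ∧
      (rk k (range (X z.1).ofLp) ≤ (m : ℕ∞) ∨
        rk (IntermediateField.adjoin k (range (X z.1).ofLp)) (range (Y z.2).ofLp) ≤
          (m : ℕ∞))} := ⟨_, rfl⟩
  have hfr : Module.finrank ℝ ((ℝ ∙ a)ᗮ × (ℝ ∙ b)ᗮ) = 2 * (m + 2) - 2 := by
    rw [Module.finrank_prod, hfa, hfb]
    omega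
  rw [← hA, hfr] at h0
  obtain ⟨K, hK⟩ := hL N le_rfl
  refine ⟨s N '' A, ?_, ?_⟩
  · have hK' : LipschitzOnWith K (s N) A := hK.mono fun z hz => by rw [hA] at hz; exact hz.1
    have h1 := hK'.hausdorffMeasure_image_le
      (d := ((2 * (m + 2) - 2 : ℕ) : ℝ)) (Nat.cast_nonneg _)
    rw [h0, mul_zero] at h1
    exact nonpos_iff_eq_zero.mp h1
  · filter_upwards [hev] with w hw hor'
    obtain ⟨z, hzU, hz⟩ := hw hor'.1
    refine ⟨z, ?_, hz N le_rfl⟩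
    have hz0 := hz 0 (Nat.zero_le _)
    rw [hs0] at hz0
    have hx0 : X z.1 = w.1 0 := congrArg Prod.fst hz0
    have hy0 : Y z.2 = w.2 0 := congrArg Prod.snd hz0
    rw [hA]
    refine ⟨hzU, ?_⟩
    rw [hx0, hy0]
    exact hor'.2

end B

end Pool.Agent.TH746.AL
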